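import Pool.Agent.TZL.DC

set_option autoImplicit false

/-! double counting: releasing one prime -/

namespace Pool.Agent.TZL

open Pool.Agent.TLW

open Finset

theorem dcy_mul {n q : ℕ} (hn : F1 n) (hq : P8 q) (hqn : ¬ q ∣ n) :
    F1 (n * q) ∧ (n * q).primeFactors = insert q n.primeFactors := by
  have hcop : Nat.Coprime n q := ((Nat.Prime.coprime_iff_not_dvd hq.1).2 hqn).symm
  have hn0 : n ≠ 0 := hn.1.ne_zero
  have hpf : (n * q).primeFactors = insert q n.primeFactors := by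
    rw [Nat.Coprime.primeFactors_mul hcop, hq.1.primeFactors, Finset.union_comm]
    rfl
  refine ⟨⟨(Nat.squarefree_mul hcop).2 ⟨hn.1, hq.1.squarefree⟩, ?_⟩, hpf⟩
  intro p hp
  rw [hpf, mem_insert] at hp
  rcases hp with rfl | hp
  · exact hq.2
  · exact hn.2 p hp

theorem dcy_div {n q : ℕ} (hn : F1 n) (hq : q ∈ n.primeFactors) :
    P8 q ∧ F1 (n / q) ∧ ¬ q ∣ n / q ∧ n / q * q = n := by
  have hqp := Nat.prime_of_mem_primeFactors hq
  have hqd := Nat.dvd_of_mem_primeFactors hq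
  have hmul : n / q * q = n := Nat.div_mul_cancel hqd
  have hsq : Squarefree (n / q * q) := by rw [hmul]; exact hn.1
  have hdvd : n / q ∣ n := Nat.div_dvd_of_dvd hqd
  refine ⟨⟨hqp, hn.2 q hq⟩, ⟨hn.1.squarefree_of_dvd hdvd, ?_⟩, ?_, hmul⟩
  · intro p hp
    exact hn.2 p (Nat.primeFactors_mono hdvd hn.1.ne_zero hp)
  · intro h
    obtain ⟨t, ht⟩ := h
    have : q * q ∣ n := ⟨t, by rw [← hmul, ht]; ring⟩
    have h2 := hn.1 q this
    exact hqp.not_isUnit h2

theorem dcy_big {n q z : ℕ} (hn : F1 n) (hq : P8 q) (hqn : ¬ q ∣ n) (hz : z < q) :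
    big z (n * q) = big z n + 1 := by
  unfold big
  rw [(dcy_mul hn hq hqn).2, filter_insert, if_pos hz, card_insert_of_notMem]
  intro h
  exact hqn (Nat.dvd_of_mem_primeFactors (mem_filter.1 h).1)

theorem dcy_F1_dvd {n d : ℕ} (hn : F1 n) (hd : d ∣ n) : F1 d :=
  ⟨hn.1.squarefree_of_dvd hd, fun p hp => hn.2 p (Nat.primeFactors_mono hd hn.1.ne_zero hp)⟩

/-- membership in `dv` after adding one prime to the rough part -/
theorem dcy_dv {n q z i b : ℕ} (hn : F1 n) (hq : P8 q) (hqn : ¬ q ∣ n) (hz : z < q) (hb : b ∣ n) :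
    b ∈ dv z (i + 1) (n * q) ↔ b ∈ dv z i n := by
  have hn0 : n ≠ 0 := hn.1.ne_zero
  have hq0 : q ≠ 0 := hq.1.ne_zero
  obtain ⟨m, rfl⟩ := hb
  have hb0 : b ≠ 0 := left_ne_zero_of_mul hn0
  have hb1 : 0 < b := Nat.pos_of_ne_zero hb0
  have e1 : b * m / b = m := Nat.mul_div_cancel_left m hb1
  have e2 : b * m * q / b = m * q := by
    rw [mul_assoc, Nat.mul_div_cancel_left _ hb1]
  have hm : F1 m := dcy_F1_dvd hn (Dvd.intro_left b rfl)
  have hqm : ¬ q ∣ m := fun h => hqn (h.mul_left b)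
  have hpf := (dcy_mul hm hq hqm).2
  have hnm : q ∉ m.primeFactors := fun h => hqm (Nat.dvd_of_mem_primeFactors h)
  unfold dv
  rw [mem_filter, mem_filter, Nat.mem_divisors, Nat.mem_divisors, e1, e2, hpf,
    card_insert_of_notMem hnm]
  unfold Rgh
  rw [hpf]
  constructor
  · rintro ⟨_, h2, h3⟩
    exact ⟨⟨Dvd.intro m rfl, hn0⟩, fun p hp => h2 p (mem_insert_of_mem hp), by omega⟩
  · rintro ⟨_, h2, h3⟩
    refine ⟨⟨⟨m * q, by ring⟩, mul_ne_zero hn0 hq0⟩, fun p hp => ?_, by omega⟩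
    rw [mem_insert] at hp
    rcases hp with rfl | hp
    · exact hz
    · exact h2 p hp

theorem AS_shift (X z J i : ℕ) (hz : 1 ≤ z) (H : ℕ → ℝ) :
    ((i : ℝ) + 1) * AS X z J (i + 1) H = BS X z J i (fun b _ => H b) := by
  have hleft : ((i : ℝ) + 1) * AS X z J (i + 1) H =
      ∑ x ∈ ((FF X).filter (fun n => big z n = J)).sigma (fun n =>
        (dv z (i + 1) n).sigma (fun b => (n / b).primeFactors)), H x.2.1 := by
    unfold AS
    rw [sum_sigma, mul_sum]
    refine sum_congr rfl fun n _ => ?_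
    rw [sum_sigma, mul_sum]
    refine sum_congr rfl fun b hb => ?_
    change ((i : ℝ) + 1) * H b = ∑ _x ∈ (n / b).primeFactors, H b
    rw [sum_const, nsmul_eq_mul]
    have hcard : (n / b).primeFactors.card = i + 1 := by
      unfold dv at hb
      exact (mem_filter.1 hb).2.2
    rw [hcard]
    push_cast
    ring
  have hright : BS X z J i (fun b _ => H b) =
      ∑ x ∈ ((FF (X / z)).filter (fun n => big z n + 1 = J)).sigma (fun n =>
        (dv z i n).sigma (fun _ => (pr z (X / n)).filter (fun q => ¬ q ∣ n))), H x.2.1 := by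
    unfold BS
    rw [sum_sigma]
    refine sum_congr rfl fun n _ => ?_
    rw [sum_sigma]
  rw [hleft, hright]
  refine sum_bij' (fun x _ => ⟨x.1 / x.2.2, x.2.1, x.2.2⟩) (fun x _ => ⟨x.1 * x.2.2, x.2.1, x.2.2⟩)
    ?_ ?_ ?_ ?_ ?_
  · rintro ⟨n, b, q⟩ hx
    simp only [mem_sigma, mem_filter] at hx ⊢
    obtain ⟨⟨hnF, hbig⟩, hb, hq⟩ := hx
    unfold FF at hnF
    rw [mem_filter, mem_Icc] at hnF
    obtain ⟨⟨hn1, hnX⟩, hF⟩ := hnF
    have hbd : b ∣ n := by
      unfold dv at hb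
      exact Nat.dvd_of_mem_divisors (mem_filter.1 hb).1
    have hRgh : Rgh z (n / b) := by
      unfold dv at hb
      exact (mem_filter.1 hb).2.1
    have hzq : z < q := hRgh q hq
    have hqn : q ∈ n.primeFactors :=
      Nat.primeFactors_mono (Nat.div_dvd_of_dvd hbd) hF.1.ne_zero hq
    obtain ⟨hP, hF', hnd, hmul⟩ := dcy_div hF hqn
    have hq0 : 0 < q := hP.1.pos
    have hn' : 0 < n / q := Nat.pos_of_ne_zero hF'.1.ne_zero
    have hbig' := dcy_big hF' hP hnd hzq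
    rw [hmul] at hbig'
    -- b divides n / q
    have hbd' : b ∣ n / q := by
      obtain ⟨m, rfl⟩ := hbd
      have hb0 : 0 < b := Nat.pos_of_ne_zero (left_ne_zero_of_mul hF.1.ne_zero)
      rw [Nat.mul_div_cancel_left m hb0] at hq
      obtain ⟨t, rfl⟩ := Nat.dvd_of_mem_primeFactors hq
      refine ⟨t, ?_⟩
      rw [show b * (q * t) = b * t * q by ring, Nat.mul_div_cancel _ hq0]
    have hbdv : b ∈ dv z i (n / q) := by
      rw [← dcy_dv hF' hP hnd hzq hbd', hmul]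
      exact hb
    refine ⟨⟨?_, by omega⟩, hbdv, ?_, hnd⟩
    · unfold FF
      rw [mem_filter, mem_Icc]
      refine ⟨⟨hn', ?_⟩, hF'⟩
      rw [Nat.le_div_iff_mul_le (by omega)]
      calc n / q * z ≤ n / q * q := Nat.mul_le_mul_left _ hzq.le
        _ = n := hmul
        _ ≤ X := hnX
    · unfold pr
      rw [mem_filter, mem_Ioc]
      refine ⟨⟨hzq, ?_⟩, hP⟩
      rw [Nat.le_div_iff_mul_le hn', mul_comm, hmul]
      exact hnX
  · rintro ⟨n, b, q⟩ hx
    simp only [mem_sigma, mem_filter] at hx ⊢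
    obtain ⟨⟨hnF, hbig⟩, hb, hq, hnd⟩ := hx
    unfold FF at hnF
    rw [mem_filter, mem_Icc] at hnF
    obtain ⟨⟨hn1, hnX⟩, hF⟩ := hnF
    unfold pr at hq
    rw [mem_filter, mem_Ioc] at hq
    obtain ⟨⟨hzq, hqX⟩, hP⟩ := hq
    have hbd : b ∣ n := by
      unfold dv at hb
      exact Nat.dvd_of_mem_divisors (mem_filter.1 hb).1
    have hmulF := dcy_mul hF hP hnd
    have hbig' := dcy_big hF hP hnd hzq
    refine ⟨⟨?_, by omega⟩, (dcy_dv hF hP hnd hzq hbd).2 hb, ?_⟩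
    · unfold FF
      rw [mem_filter, mem_Icc]
      refine ⟨⟨Nat.mul_pos hn1 hP.1.pos, ?_⟩, hmulF.1⟩
      rw [Nat.le_div_iff_mul_le hn1] at hqX
      rw [mul_comm]
      exact hqX
    · obtain ⟨m, rfl⟩ := hbd
      have hb0 : 0 < b := Nat.pos_of_ne_zero (left_ne_zero_of_mul hF.1.ne_zero)
      rw [mul_assoc, Nat.mul_div_cancel_left _ hb0]
      refine Nat.mem_primeFactors.2 ⟨hP.1, Dvd.intro_left m rfl, ?_⟩
      exact mul_ne_zero (right_ne_zero_of_mul hF.1.ne_zero) hP.1.ne_zero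
  · rintro ⟨n, b, q⟩ hx
    simp only [mem_sigma, mem_filter] at hx
    obtain ⟨⟨hnF, hbig⟩, hb, hq⟩ := hx
    unfold FF at hnF
    rw [mem_filter, mem_Icc] at hnF
    have hbd : b ∣ n := by
      unfold dv at hb
      exact Nat.dvd_of_mem_divisors (mem_filter.1 hb).1
    have hqn : q ∣ n := (Nat.dvd_of_mem_primeFactors hq).trans (Nat.div_dvd_of_dvd hbd)
    simp only [Nat.div_mul_cancel hqn]
  · rintro ⟨n, b, q⟩ hx
    simp only [mem_sigma, mem_filter] at hx
    obtain ⟨_, _, hq, _⟩ := hx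
    unfold pr at hq
    rw [mem_filter, mem_Ioc] at hq
    have hq0 : 0 < q := hq.2.1.pos
    simp only [Nat.mul_div_cancel _ hq0]
  · rintro ⟨n, b, q⟩ _
    rfl

end Pool.Agent.TZL
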