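import Pool.Agent.TZL.RegA

set_option autoImplicit false

/-! the size of `DD` -/

namespace Pool.Agent.TZL

open Pool.Agent.TLW

open Finset Filter Topology

lemma DD_div {Y Z : ℕ} (h : Y ≤ Z) : DD Z / DD Y = ∏ p ∈ pr Y Z, (1 + 1 / (p : ℝ)) := by
  rw [DD_mul h, mul_div_cancel_left₀]
  have := one_le_DD Y
  linarith

lemma log_DD_div (Y Z : ℕ) : Real.log (∏ p ∈ pr Y Z, (1 + 1 / (p : ℝ))) =
    ∑ p ∈ pr Y Z, Real.log (1 + 1 / (p : ℝ)) := by
  apply Real.log_prod
  intro p _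
  have := one_le_factor p
  linarith

lemma log_one_add_ge {u : ℝ} (hu : 0 ≤ u) : u - u ^ 2 ≤ Real.log (1 + u) := by
  have h1 : 0 < 1 + u := by linarith
  have h2 := Real.one_sub_inv_le_log_of_pos h1
  have h3 : u - u ^ 2 ≤ 1 - (1 + u)⁻¹ := by
    have : 1 - (1 + u)⁻¹ = u / (1 + u) := by
      field_simp
      ring
    rw [this, le_div_iff₀ h1]
    nlinarith [pow_nonneg hu 3]
  linarith

private lemma sum_image_le' {α : Type*} (T : Finset α) (g : α → ℕ) (S : Finset ℕ)
    (f : ℕ → ℝ) (hf : ∀ n, 0 ≤ f n) (hS : ∀ n ∈ S, ∃ t ∈ T, g t = n) :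
    ∑ n ∈ S, f n ≤ ∑ t ∈ T, f (g t) := by
  classical
  have h1 : S ⊆ T.image g := by
    intro n hn
    obtain ⟨t, ht, h⟩ := hS n hn
    exact mem_image.2 ⟨t, ht, h⟩
  calc ∑ n ∈ S, f n ≤ ∑ n ∈ T.image g, f n :=
        sum_le_sum_of_subset_of_nonneg h1 fun n _ _ => hf n
    _ ≤ ∑ n ∈ T.image g, ∑ t ∈ T.filter (fun t => g t = n), f (g t) := by
        refine sum_le_sum fun n hn => ?_
        obtain ⟨t, ht, h⟩ := mem_image.1 hn
        have h2 : t ∈ T.filter (fun t => g t = n) := mem_filter.2 ⟨ht, h⟩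
        calc f n = f (g t) := by rw [h]
          _ ≤ _ := single_le_sum (f := fun t => f (g t)) (fun t _ => hf _) h2
    _ = ∑ t ∈ T, f (g t) := sum_fiberwise_of_maps_to (fun t ht => mem_image_of_mem g ht) _

private lemma sum_sq_le (N : ℕ) : ∑ b ∈ Icc 1 N, (1 : ℝ) / (b : ℝ) ^ 2 ≤ 2 := by
  have h := sum_Ioo_inv_sq_le (α := ℝ) 0 (N + 1)
  have h2 : Ioo 0 (N + 1) = Icc 1 N := by
    ext b
    rw [mem_Ioo, mem_Icc]
    omega
  rw [h2] at h
  simp only [Nat.cast_zero, zero_add, div_one] at h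
  refine le_trans (le_of_eq ?_) h
  exact sum_congr rfl fun b _ => by rw [one_div]

/-- lower bound for `DD` -/
theorem log_le_DD (x : ℕ) (hx : 1 ≤ x) : Real.log x ≤ 3 * DD x := by
  classical
  have h0 : Real.log x ≤ ∑ n ∈ Icc 1 x, 1 / (n : ℝ) := by
    have h := log_add_one_le_harmonic x
    rw [harmonic_eq_sum_Icc] at h
    push_cast at h
    have h1 : Real.log x ≤ Real.log ((x : ℝ) + 1) := by
      apply Real.log_le_log
      · exact_mod_cast hx
      · linarith
    simp only [one_div]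
    linarith
  set T : Finset (ℕ × ℕ × ℕ) := (PP x).divisors ×ˢ (range 2 ×ˢ Icc 1 x) with hT
  have h1 : ∑ n ∈ Icc 1 x, 1 / (n : ℝ) ≤
      ∑ t ∈ T, 1 / ((t.1 * (2 ^ t.2.1 * t.2.2 ^ 2) : ℕ) : ℝ) := by
    refine sum_image_le' T (fun t => t.1 * (2 ^ t.2.1 * t.2.2 ^ 2)) (Icc 1 x)
      (fun n => 1 / (n : ℝ)) (fun n => by positivity) ?_
    intro n hn
    rw [mem_Icc] at hn
    obtain ⟨a, b, hab, hsq⟩ := Nat.sq_mul_squarefree n
    have ha0 : a ≠ 0 := hsq.ne_zero
    have hb0 : b ≠ 0 := by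
      rintro rfl
      rw [zero_pow (by norm_num), zero_mul] at hab
      omega
    have hbn : b ≤ x := by
      have : b ≤ b ^ 2 * a := by
        have h2 : b ≤ b ^ 2 := Nat.le_self_pow (by norm_num) b
        calc b ≤ b ^ 2 := h2
          _ ≤ b ^ 2 * a := Nat.le_mul_of_pos_right _ (Nat.pos_of_ne_zero ha0)
      omega
    have han : a ≤ x := by
      have : a ≤ b ^ 2 * a := Nat.le_mul_of_pos_left _ (by positivity)
      omega
    have key : ∀ a' : ℕ, Squarefree a' → a' % 2 = 1 → a' ≤ x → a' ∈ (PP x).divisors := by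
      intro a' h3 h4 h5
      rw [mem_PP_divisors]
      refine ⟨⟨h3, fun p hp => ?_⟩, fun p hp => (Nat.le_of_mem_primeFactors hp).trans h5⟩
      have hp1 := Nat.prime_of_mem_primeFactors hp
      rcases hp1.eq_two_or_odd with h | h
      · subst h
        have := Nat.dvd_of_mem_primeFactors hp
        omega
      · exact h
    rcases Nat.mod_two_eq_zero_or_one a with h2 | h2
    · obtain ⟨a', rfl⟩ := Nat.dvd_of_mod_eq_zero h2
      have hsq' : Squarefree a' := hsq.squarefree_of_dvd (Dvd.intro_left 2 rfl)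
      have ha'2 : a' % 2 = 1 := by
        by_contra hcon
        have h3 : 2 ∣ a' := by omega
        obtain ⟨c, rfl⟩ := h3
        have := hsq 2 ⟨c, by ring⟩
        norm_num at this
      refine ⟨(a', 1, b), ?_, ?_⟩
      · rw [hT, mem_product, mem_product, mem_range, mem_Icc]
        exact ⟨key a' hsq' ha'2 (by omega), by norm_num, Nat.one_le_iff_ne_zero.2 hb0, hbn⟩
      · rw [← hab]; ring
    · refine ⟨(a, 0, b), ?_, ?_⟩
      · rw [hT, mem_product, mem_product, mem_range, mem_Icc]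
        exact ⟨key a hsq h2 han, by norm_num, Nat.one_le_iff_ne_zero.2 hb0, hbn⟩
      · rw [← hab]; ring
  have h2 : ∑ t ∈ T, 1 / ((t.1 * (2 ^ t.2.1 * t.2.2 ^ 2) : ℕ) : ℝ) =
      DD x * ((3 / 2) * ∑ b ∈ Icc 1 x, 1 / (b : ℝ) ^ 2) := by
    rw [hT, sum_product, ← DD_eq, sum_mul]
    refine sum_congr rfl fun a _ => ?_
    rw [sum_product]
    have : ∀ e b : ℕ, 1 / (((a * (2 ^ e * b ^ 2) : ℕ)) : ℝ) =
        1 / (a : ℝ) * (1 / 2 ^ e * (1 / (b : ℝ) ^ 2)) := by
      intro e b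
      push_cast
      rw [one_div_mul_one_div, one_div_mul_one_div]
    simp only [this, ← mul_sum]
    congr 1
    rw [← sum_mul]
    congr 1
    rw [sum_range_succ, sum_range_one]
    norm_num
  have h3 := sum_sq_le x
  have h4 := one_le_DD x
  rw [h2] at h1
  have h5 : DD x * ((3 / 2) * ∑ b ∈ Icc 1 x, 1 / (b : ℝ) ^ 2) ≤ DD x * ((3 / 2) * 2) := by
    apply mul_le_mul_of_nonneg_left _ (by linarith)
    apply mul_le_mul_of_nonneg_left h3 (by norm_num)
  linarith

/-- the growth of `DD` -/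
theorem DD_reg : ∃ C : ℝ, 0 < C ∧ ∀ y x : ℕ, 2 ≤ y → y ≤ x →
    DD y ≤ C * (Real.log y / Real.log x) * DD x ∧
      DD x ≤ C * (Real.log x / Real.log y) * DD y := by
  obtain ⟨C, hC, h⟩ := DD_le_log
  refine ⟨3 * C, by positivity, fun y x hy hx => ?_⟩
  have hyr : (2 : ℝ) ≤ y := by exact_mod_cast hy
  have hxr : (y : ℝ) ≤ x := by exact_mod_cast hx
  have hly : 0 < Real.log y := Real.log_pos (by linarith)
  have hlx : 0 < Real.log x := Real.log_pos (by linarith)
  have h1 := h y hy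
  have h2 := h x (hy.trans hx)
  have h3 := log_le_DD y (by omega)
  have h4 := log_le_DD x (by omega)
  constructor
  · calc DD y ≤ C * Real.log y := h1
      _ = C * (Real.log y / Real.log x) * Real.log x := by field_simp
      _ ≤ C * (Real.log y / Real.log x) * (3 * DD x) := by gcongr
      _ = _ := by ring
  · calc DD x ≤ C * Real.log x := h2
      _ = C * (Real.log x / Real.log y) * Real.log y := by field_simp
      _ ≤ C * (Real.log x / Real.log y) * (3 * DD y) := by gcongr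
      _ = _ := by ring

/-- the yardstick is at most a constant times `X` -/
theorem yard_le : ∃ C : ℝ, 0 < C ∧ ∀ X : ℕ, 2 ≤ X → ((X : ℝ) / Real.log X) * DD X ≤ C * X := by
  obtain ⟨C, hC, h⟩ := DD_le_log
  refine ⟨C, hC, fun X hX => ?_⟩
  have hX1 : (1 : ℝ) < X := by exact_mod_cast (by omega : 1 < X)
  have hl : 0 < Real.log X := Real.log_pos hX1
  calc ((X : ℝ) / Real.log X) * DD X ≤ ((X : ℝ) / Real.log X) * (C * Real.log X) := by
        gcongr
        exact h X hX
    _ = C * X := by field_simp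

/-- the yardstick is at least `X / 3` -/
theorem yard_ge (X : ℕ) (hX : 2 ≤ X) : (X : ℝ) ≤ 3 * (((X : ℝ) / Real.log X) * DD X) := by
  have hX1 : (1 : ℝ) < X := by exact_mod_cast (by omega : 1 < X)
  have hl : 0 < Real.log X := Real.log_pos hX1
  have h := log_le_DD X (by omega)
  calc (X : ℝ) = ((X : ℝ) / Real.log X) * Real.log X := by field_simp
    _ ≤ ((X : ℝ) / Real.log X) * (3 * DD X) := by gcongr
    _ = _ := by ring

end Pool.Agent.TZL
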