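import Pool.Agent.TZL.Ifc
import Pool.Agent.TZL.K0s

set_option autoImplicit false

/-! digit types: a function `g` on the odd squarefree numbers `m = c mod 8` which is the indicator
of the vanishing of a corank -/

namespace Pool.Agent.TZL

open Finset Pool.Agent.TLW

/-- A digit function in the class `c` modulo `8`. -/
structure Dig (c : ℕ) (e f L : ZMod 2) (g : ℕ → ℝ) : Prop where
  hc : c = 1 ∨ c = 3 ∨ c = 5 ∨ c = 7
  g01 : ∀ m, 0 ≤ g m ∧ g m ≤ 1
  hev : ∃ v : (a : ℕ) → Ix a → ZMod 2, ∀ a q, F1 a → P8 q → ¬ q ∣ a → (a * q) % 8 = c →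
    g (a * q) = if crk (CC (Ra a) (rr e f (sa a) (la a)) (la a) (fun i => wq a q i + v a i) L) = 0
      then 1 else 0
  hk : ∃ kf : ℕ → ℝ, Thin kf ∧ ∀ J a, F1 a → |avg a (GPh e f L J a) - Gf e f L (J + 1) a| ≤ kf a

/-- class function -/
noncomputable def cPh (c a : ℕ) : Ph a := fun _ s l =>
  if s = nn c + ∑ i, sa a i ∧ l = lam c + ∑ i, la a i then 1 else 0

/-- digit function -/
noncomputable def gPh (c : ℕ) (e f L : ZMod 2) (v : (a : ℕ) → Ix a → ZMod 2) (a : ℕ) : Ph a :=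
  fun w s l => if s = nn c + ∑ i, sa a i ∧ l = lam c + ∑ i, la a i then
    (if crk (CC (Ra a) (rr e f (sa a) (la a)) (la a) (fun i => w i + v a i) L) = 0 then 1 else 0)
  else 0

theorem gPh_abs (c : ℕ) (e f L : ZMod 2) (v : (a : ℕ) → Ix a → ZMod 2) (a : ℕ)
    (w : Ix a → ZMod 2) (s l : ZMod 2) : |gPh c e f L v a w s l| ≤ 1 := by
  unfold gPh
  split_ifs <;> simp

theorem cPh_abs (c a : ℕ) (w : Ix a → ZMod 2) (s l : ZMod 2) : |cPh c a w s l| ≤ 1 := by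
  unfold cPh
  split_ifs <;> simp

theorem nn_lam_mul (x y : ℕ) (hx : x % 2 = 1) (hy : y % 2 = 1) :
    nn (x * y) = nn x + nn y ∧ lam (x * y) = lam x + lam y := by
  have h1 : (x * y) % 8 = ((x % 8) * (y % 8)) % 8 := Nat.mul_mod _ _ _
  have e4 : (x * y) % 4 = (x * y) % 8 % 4 := (Nat.mod_mod_of_dvd _ (by norm_num)).symm
  have ex : x % 4 = x % 8 % 4 := (Nat.mod_mod_of_dvd _ (by norm_num)).symm
  have ey : y % 4 = y % 8 % 4 := (Nat.mod_mod_of_dvd _ (by norm_num)).symm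
  unfold nn lam
  rw [e4, ex, ey, h1]
  rcases (by omega : x % 8 = 1 ∨ x % 8 = 3 ∨ x % 8 = 5 ∨ x % 8 = 7) with h | h | h | h <;>
  rcases (by omega : y % 8 = 1 ∨ y % 8 = 3 ∨ y % 8 = 5 ∨ y % 8 = 7) with h' | h' | h' | h' <;>
  rw [h, h'] <;> decide

/-- classes of products -/
theorem prod_odd (S : Finset ℕ) (h : ∀ p ∈ S, p % 2 = 1) :
    (∏ p ∈ S, p) % 2 = 1 ∧ nn (∏ p ∈ S, p) = ∑ p ∈ S, nn p ∧
      lam (∏ p ∈ S, p) = ∑ p ∈ S, lam p := by
  classical
  induction S using Finset.induction_on with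
  | empty => simp [nn, lam]
  | insert p S hp ih =>
    obtain ⟨h1, h2, h3⟩ := ih fun x hx => h x (Finset.mem_insert_of_mem hx)
    have h4 := h p (Finset.mem_insert_self _ _)
    rw [Finset.prod_insert hp, Finset.sum_insert hp, Finset.sum_insert hp]
    obtain ⟨h5, h6⟩ := nn_lam_mul p (∏ x ∈ S, x) h4 h1
    refine ⟨?_, by rw [h5, h2], by rw [h6, h3]⟩
    rw [Nat.mul_mod, h4, h1]

theorem prod_pf {a : ℕ} (ha : F1 a) : ∏ p ∈ a.primeFactors, p = a :=
  Nat.prod_primeFactors_of_squarefree ha.1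

theorem sum_Ix (a : ℕ) (f : ℕ → ZMod 2) : ∑ i : Ix a, f i = ∑ p ∈ a.primeFactors, f p :=
  Finset.sum_coe_sort a.primeFactors f

theorem nn_a {a : ℕ} (ha : F1 a) : ∑ i, sa a i = nn a := by
  have h := (prod_odd a.primeFactors ha.2).2.1
  rw [prod_pf ha] at h
  rw [h]; exact sum_Ix a nn

theorem lam_a {a : ℕ} (ha : F1 a) : ∑ i, la a i = lam a := by
  have h := (prod_odd a.primeFactors ha.2).2.2
  rw [prod_pf ha] at h
  rw [h]; exact sum_Ix a lam

theorem F1_odd {a : ℕ} (ha : F1 a) : a % 2 = 1 := by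
  have h := (prod_odd a.primeFactors ha.2).1
  rwa [prod_pf ha] at h

theorem class_iff {c a q : ℕ} (hc : c = 1 ∨ c = 3 ∨ c = 5 ∨ c = 7) (ha : F1 a) (hq : P8 q) :
    (a * q) % 8 = c ↔ (nn q = nn c + ∑ i, sa a i ∧ lam q = lam c + ∑ i, la a i) := by
  rw [nn_a ha, lam_a ha]
  have ha1 := F1_odd ha
  have hq1 := P8_odd hq
  have h1 : (a * q) % 8 = ((a % 8) * (q % 8)) % 8 := Nat.mul_mod _ _ _
  have ex : a % 4 = a % 8 % 4 := (Nat.mod_mod_of_dvd _ (by norm_num)).symm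
  have ey : q % 4 = q % 8 % 4 := (Nat.mod_mod_of_dvd _ (by norm_num)).symm
  unfold nn lam
  rw [ex, ey, h1]
  rcases (by omega : a % 8 = 1 ∨ a % 8 = 3 ∨ a % 8 = 5 ∨ a % 8 = 7) with h | h | h | h <;>
  rcases (by omega : q % 8 = 1 ∨ q % 8 = 3 ∨ q % 8 = 5 ∨ q % 8 = 7) with h' | h' | h' | h' <;>
  rw [h, h'] <;> rcases hc with rfl | rfl | rfl | rfl <;> decide

theorem cPh_ev {c : ℕ} (hc : c = 1 ∨ c = 3 ∨ c = 5 ∨ c = 7) (a q : ℕ) (ha : F1 a) (hq : P8 q) :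
    ev a (cPh c a) q = if (a * q) % 8 = c then 1 else 0 := by
  unfold ev cPh
  simp only [class_iff hc ha hq]

theorem cPh_avg (c a : ℕ) : avg a (cPh c a) = 1 / 4 := by
  unfold avg cPh
  have h1 : ∀ w : Ix a → ZMod 2, ∑ s : ZMod 2, ∑ l : ZMod 2,
      (if s = nn c + ∑ i, sa a i ∧ l = lam c + ∑ i, la a i then (1 : ℝ) else 0) = 1 := by
    intro _
    rw [Finset.sum_eq_single_of_mem (nn c + ∑ i, sa a i) (Finset.mem_univ _),
      Finset.sum_eq_single_of_mem (lam c + ∑ i, la a i) (Finset.mem_univ _)]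
    · simp
    · intro l _ hl; rw [if_neg fun h => hl h.2]
    · intro s _ hs
      exact Finset.sum_eq_zero fun l _ => if_neg fun h => hs h.1
  rw [Finset.sum_congr rfl fun w _ => h1 w, Finset.sum_const, Finset.card_univ, Fintype.card_fun,
    ZMod.card, card_Ix, nsmul_eq_mul, pow_add]
  push_cast
  have h2 : (2 : ℝ) ^ a.primeFactors.card ≠ 0 := by positivity
  field_simp
  norm_num

theorem sum_shift_vec {ι : Type*} [Fintype ι] [DecidableEq ι] (f : (ι → ZMod 2) → ℝ)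
    (v : ι → ZMod 2) : ∑ w : ι → ZMod 2, f (fun i => w i + v i) = ∑ u : ι → ZMod 2, f u :=
  Fintype.sum_equiv (Equiv.addRight v) _ _ fun _ => rfl

theorem gPh_avg (c : ℕ) (e f L : ZMod 2) (v : (a : ℕ) → Ix a → ZMod 2) (a : ℕ) :
    avg a (gPh c e f L v a) = Gf e f L 0 a / 4 := by
  unfold avg gPh Gf GLv
  set g : (Ix a → ZMod 2) → ℝ := fun u =>
    if crk (CC (Ra a) (rr e f (sa a) (la a)) (la a) u L) = 0 then 1 else 0 with hg
  have h1 : ∀ w : Ix a → ZMod 2, ∑ s : ZMod 2, ∑ l : ZMod 2,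
      (if s = nn c + ∑ i, sa a i ∧ l = lam c + ∑ i, la a i then
        (if crk (CC (Ra a) (rr e f (sa a) (la a)) (la a) (fun i => w i + v a i) L) = 0
          then (1 : ℝ) else 0) else 0) = g (fun i => w i + v a i) := by
    intro w
    rw [Finset.sum_eq_single_of_mem (nn c + ∑ i, sa a i) (Finset.mem_univ _),
      Finset.sum_eq_single_of_mem (lam c + ∑ i, la a i) (Finset.mem_univ _)]
    · rw [if_pos ⟨rfl, rfl⟩]
    · intro l _ hl; rw [if_neg fun h => hl h.2]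
    · intro s _ hs
      exact Finset.sum_eq_zero fun l _ => if_neg fun h => hs h.1
  rw [Finset.sum_congr rfl fun w _ => h1 w, sum_shift_vec g (v a)]
  simp only [hJ_zero, hg, card_Ix]
  rw [div_div]
  congr 1
  rw [pow_add]
  norm_num

theorem gPh_ev {c : ℕ} (hc : c = 1 ∨ c = 3 ∨ c = 5 ∨ c = 7) {e f L : ZMod 2} {g : ℕ → ℝ}
    {v : (a : ℕ) → Ix a → ZMod 2} (hv : ∀ a q, F1 a → P8 q → ¬ q ∣ a → (a * q) % 8 = c →
    g (a * q) = if crk (CC (Ra a) (rr e f (sa a) (la a)) (la a) (fun i => wq a q i + v a i) L) = 0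
      then 1 else 0)
    (a q : ℕ) (ha : F1 a) (hq : P8 q) (hqa : ¬ q ∣ a) :
    ev a (gPh c e f L v a) q = if (a * q) % 8 = c then g (a * q) else 0 := by
  unfold ev gPh
  by_cases h : (a * q) % 8 = c
  · rw [if_pos ((class_iff hc ha hq).1 h), if_pos h, hv a q ha hq hqa h]
  · rw [if_neg fun h' => h ((class_iff hc ha hq).2 h'), if_neg h]

end Pool.Agent.TZL
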