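import Pool.Agent.TZL.Cnt

set_option autoImplicit false

/-! natural step lemma: one block -/

namespace Pool.Agent.TZL

open Pool.Agent.TLW

open Finset

private theorem NSb_dvd {a d : ℕ} (ha : F1 a) (hd : d ∣ a) : F1 d := by
  have ha0 : a ≠ 0 := ha.1.ne_zero
  exact ⟨ha.1.squarefree_of_dvd hd, fun p hp => ha.2 p (Nat.primeFactors_mono hd ha0 hp)⟩

private theorem NSb_one : F1 1 := ⟨squarefree_one, by simp⟩

private theorem NSb_swap (Y : ℕ) (T : ℕ → ℝ) :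
    ∑ n ∈ FF Y, ∑ d ∈ n.divisors, T d =
      ∑ d ∈ FF Y, (((FF Y).filter (fun n => d ∣ n)).card : ℝ) * T d := by
  have h1 : ∀ n ∈ FF Y, n.divisors = (FF Y).filter (fun d => d ∣ n) := by
    intro n hn
    obtain ⟨hn1, hn2⟩ := Finset.mem_filter.mp hn
    rw [Finset.mem_Icc] at hn1
    ext d
    rw [Nat.mem_divisors, Finset.mem_filter]
    constructor
    · rintro ⟨hd, hn0⟩
      have hdpos : 0 < d := Nat.pos_of_dvd_of_pos hd (by omega)
      have hdle : d ≤ n := Nat.le_of_dvd (by omega) hd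
      refine ⟨Finset.mem_filter.mpr ⟨Finset.mem_Icc.mpr ⟨by omega, by omega⟩, NSb_dvd hn2 hd⟩, hd⟩
    · rintro ⟨_, hd⟩
      exact ⟨hd, by omega⟩
  rw [Finset.sum_congr rfl (fun n hn => by rw [h1 n hn])]
  simp_rw [Finset.sum_filter]
  rw [Finset.sum_comm]
  refine Finset.sum_congr rfl (fun d _ => ?_)
  rw [← Finset.sum_filter, Finset.sum_const, nsmul_eq_mul]

private theorem NSb_cs (S : Finset ℕ) (a : ℕ → ℝ) (ha : ∀ n, 0 ≤ a n) :
    ∑ n ∈ S, Real.sqrt (a n) ≤ Real.sqrt ((S.card : ℝ) * ∑ n ∈ S, a n) := by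
  apply Real.le_sqrt_of_sq_le
  have h := Finset.sum_mul_sq_le_sq_mul_sq S (fun _ => (1 : ℝ)) (fun n => Real.sqrt (a n))
  simp only [one_mul, one_pow, Finset.sum_const, nsmul_eq_mul, mul_one] at h
  calc (∑ n ∈ S, Real.sqrt (a n)) ^ 2 ≤ (S.card : ℝ) * ∑ n ∈ S, Real.sqrt (a n) ^ 2 := h
    _ = (S.card : ℝ) * ∑ n ∈ S, a n := by
        congr 1
        exact Finset.sum_congr rfl (fun n _ => Real.sq_sqrt (ha n))

theorem ns_block : ∃ C : ℝ, 0 < C ∧ ∀ Y : ℕ, 2 ≤ Y → ∀ T : ℕ → ℝ, (∀ d, 0 ≤ T d) →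
    ∑ n ∈ FF Y, Real.sqrt (∑ d ∈ n.divisors, T d) ≤
      C * ((Y : ℝ) * DD Y / Real.log Y) *
        Real.sqrt (∑ d ∈ FF Y, (1 + Real.log d) / d * T d) := by
  obtain ⟨C, hC, h⟩ := cnt_div
  refine ⟨C, hC, fun Y hY T hT => ?_⟩
  have hlog : 0 < Real.log Y := Real.log_pos (by exact_mod_cast hY)
  have hDD : 0 ≤ DD Y := Finset.prod_nonneg (fun p _ => by positivity)
  have hcard : ((FF Y).card : ℝ) ≤ C * ((Y : ℝ) * DD Y / Real.log Y) := by
    have h1 := h Y 1 hY NSb_one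
    have h2 : (FF Y).filter (fun n => 1 ∣ n) = FF Y := by
      apply Finset.filter_true_of_mem
      intro n _
      exact one_dvd n
    rw [h2] at h1
    simp only [Nat.cast_one, div_one, Real.log_one, add_zero, mul_one] at h1
    calc ((FF Y).card : ℝ) ≤ C * (Y : ℝ) * (DD Y / Real.log Y) := h1
      _ = C * ((Y : ℝ) * DD Y / Real.log Y) := by ring
  have hsum : ∑ n ∈ FF Y, ∑ d ∈ n.divisors, T d ≤
      C * ((Y : ℝ) * DD Y / Real.log Y) * ∑ d ∈ FF Y, (1 + Real.log d) / d * T d := by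
    rw [NSb_swap, Finset.mul_sum]
    apply Finset.sum_le_sum
    intro d hd
    obtain ⟨hd1, hd2⟩ := Finset.mem_filter.mp hd
    have h1 := h Y d hY hd2
    calc (((FF Y).filter (fun n => d ∣ n)).card : ℝ) * T d
        ≤ (C * ((Y : ℝ) / d) * (1 + Real.log d) * (DD Y / Real.log Y)) * T d :=
          mul_le_mul_of_nonneg_right h1 (hT d)
      _ = C * ((Y : ℝ) * DD Y / Real.log Y) * ((1 + Real.log d) / d * T d) := by ring
  have hS0 : 0 ≤ ∑ n ∈ FF Y, ∑ d ∈ n.divisors, T d :=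
    Finset.sum_nonneg (fun n _ => Finset.sum_nonneg (fun d _ => hT d))
  have hA : 0 ≤ C * ((Y : ℝ) * DD Y / Real.log Y) := by positivity
  calc ∑ n ∈ FF Y, Real.sqrt (∑ d ∈ n.divisors, T d)
      ≤ Real.sqrt (((FF Y).card : ℝ) * ∑ n ∈ FF Y, ∑ d ∈ n.divisors, T d) :=
        NSb_cs (FF Y) (fun n => ∑ d ∈ n.divisors, T d)
          (fun n => Finset.sum_nonneg (fun d _ => hT d))
    _ ≤ Real.sqrt ((C * ((Y : ℝ) * DD Y / Real.log Y)) *
          (C * ((Y : ℝ) * DD Y / Real.log Y) *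
            ∑ d ∈ FF Y, (1 + Real.log d) / d * T d)) := by
        apply Real.sqrt_le_sqrt
        exact mul_le_mul hcard hsum hS0 hA
    _ = C * ((Y : ℝ) * DD Y / Real.log Y) *
          Real.sqrt (∑ d ∈ FF Y, (1 + Real.log d) / d * T d) := by
        rw [← mul_assoc, Real.sqrt_mul (mul_nonneg hA hA), Real.sqrt_mul_self hA]

end Pool.Agent.TZL
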