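import Pool.Agent.TZL.RegC

set_option autoImplicit false

/-! natural step lemma: the sum over the grid -/

namespace Pool.Agent.TZL

open Pool.Agent.TLW

open Finset

theorem ns_grid (κ : ℝ) (h0 : 0 < κ) (h1 : κ ≤ 1) : ∃ C : ℝ, 0 < C ∧ ∃ X0 : ℕ, ∀ X : ℕ, X0 ≤ X →
    ∀ N : ℕ, (1 + κ) ^ N ≤ (X : ℝ) →
    ∑ i ∈ range (N + 1), DD (max 2 (X / ⌊(1 + κ) ^ i⌋₊)) /
        Real.log ((max 2 (X / ⌊(1 + κ) ^ i⌋₊) : ℕ) : ℝ) ≤ C * DD X := by
  obtain ⟨C, hC, hreg⟩ := DD_le_log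
  set L : ℝ := Real.log (1 + κ) with hL
  have hL0 : 0 < L := Real.log_pos (by linarith)
  have hL2 : L ≤ Real.log 2 := Real.log_le_log (by linarith) (by linarith)
  refine ⟨C * (2 / L) * 3, by positivity, 2, fun X hX N hN => ?_⟩
  have hX2 : (2 : ℝ) ≤ X := by exact_mod_cast hX
  have hX0 : (0 : ℝ) < X := by linarith
  have hlX : Real.log 2 ≤ Real.log X := Real.log_le_log (by norm_num) hX2
  have key : ∀ i ∈ range (N + 1), DD (max 2 (X / ⌊(1 + κ) ^ i⌋₊)) /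
      Real.log ((max 2 (X / ⌊(1 + κ) ^ i⌋₊) : ℕ) : ℝ) ≤ C := by
    intro i _
    have hY2 : 2 ≤ max 2 (X / ⌊(1 + κ) ^ i⌋₊) := le_max_left _ _
    have hl : 0 < Real.log ((max 2 (X / ⌊(1 + κ) ^ i⌋₊) : ℕ) : ℝ) :=
      Real.log_pos (by exact_mod_cast (by omega : 1 < max 2 (X / ⌊(1 + κ) ^ i⌋₊)))
    rw [div_le_iff₀ hl]
    exact hreg _ hY2
  have hNL : ((N : ℝ) + 1) ≤ 2 / L * Real.log X := by
    have h2 := Real.log_le_log (by positivity) hN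
    rw [Real.log_pow, ← hL] at h2
    rw [div_mul_eq_mul_div, le_div_iff₀ hL0]
    linarith
  have h3 := log_le_DD X (by omega)
  calc _ ≤ ∑ _i ∈ range (N + 1), C := sum_le_sum key
    _ = ((N : ℝ) + 1) * C := by rw [sum_const, card_range, nsmul_eq_mul]; push_cast; ring
    _ ≤ (2 / L * Real.log X) * C := by gcongr
    _ ≤ (2 / L * (3 * DD X)) * C := by gcongr
    _ = C * (2 / L) * 3 * DD X := by ring

end Pool.Agent.TZL
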