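import Pool.Agent.TZL.DCx
import Pool.Agent.TZL.DCy
import Pool.Agent.TZL.NS
import Pool.Agent.TZL.K0s
import Pool.Agent.TZL.Dig

set_option autoImplicit false

/-! assembly for a fixed number of large primes -/

namespace Pool.Agent.TZL

open Pool.Agent.TLW

open Finset

/-- comparison of two triple sums -/
private theorem BS_diff (X z J i : ℕ) (H H' M : ℕ → ℕ → ℝ) (hM0 : ∀ n b, 0 ≤ M n b)
    (h : ∀ n ∈ FF (X / z), ∀ b ∈ dv z i n,
      |∑ q ∈ (pr z (X / n)).filter (fun q => ¬ q ∣ n), (H b q - H' b q)| ≤ M n b) :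
    |BS X z J i H - BS X z J i H'| ≤
      ∑ n ∈ FF (X / z), ∑ b ∈ n.divisors.filter (fun b => Rgh z (n / b)), M n b := by
  have h1 : BS X z J i H - BS X z J i H' =
      ∑ n ∈ (FF (X / z)).filter (fun n => big z n + 1 = J), ∑ b ∈ dv z i n,
        ∑ q ∈ (pr z (X / n)).filter (fun q => ¬ q ∣ n), (H b q - H' b q) := by
    unfold BS
    simp only [← Finset.sum_sub_distrib]
  rw [h1]
  calc |∑ n ∈ (FF (X / z)).filter (fun n => big z n + 1 = J), ∑ b ∈ dv z i n,
        ∑ q ∈ (pr z (X / n)).filter (fun q => ¬ q ∣ n), (H b q - H' b q)|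
      ≤ ∑ n ∈ (FF (X / z)).filter (fun n => big z n + 1 = J), ∑ b ∈ dv z i n,
        |∑ q ∈ (pr z (X / n)).filter (fun q => ¬ q ∣ n), (H b q - H' b q)| :=
        (Finset.abs_sum_le_sum_abs _ _).trans
          (Finset.sum_le_sum fun n _ => Finset.abs_sum_le_sum_abs _ _)
    _ ≤ ∑ n ∈ (FF (X / z)).filter (fun n => big z n + 1 = J), ∑ b ∈ dv z i n, M n b :=
        Finset.sum_le_sum fun n hn => Finset.sum_le_sum fun b hb =>
          h n (Finset.mem_of_mem_filter n hn) b hb
    _ ≤ ∑ n ∈ FF (X / z), ∑ b ∈ dv z i n, M n b :=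
        Finset.sum_le_sum_of_subset_of_nonneg (Finset.filter_subset _ _)
          fun n _ _ => Finset.sum_nonneg fun b _ => hM0 n b
    _ ≤ _ := by
        refine Finset.sum_le_sum fun n _ => ?_
        refine Finset.sum_le_sum_of_subset_of_nonneg ?_ fun b _ _ => hM0 n b
        intro b hb
        unfold dv at hb
        rw [Finset.mem_filter] at hb ⊢
        exact ⟨hb.1, hb.2.1⟩

private theorem Pinf01 : 0 ≤ Pinf ∧ Pinf ≤ 1 := ⟨Pinf_pos.le, Pinf_le_one⟩

/-- facts about the members of the sums -/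
private theorem mem_facts {X z n : ℕ} (hn : n ∈ FF (X / z)) : F1 n := by
  unfold FF at hn
  exact (Finset.mem_filter.1 hn).2

private theorem q_facts {z Y n b q : ℕ} (hb : b ∣ n)
    (hq : q ∈ (pr z Y).filter (fun q => ¬ q ∣ n)) : P8 q ∧ ¬ q ∣ b := by
  rw [Finset.mem_filter] at hq
  unfold pr at hq
  exact ⟨(Finset.mem_filter.1 hq.1).2, fun h => hq.2 (h.trans hb)⟩

/-- The value at level `i`. -/
private noncomputable def Hl (c : ℕ) (e f L : ZMod 2) (g : ℕ → ℝ) : ℕ → ℕ → ℝ
  | 0 => fun n => if n % 8 = c then g n - Pinf else 0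
  | i + 1 => fun b => (Gf e f L i b - Pinf) / 4

private theorem dv_zero_eq {z n b : ℕ} (hn : n ≠ 0) (hb : b ∈ dv z 0 n) : b = n := by
  unfold dv at hb
  rw [Finset.mem_filter] at hb
  obtain ⟨hbn, _, hc⟩ := hb
  have hdvd := Nat.dvd_of_mem_divisors hbn
  obtain ⟨c, hc'⟩ := hdvd
  have hb0 : b ≠ 0 := by rintro rfl; rw [zero_mul] at hc'; exact hn hc'
  have hdiv : n / b = c := by rw [hc', Nat.mul_div_cancel_left _ (Nat.pos_of_ne_zero hb0)]
  rw [hdiv, Finset.card_eq_zero, Nat.primeFactors_eq_empty] at hc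
  rcases hc with h | h
  · rw [h, mul_zero] at hc'; exact absurd hc' hn
  · rw [h, mul_one] at hc'; exact hc'.symm

/-- one level -/
private theorem level {c : ℕ} {e f L : ZMod 2} {g : ℕ → ℝ} (hd : Dig c e f L g)
    (k : ℕ) (hk : 1 ≤ k) (ε : ℝ) (hε : 0 < ε) (i : ℕ) : ∃ X0 : ℕ, ∀ X : ℕ,
    X0 ≤ X → ∀ z : ℕ, z ^ k ≤ X → X < (z + 1) ^ k → ∀ J : ℕ,
    |BS X z J i (fun b q => Hl c e f L g i (b * q)) -
      BS X z J i (fun b _ => Hl c e f L g (i + 1) b)| ≤
      2 * (ε * ((X : ℝ) / Real.log X) * DD X) := by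
  rcases i with _ | i
  · -- first level
    obtain ⟨v, hv⟩ := hd.hev
    obtain ⟨X0, hX0⟩ := NS k hk ε hε
    refine ⟨X0, fun X hX z hz1 hz2 J => ?_⟩
    set M : ℕ → ℕ → ℝ := fun n b =>
      |∑ q ∈ (pr z (X / n)).filter (fun q => ¬ q ∣ n),
        (ev b (gPh c e f L v b) q - avg b (gPh c e f L v b))| +
      |∑ q ∈ (pr z (X / n)).filter (fun q => ¬ q ∣ n), (ev b (cPh c b) q - avg b (cPh c b))|
      with hM
    have h1 := BS_diff X z J 0 (fun b q => Hl c e f L g 0 (b * q))
      (fun b _ => Hl c e f L g (0 + 1) b) M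
      (fun n b => by positivity) ?_
    · refine h1.trans ?_
      rw [hM]
      simp only [Finset.sum_add_distrib]
      have a1 := hX0 X hX z hz1 hz2 (gPh c e f L v) (gPh_abs c e f L v)
      have a2 := hX0 X hX z hz1 hz2 (cPh c) (cPh_abs c)
      linarith
    · intro n hn b hb
      have hF := mem_facts hn
      have hbn : b = n := dv_zero_eq hF.1.ne_zero hb
      subst hbn
      have h2 : ∀ q ∈ (pr z (X / b)).filter (fun q => ¬ q ∣ b),
          Hl c e f L g 0 (b * q) - Hl c e f L g (0 + 1) b =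
          (ev b (gPh c e f L v b) q - avg b (gPh c e f L v b)) -
            Pinf * (ev b (cPh c b) q - avg b (cPh c b)) := by
        intro q hq
        obtain ⟨hq1, hq2⟩ := q_facts dvd_rfl hq
        rw [gPh_ev hd.hc hv b q hF hq1 hq2, gPh_avg, cPh_ev hd.hc b q hF hq1, cPh_avg]
        have e0 : Hl c e f L g 0 (b * q) = if (b * q) % 8 = c then g (b * q) - Pinf else 0 := rfl
        have e1 : Hl c e f L g (0 + 1) b = (Gf e f L 0 b - Pinf) / 4 := rfl
        rw [e0, e1]
        by_cases h8 : (b * q) % 8 = c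
        · rw [if_pos h8, if_pos h8, if_pos h8]; ring
        · rw [if_neg h8, if_neg h8, if_neg h8]; ring
      rw [Finset.sum_congr rfl h2, Finset.sum_sub_distrib, ← Finset.mul_sum]
      refine (abs_sub _ _).trans ?_
      rw [hM, abs_mul, abs_of_nonneg Pinf01.1]
      have := mul_le_of_le_one_left (abs_nonneg
        (∑ q ∈ (pr z (X / b)).filter (fun q => ¬ q ∣ b),
          (ev b (cPh c b) q - avg b (cPh c b)))) Pinf01.2
      simp only
      linarith
  · -- later levels
    obtain ⟨kf, hkf, hav⟩ := hd.hk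
    obtain ⟨X0, hX0⟩ := NS k hk ε hε
    obtain ⟨X1, hX1⟩ := K0sum kf hkf k hk ε hε
    refine ⟨max X0 X1, fun X hX z hz1 hz2 J => ?_⟩
    set M : ℕ → ℕ → ℝ := fun n b =>
      |∑ q ∈ (pr z (X / n)).filter (fun q => ¬ q ∣ n),
        (ev b (GPh e f L i b) q - avg b (GPh e f L i b))| +
      kf b * ((pr z (X / n)).card : ℝ) with hM
    have hK : ∀ b, 0 ≤ kf b := hkf.1
    have h1 := BS_diff X z J (i + 1) (fun b q => Hl c e f L g (i + 1) (b * q))
      (fun b _ => Hl c e f L g (i + 1 + 1) b) M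
      (fun n b => add_nonneg (abs_nonneg _) (mul_nonneg (hK b) (Nat.cast_nonneg _))) ?_
    · refine h1.trans ?_
      rw [hM]
      simp only [Finset.sum_add_distrib]
      have a1 := hX0 X ((le_max_left _ _).trans hX) z hz1 hz2 (GPh e f L i) (GPh_abs e f L i)
      have a2 := hX1 X ((le_max_right _ _).trans hX) z hz1 hz2
      linarith
    · intro n hn b hb
      have hF := mem_facts hn
      have hbn : b ∣ n := by
        unfold dv at hb
        exact Nat.dvd_of_mem_divisors (Finset.mem_filter.1 hb).1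
      have hFb : F1 b := F1_dvd hF hbn
      set I := (pr z (X / n)).filter (fun q => ¬ q ∣ n) with hI
      have h2 : ∀ q ∈ I, Hl c e f L g (i + 1) (b * q) - Hl c e f L g (i + 1 + 1) b =
          (ev b (GPh e f L i b) q - avg b (GPh e f L i b)) / 4 +
            (avg b (GPh e f L i b) - Gf e f L (i + 1) b) / 4 := by
        intro q hq
        obtain ⟨hq1, hq2⟩ := q_facts hbn hq
        rw [GPh_ev e f L i b q hFb hq1 hq2]
        unfold Hl
        ring
      rw [Finset.sum_congr rfl h2, Finset.sum_add_distrib, ← Finset.sum_div, Finset.sum_const,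
        nsmul_eq_mul]
      refine (abs_add_le _ _).trans ?_
      have h3 := hav i b hFb
      have h4' : (0 : ℝ) < 4 := by norm_num
      have h4 : |(I.card : ℝ) * ((avg b (GPh e f L i b) - Gf e f L (i + 1) b) / 4)| ≤
          kf b * ((pr z (X / n)).card : ℝ) := by
        rw [abs_mul, abs_div, abs_of_nonneg (Nat.cast_nonneg I.card : (0 : ℝ) ≤ I.card),
          abs_of_pos h4', mul_comm]
        have hKb := hK b
        refine mul_le_mul (by linarith) ?_ (Nat.cast_nonneg _) (hK b)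
        exact_mod_cast Finset.card_le_card (Finset.filter_subset _ _)
      have h5 : |(∑ q ∈ I, (ev b (GPh e f L i b) q - avg b (GPh e f L i b))) / 4| ≤
          |∑ q ∈ I, (ev b (GPh e f L i b) q - avg b (GPh e f L i b))| := by
        rw [abs_div, abs_of_pos h4']
        have := abs_nonneg (∑ q ∈ I, (ev b (GPh e f L i b) q - avg b (GPh e f L i b)))
        linarith
      rw [hM]
      simp only
      linarith

/-- one level, normalised -/
private theorem level' {H : ℕ → ℕ → ℝ} {X z J i : ℕ} (hz : 1 ≤ z) (hi : i < J) {δ : ℝ}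
    (h : |BS X z J i (fun b q => H i (b * q)) - BS X z J i (fun b _ => H (i + 1) b)| ≤ δ) :
    |AS X z J i (H i) / (J.choose i) - AS X z J (i + 1) (H (i + 1)) / (J.choose (i + 1))| ≤
      δ := by
  have h1 := AS_expand X z J i hz hi.le (H i)
  have h2 := AS_shift X z J i hz (H (i + 1))
  have hc0 : (0 : ℝ) < J.choose i := by exact_mod_cast Nat.choose_pos hi.le
  have hc1 : (0 : ℝ) < J.choose (i + 1) := by exact_mod_cast Nat.choose_pos hi
  have hJi : (0 : ℝ) < (J : ℝ) - i := by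
    have : (i : ℝ) < J := by exact_mod_cast hi
    linarith
  have hJi1 : (1 : ℝ) ≤ (J : ℝ) - i := by
    have : ((i + 1 : ℕ) : ℝ) ≤ J := by exact_mod_cast hi
    push_cast at this
    linarith
  have hi1 : (0 : ℝ) < (i : ℝ) + 1 := by positivity
  have hrel : (J.choose (i + 1) : ℝ) * ((i : ℝ) + 1) = J.choose i * ((J : ℝ) - i) := by
    have := Nat.choose_succ_right_eq J i
    have h3 : ((J.choose (i + 1) * (i + 1) : ℕ) : ℝ) = ((J.choose i * (J - i) : ℕ) : ℝ) := by
      rw [this]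
    push_cast at h3
    rw [Nat.cast_sub hi.le] at h3
    exact h3
  have e1 : AS X z J i (H i) / (J.choose i) =
      BS X z J i (fun b q => H i (b * q)) / (J.choose i * ((J : ℝ) - i)) := by
    rw [← h1]
    field_simp
  have e2 : AS X z J (i + 1) (H (i + 1)) / (J.choose (i + 1)) =
      BS X z J i (fun b _ => H (i + 1) b) / (J.choose i * ((J : ℝ) - i)) := by
    rw [← h2, ← hrel]
    field_simp
  rw [e1, e2, ← sub_div, abs_div, abs_of_pos (mul_pos hc0 hJi)]
  have hc01 : (1 : ℝ) ≤ J.choose i := by exact_mod_cast Nat.choose_pos hi.le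
  have hge : (1 : ℝ) ≤ J.choose i * ((J : ℝ) - i) := one_le_mul_of_one_le_of_one_le hc01 hJi1
  exact (div_le_self (abs_nonneg _) hge).trans h

theorem asm {c : ℕ} {e f L : ZMod 2} {g : ℕ → ℝ} (hd : Dig c e f L g) (k : ℕ) (hk : 1 ≤ k) (ε : ℝ) (hε : 0 < ε) : ∃ X0 : ℕ, ∀ X : ℕ, X0 ≤ X →
    ∀ z : ℕ, z ^ k ≤ X → X < (z + 1) ^ k → ∀ J : ℕ, 1 ≤ J → J < k →
    |∑ n ∈ (FF X).filter (fun n => big z n = J ∧ n % 8 = c), (g n - Pinf) -
      (∑ n ∈ (FF X).filter (fun n => big z n = J), (Gf e f L (J - 1) (smo z n) - Pinf)) / 4| ≤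
      ε * ((X : ℝ) / Real.log X) * DD X := by
  have hk0 : (0 : ℝ) < k := by exact_mod_cast hk
  set ε' : ℝ := ε / (2 * k) with hε'
  have hε'0 : 0 < ε' := by rw [hε']; positivity
  have hlev := fun i => level hd k hk ε' hε'0 i
  choose X1 hX1 using hlev
  obtain ⟨X2, hX2⟩ : ∃ X2 : ℕ, ∀ i < k, X1 i ≤ X2 :=
    ⟨(Finset.range k).sup X1, fun i hi => Finset.le_sup (Finset.mem_range.2 hi)⟩
  refine ⟨max X2 1, fun X hX z hz1 hz2 J hJ1 hJk => ?_⟩
  have hX1' : 1 ≤ X := (le_max_right _ _).trans hX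
  have hz : 1 ≤ z := by
    rcases Nat.eq_zero_or_pos z with h | h
    · rw [h, zero_add, one_pow] at hz2; omega
    · exact h
  set δ : ℝ := 2 * (ε' * ((X : ℝ) / Real.log X) * DD X) with hδ
  have hstep : ∀ i < J, |AS X z J i (Hl c e f L g i) / (J.choose i) -
      AS X z J (i + 1) (Hl c e f L g (i + 1)) / (J.choose (i + 1))| ≤ δ := by
    intro i hi
    exact level' hz hi (hX1 i X ((hX2 i (by omega)).trans ((le_max_left _ _).trans hX)) z hz1 hz2 J)
  have hind : ∀ i ≤ J, |AS X z J 0 (Hl c e f L g 0) / (J.choose 0) - AS X z J i (Hl c e f L g i) / (J.choose i)| ≤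
      i * δ := by
    intro i
    induction i with
    | zero => intro _; simp
    | succ i ih =>
      intro hi
      have h1 := ih (by omega)
      have h2 := hstep i (by omega)
      have h3 := abs_sub_le (AS X z J 0 (Hl c e f L g 0) / (J.choose 0 : ℝ))
        (AS X z J i (Hl c e f L g i) / (J.choose i : ℝ)) (AS X z J (i + 1) (Hl c e f L g (i + 1)) / (J.choose (i + 1) : ℝ))
      push_cast
      linarith
  have hfin := hind J le_rfl
  have e0 : AS X z J 0 (Hl c e f L g 0) / (J.choose 0 : ℝ) =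
      ∑ n ∈ (FF X).filter (fun n => big z n = J ∧ n % 8 = c), (g n - Pinf) := by
    rw [Nat.choose_zero_right, Nat.cast_one, div_one, AS_zero]
    unfold Hl
    rw [← Finset.sum_filter, Finset.filter_filter]
  have e1 : AS X z J J (Hl c e f L g J) / (J.choose J : ℝ) =
      (∑ n ∈ (FF X).filter (fun n => big z n = J), (Gf e f L (J - 1) (smo z n) - Pinf)) / 4 := by
    obtain ⟨j, rfl⟩ : ∃ j, J = j + 1 := ⟨J - 1, by omega⟩
    rw [Nat.choose_self, Nat.cast_one, div_one, AS_top, Nat.add_sub_cancel]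
    unfold Hl
    rw [Finset.sum_div]
  rw [e0, e1] at hfin
  have hδ0 : 0 ≤ δ := (abs_nonneg _).trans (hstep 0 (by omega))
  calc _ ≤ (J : ℝ) * δ := hfin
    _ ≤ k * δ := by
        refine mul_le_mul_of_nonneg_right ?_ hδ0
        exact_mod_cast hJk.le
    _ = ε * ((X : ℝ) / Real.log X) * DD X := by
        rw [hδ, hε']
        field_simp

end Pool.Agent.TZL
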