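import Pool.Agent.TZL.Defs

set_option autoImplicit false

/-! smooth numbers of the family -/

namespace Pool.Agent.TZL

open Pool.Agent.TLW

open Finset

lemma mem_pr {x y p : ℕ} : p ∈ pr x y ↔ (x < p ∧ p ≤ y) ∧ P8 p := by
  unfold pr
  rw [Finset.mem_filter, Finset.mem_Ioc]

lemma pr_prime {x y p : ℕ} (h : p ∈ pr x y) : p.Prime := (mem_pr.1 h).2.1

/-- product of a finite set of primes of `P8` -/
lemma primeFactors_prod_sub {x y : ℕ} {s : Finset ℕ} (hs : s ⊆ pr x y) :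
    (∏ p ∈ s, p).primeFactors = s :=
  Nat.primeFactors_prod fun _ hp => pr_prime (hs hp)

lemma prod_sub_sqf {x y : ℕ} {s : Finset ℕ} (hs : s ⊆ pr x y) : Squarefree (∏ p ∈ s, p) := by
  refine Finset.squarefree_prod_of_pairwise_isCoprime (fun _ hp _ hq hpq ↦ ?_)
    (fun p hp => (pr_prime (hs hp)).squarefree)
  exact Nat.coprime_iff_isRelPrime.1
    ((Nat.coprime_primes (pr_prime (hs hp)) (pr_prime (hs hq))).2 hpq)

lemma PP_ne_zero (Y : ℕ) : PP Y ≠ 0 := (prod_sub_sqf (Finset.Subset.refl (pr 0 Y))).ne_zero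

lemma mem_PP_divisors_iff_sub (Y a : ℕ) :
    a ∈ (PP Y).divisors ↔ Squarefree a ∧ a.primeFactors ⊆ pr 0 Y := by
  rw [Nat.mem_divisors]
  constructor
  · rintro ⟨h, _⟩
    refine ⟨(prod_sub_sqf (Finset.Subset.refl (pr 0 Y))).squarefree_of_dvd h, ?_⟩
    have h2 := Nat.primeFactors_mono h (PP_ne_zero Y)
    unfold PP at h2
    rwa [primeFactors_prod_sub (Finset.Subset.refl (pr 0 Y))] at h2
  · rintro ⟨h1, h2⟩
    refine ⟨?_, PP_ne_zero Y⟩
    rw [← Nat.prod_primeFactors_of_squarefree h1]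
    exact Finset.prod_dvd_prod_of_subset _ _ _ h2

/-- sums over the divisors of `PP Y` as sums over sets of primes -/
lemma sum_PP (Y : ℕ) (F : ℕ → ℝ) :
    ∑ a ∈ (PP Y).divisors, F a = ∑ s ∈ (pr 0 Y).powerset, F (∏ p ∈ s, p) := by
  refine Finset.sum_bij' (fun a _ => a.primeFactors) (fun s _ => ∏ p ∈ s, p) ?_ ?_ ?_ ?_ ?_
  · intro a ha
    rw [Finset.mem_powerset]
    exact ((mem_PP_divisors_iff_sub Y a).1 ha).2
  · intro s hs
    rw [Finset.mem_powerset] at hs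
    rw [mem_PP_divisors_iff_sub, primeFactors_prod_sub hs]
    exact ⟨prod_sub_sqf hs, hs⟩
  · intro a ha
    exact Nat.prod_primeFactors_of_squarefree ((mem_PP_divisors_iff_sub Y a).1 ha).1
  · intro s hs
    rw [Finset.mem_powerset] at hs
    exact primeFactors_prod_sub hs
  · intro a ha
    rw [Nat.prod_primeFactors_of_squarefree ((mem_PP_divisors_iff_sub Y a).1 ha).1]

lemma inv_prod (s : Finset ℕ) : 1 / ((∏ p ∈ s, p : ℕ) : ℝ) = ∏ p ∈ s, 1 / (p : ℝ) := by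
  push_cast
  rw [Finset.prod_div_distrib, Finset.prod_const_one]

theorem mem_PP_divisors (Y a : ℕ) : a ∈ (PP Y).divisors ↔ F1 a ∧ ∀ p ∈ a.primeFactors, p ≤ Y := by
  rw [mem_PP_divisors_iff_sub]
  constructor
  · rintro ⟨h1, h2⟩
    exact ⟨⟨h1, fun p hp => (mem_pr.1 (h2 hp)).2.2⟩, fun p hp => (mem_pr.1 (h2 hp)).1.2⟩
  · rintro ⟨⟨h1, h2⟩, h3⟩
    refine ⟨h1, fun p hp => ?_⟩
    have hpp := Nat.prime_of_mem_primeFactors hp
    exact mem_pr.2 ⟨⟨hpp.pos, h3 p hp⟩, hpp, h2 p hp⟩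

theorem FF_subset (x : ℕ) : FF x ⊆ (PP x).divisors := by
  intro a ha
  unfold FF at ha
  rw [Finset.mem_filter, Finset.mem_Icc] at ha
  rw [mem_PP_divisors]
  exact ⟨ha.2, fun p hp => (Nat.le_of_mem_primeFactors hp).trans ha.1.2⟩

lemma one_le_factor (p : ℕ) : (1 : ℝ) ≤ 1 + 1 / (p : ℝ) := by
  have : (0 : ℝ) ≤ 1 / (p : ℝ) := by positivity
  linarith

lemma one_le_prod (s : Finset ℕ) : (1 : ℝ) ≤ ∏ p ∈ s, (1 + 1 / (p : ℝ)) := by
  calc (1 : ℝ) = ∏ _p ∈ s, (1 : ℝ) := by rw [Finset.prod_const_one]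
    _ ≤ ∏ p ∈ s, (1 + 1 / (p : ℝ)) :=
      Finset.prod_le_prod (fun _ _ => by norm_num) (fun p _ => one_le_factor p)

theorem one_le_DD (Y : ℕ) : 1 ≤ DD Y := one_le_prod _

lemma pr_disj (z x : ℕ) : Disjoint (pr 0 z) (pr z x) := by
  rw [Finset.disjoint_left]
  intro p hp hq
  rw [mem_pr] at hp hq
  omega

lemma pr_union {z x : ℕ} (hzx : z ≤ x) : pr 0 z ∪ pr z x = pr 0 x := by
  ext p
  rw [Finset.mem_union, mem_pr, mem_pr, mem_pr]
  constructor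
  · rintro (⟨h, h'⟩ | ⟨h, h'⟩)
    · exact ⟨by omega, h'⟩
    · exact ⟨by omega, h'⟩
  · rintro ⟨h, h'⟩
    rcases le_or_gt p z with h2 | h2
    · exact Or.inl ⟨⟨h.1, h2⟩, h'⟩
    · exact Or.inr ⟨⟨h2, h.2⟩, h'⟩

theorem DD_mul {z x : ℕ} (hzx : z ≤ x) : DD x = DD z * ∏ p ∈ pr z x, (1 + 1 / (p : ℝ)) := by
  unfold DD
  rw [← pr_union hzx, Finset.prod_union (pr_disj z x)]

theorem DD_mono {y x : ℕ} (h : y ≤ x) : DD y ≤ DD x := by
  rw [DD_mul h]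
  have h1 := one_le_DD y
  have h2 := one_le_prod (pr y x)
  nlinarith

theorem DD_eq (Y : ℕ) : ∑ a ∈ (PP Y).divisors, 1 / (a : ℝ) = DD Y := by
  rw [sum_PP Y (fun a => 1 / (a : ℝ))]
  unfold DD
  rw [Finset.prod_one_add]
  apply Finset.sum_congr rfl
  intro s _
  exact inv_prod s

theorem sum_FF_le (x : ℕ) : ∑ a ∈ FF x, 1 / (a : ℝ) ≤ DD x := by
  rw [← DD_eq]
  apply Finset.sum_le_sum_of_subset_of_nonneg (FF_subset x)
  intro a _ _
  positivity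

end Pool.Agent.TZL
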