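import Pool.Agent.TZL.Main

set_option autoImplicit false

/-! the criterion: the digit as a coefficient of an explicit determinant over the field with two
elements -/

namespace Pool.Agent.TZL

open Finset Pool.Agent.TLW Polynomial

/-- `det(T Lambda + L)` of the odd squarefree number `m`: rows and columns are the primes of `m`,
`L` is the Laplacian of the matrix of Legendre symbols, `Lambda` the diagonal matrix of the bits
`[p = 3, 5 mod 8]`. -/
noncomputable def Pm (m : ℕ) : (ZMod 2)[X] :=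
  Matrix.det (Matrix.of fun i j : {x // x ∈ m.primeFactors} =>
    if i = j then C (TZB.lam i) * X + ∑ k ∈ univ.erase i, C (TZB.sy i k) else C (TZB.sy i j))

/-- the digit of a discriminant -/
noncomputable def digit (D : ℕ) : ZMod 2 :=
  if D % 8 = 0 then (Pm (D / 8)).eval 1 else
    if D % 32 = 28 then (Pm (D / 4)).coeff 2 else
      if D % 4 = 0 then (Pm (D / 4)).coeff 1 else (Pm D).coeff 1

theorem Pm_eq (m : ℕ) : Pm m = TZB.PT (fun i j : Ix m => TZB.sy (i : ℕ) (j : ℕ))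
    (fun i : Ix m => TZB.lam (i : ℕ)) univ := by
  unfold Pm TZB.PT
  congr 1
  funext i j
  unfold TZB.LD
  rw [Matrix.of_apply, Matrix.of_apply]
  rw [if_pos (⟨Finset.mem_univ _, Finset.mem_univ _⟩ : i ∈ univ ∧ j ∈ univ)]

theorem PT_eval_one {ι : Type*} [Fintype ι] [DecidableEq ι] (R : ι → ι → ZMod 2) (l : ι → ZMod 2)
    (D : Finset ι) : (TZB.PT R l D).eval 1 = TZB.F8 R l D := by
  unfold TZB.PT TZB.F8
  rw [← Polynomial.coe_evalRingHom, RingHom.map_det]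
  congr 1
  ext i j
  unfold TZB.LD
  simp only [RingHom.mapMatrix_apply, Matrix.map_apply, Matrix.of_apply]
  split_ifs <;> simp [Polynomial.eval_finsetSum]

section
variable {m : ℕ}

theorem Min4_dig (hm : F1 m) (h1 : 1 < m) : Min 4 m ↔ (Pm m).coeff 1 = 1 := by
  rw [Pm_eq, TZB.PT_coeff_one]
  have hne : (univ : Finset (Ix m)).Nonempty := by
    obtain ⟨p, hp⟩ : m.primeFactors.Nonempty := Nat.nonempty_primeFactors.2 h1
    exact ⟨⟨p, hp⟩, Finset.mem_univ _⟩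
  have hc : 1 ≤ m.primeFactors.card := by
    rw [← card_univ_Ix]; exact Finset.card_pos.2 hne
  have key := fun (n : ℕ) (hn : 2 ≤ n) => TZB.main4 n (by omega) (fun i : Ix m => (i : ℕ))
    (fun i => F1_P8 hm i) Subtype.val_injective univ hne
  rw [F1_pf_prod hm, card_univ_Ix] at key
  obtain ⟨t, ht⟩ : ∃ t, m.primeFactors.card = t + 1 := ⟨_, (Nat.sub_add_cancel hc).symm⟩
  have h3 : ∀ n : ℕ, 2 ≤ n → (‖((TZB.XX n 4 m : ℚ) : ℚ_[2])‖ =
      2 * (1 / 2 : ℝ) ^ m.primeFactors.card ↔ TZB.F4 (fun i j : Ix m => TZB.sy (i : ℕ) (j : ℕ))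
        (fun i : Ix m => TZB.lam (i : ℕ)) univ = 1) := fun n hn => by
    have h2 := Rd_norm_iff (key n hn)
    have e : ‖((TZB.XX n 4 m / 2 ^ (m.primeFactors.card - 1) : ℚ) : ℚ_[2])‖ =
        ‖((TZB.XX n 4 m : ℚ) : ℚ_[2])‖ / (1 / 2 : ℝ) ^ (m.primeFactors.card - 1) := by
      push_cast
      rw [norm_div, norm_pow, norm_two]
    rw [e, div_eq_iff (by positivity), one_mul] at h2
    refine Iff.trans ?_ h2
    rw [ht, Nat.add_sub_cancel, pow_succ]
    constructor <;> intro h5 <;> linarith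
  constructor
  · intro h; exact (h3 2 le_rfl).1 (h 2 le_rfl)
  · intro h n hn; exact (h3 n hn).2 h

theorem Min8_dig (hm : F1 m) : Min 8 m ↔ (Pm m).eval 1 = 1 := by
  rw [Pm_eq, PT_eval_one]
  have key := fun (n : ℕ) (hn : 2 ≤ n) => TZB.main8 n (by omega) (fun i : Ix m => (i : ℕ))
    (fun i => F1_P8 hm i) Subtype.val_injective univ
  rw [F1_pf_prod hm, card_univ_Ix] at key
  have h3 : ∀ n : ℕ, 2 ≤ n → (‖((TZB.XX n 8 m : ℚ) : ℚ_[2])‖ =
      2 * (1 / 2 : ℝ) ^ m.primeFactors.card ↔ TZB.F8 (fun i j : Ix m => TZB.sy (i : ℕ) (j : ℕ))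
        (fun i : Ix m => TZB.lam (i : ℕ)) univ = 1) := fun n hn => by
    have h2 := Rd_norm_iff (key n hn)
    have e : ‖((2 * TZB.XX n 8 m / 2 ^ m.primeFactors.card : ℚ) : ℚ_[2])‖ =
        1 / 2 * ‖((TZB.XX n 8 m : ℚ) : ℚ_[2])‖ / (1 / 2 : ℝ) ^ m.primeFactors.card := by
      push_cast
      rw [norm_div, norm_mul, norm_pow, norm_two]
    rw [e, div_eq_iff (by positivity), one_mul] at h2
    refine Iff.trans ?_ h2
    constructor <;> intro h5 <;> linarith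
  constructor
  · intro h; exact (h3 2 le_rfl).1 (h 2 le_rfl)
  · intro h n hn; exact (h3 n hn).2 h

theorem MinZ_dig (hm : F1 m) (h7 : m % 8 = 7) : MinZ m ↔ (Pm m).coeff 2 = 1 := by
  have e0 : (Pm m).coeff 2 = TZB.F5 (fun i j : Ix m => TZB.sy (i : ℕ) (j : ℕ))
    (fun i : Ix m => TZB.lam (i : ℕ)) univ := by rw [Pm_eq]; rfl
  rw [e0]
  have hne : (univ : Finset (Ix m)).Nonempty := by
    obtain ⟨p, hp⟩ : m.primeFactors.Nonempty := Nat.nonempty_primeFactors.2 (by omega)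
    exact ⟨⟨p, hp⟩, Finset.mem_univ _⟩
  have key := fun (n : ℕ) (hn : 2 ≤ n) => TZB.main5 n hn (fun i : Ix m => (i : ℕ))
    (fun i => F1_P8 hm i) Subtype.val_injective univ hne
  rw [F1_pf_prod hm, card_univ_Ix] at key
  have h3 : ∀ n : ℕ, 2 ≤ n → (‖((TZB.XX n 4 m : ℚ) : ℚ_[2])‖ =
      ‖(n : ℚ_[2]) - 1‖ * (1 / 2 : ℝ) ^ m.primeFactors.card ↔
        TZB.F5 (fun i j : Ix m => TZB.sy (i : ℕ) (j : ℕ))
        (fun i : Ix m => TZB.lam (i : ℕ)) univ = 1) := fun n hn => by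
    have h2 := Rd_norm_iff (key n hn)
    have hn1 : ((n : ℚ) - 1) ≠ 0 := by
      have : (2 : ℚ) ≤ n := by exact_mod_cast hn
      intro h0; linarith
    have hn2 : ‖(n : ℚ_[2]) - 1‖ ≠ 0 := by
      rw [norm_ne_zero_iff]
      have : (((n : ℚ) - 1 : ℚ) : ℚ_[2]) ≠ 0 := by exact_mod_cast hn1
      push_cast at this
      exact this
    have e1 : 4 * ((TZB.XX n 4 m - TZB.XX 1 4 m) / (4 * ((n : ℚ) - 1))) /
        2 ^ m.primeFactors.card =
        TZB.XX n 4 m / (((n : ℚ) - 1) * 2 ^ m.primeFactors.card) := by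
      rw [TZB.XX_one_zero _ h7, sub_zero]
      field_simp
    have e : ‖((4 * ((TZB.XX n 4 m - TZB.XX 1 4 m) / (4 * ((n : ℚ) - 1))) /
        2 ^ m.primeFactors.card : ℚ) : ℚ_[2])‖ =
        ‖((TZB.XX n 4 m : ℚ) : ℚ_[2])‖ / (‖(n : ℚ_[2]) - 1‖ *
          (1 / 2 : ℝ) ^ m.primeFactors.card) := by
      rw [e1]
      push_cast
      rw [norm_div, norm_mul, norm_pow, norm_two]
    rw [e, div_eq_iff (by positivity), one_mul] at h2
    exact h2
  constructor
  · intro h; exact (h3 2 le_rfl).1 (h 2 le_rfl)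
  · intro h n hn; exact (h3 n hn).2 h

end

theorem MinD_dig {D : ℕ} (hD : TZB.RealDisc D) : MinD D ↔ digit D = 1 := by
  unfold MinD digit
  rcases disc_cases hD with ⟨h8, h28, hF, hDe, hX⟩ | ⟨h8, h28, hF, hDe, h7, h1, hX⟩ |
    ⟨h8, h28, h4, hF, hDe, h1, hX⟩ | ⟨h8, h28, h4, hF, hX⟩
  · rw [if_pos h8, if_pos h8]; exact Min8_dig hF
  · rw [if_neg h8, if_neg h8, if_pos h28, if_pos h28]; exact MinZ_dig hF h7
  · rw [if_neg h8, if_neg h8, if_neg h28, if_neg h28, if_pos h4, if_pos h4]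
    exact Min4_dig hF h1
  · rw [if_neg h8, if_neg h8, if_neg h28, if_neg h28, if_neg h4, if_neg h4]
    exact Min4_dig hF hD.1

/-- The criterion. -/
theorem crit {D : ℕ} (hD : TZB.RealDisc D) : ∃ L, TZB.IsL2 D L ∧ (∀ L', TZB.IsL2 D L' → L' = L) ∧
    ((digit D = 1 ∧ Generic D L) ∨ (digit D = 0 ∧ Exceptional D L)) := by
  obtain ⟨L, hL⟩ := TZB.exists_L2 D hD
  refine ⟨L, hL, fun L' hL' => TZB.unique_L2 D L' L hL' hL, ?_⟩
  rcases dichotomy hD hL with h | h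
  · exact Or.inl ⟨(MinD_dig hD).1 h.1, h.2⟩
  · refine Or.inr ⟨?_, h.2⟩
    have h1 : digit D ≠ 1 := fun h2 => h.1 ((MinD_dig hD).2 h2)
    rcases TRL.zmod2_cases (digit D) with h3 | h3
    · exact h3
    · exact absurd h3 h1

end Pool.Agent.TZL
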