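import Pool.Agent.TLW.Defs

set_option autoImplicit false

/-!
# TZL / MP_b20a3c_nt: the law of the Rédei digits of all odd squarefree numbers. Definitions.

The linear algebra data (`MM`, `CC`, `crk`, `kerN`, `hJ`, `exR`, `exv`, `Recip`, `Pinf`) and the
symbols (`sy`, `Ix`, `Ra`, `wq`, `Ph`, `avg`, `smo`, `big`, `Rgh`, `sg`) are those of `TLW.Defs`.
-/

namespace Pool.Agent.TZL

open Finset Pool.Agent.TLW

/-! ### Linear algebra over the field with two elements -/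

section
variable {ι : Type*} [Fintype ι] [DecidableEq ι]

/-- the last row -/
def rr (e f : ZMod 2) (s l : ι → ZMod 2) : ι → ZMod 2 := fun i => e * s i + f * l i

/-- mean number of kernel vectors of `MM R u` -/
noncomputable def KM (R : ι → ι → ZMod 2) : ℝ :=
  (∑ u : ι → ZMod 2, (kerN (MM R u) : ℝ)) / 2 ^ Fintype.card ι

/-- mean of `hJ J (corank CC)` over `u` -/
noncomputable def GLv (J : ℕ) (R : ι → ι → ZMod 2) (r l : ι → ZMod 2) (L : ZMod 2) : ℝ :=
  (∑ u : ι → ZMod 2, hJ J (crk (CC R r l u L))) / 2 ^ Fintype.card ι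

end

/-! ### Arithmetic -/

/-- odd primes -/
def P8 (p : ℕ) : Prop := p.Prime ∧ p % 2 = 1

instance : DecidablePred P8 := fun _ => inferInstanceAs (Decidable (_ ∧ _))

/-- odd squarefree numbers -/
def F1 (a : ℕ) : Prop := Squarefree a ∧ ∀ p ∈ a.primeFactors, p % 2 = 1

instance : DecidablePred F1 := fun _ => inferInstanceAs (Decidable (_ ∧ _))

/-- class bit: `q = 3 mod 4` -/
def nn (q : ℕ) : ZMod 2 := if q % 4 = 3 then 1 else 0

/-- class bit: `q = 3, 5 mod 8` -/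
def lam (q : ℕ) : ZMod 2 := if q % 8 = 3 ∨ q % 8 = 5 then 1 else 0

/-- class vectors of `a` -/
def sa (a : ℕ) : Ix a → ZMod 2 := fun i => nn i

/-- class vectors of `a` -/
def la (a : ℕ) : Ix a → ZMod 2 := fun i => lam i

/-- `K(a)` -/
noncomputable def Kf (a : ℕ) : ℝ := 2 * KM (Ra a)

/-- `K0(a)` -/
noncomputable def K0f (a : ℕ) : ℝ := K0 (Ra a) (sa a)

/-- `G_J(a)` -/
noncomputable def Gf (e f L : ZMod 2) (J a : ℕ) : ℝ := GLv J (Ra a) (rr e f (sa a) (la a)) (la a) L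

/-- value at the prime `q` -/
def ev (a : ℕ) (f : Ph a) (q : ℕ) : ℝ := f (wq a q) (nn q) (lam q)

/-- odd primes in `(x, y]` -/
def pr (x y : ℕ) : Finset ℕ := (Ioc x y).filter P8

/-- character sum over a set of primes -/
noncomputable def SS (I : Finset ℕ) (ρ : ℕ → ℝ) (d : ℕ) (i j : ZMod 2) : ℝ :=
  ∑ q ∈ I, ρ q * (jacobiSym (q : ℤ) d : ℝ) * sg (i * nn q + j * lam q)

/-- product of the odd primes up to `Y` -/
def PP (Y : ℕ) : ℕ := ∏ p ∈ pr 0 Y, p

/-- numbers up to `x` in `F1` -/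
def FF (x : ℕ) : Finset ℕ := (Icc 1 x).filter F1

/-- yardstick: `prod_{p <= Y} (1 + 1/p)` -/
noncomputable def DD (Y : ℕ) : ℝ := ∏ p ∈ pr 0 Y, (1 + 1 / (p : ℝ))

end Pool.Agent.TZL
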