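import Mathlib
import Pool.Agent.TZL.FM1

set_option autoImplicit false

/-!
# Reciprocity, Euler products over the odd primes and over the primes `1 mod 4` (port of `C1M/FM4`, `FM7`)
-/

namespace Pool.Agent.TZF

open Finset Pool.Agent.HyperWeil Pool.Agent.C1M

lemma P8_subset_PR (z : ℕ) : P8 z ⊆ PR z := by
  intro p hp
  rw [mem_P8] at hp
  exact mem_PR.mpr ⟨hp.1, hp.2.1⟩

lemma sum_P8_psi (z : ℕ) (D : ℤ) :
    ∑ p ∈ P8 z, (psi D p : ℝ) / p = ∑ p ∈ PR z, (psi D p : ℝ) / p := by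
  refine Finset.sum_subset (P8_subset_PR z) fun p hp hpn => ?_
  rw [mem_PR] at hp
  have h2 : ¬ p % 2 = 1 := fun h => hpn (mem_P8.mpr ⟨hp.1, hp.2, h⟩)
  have e : psi D p = 0 := if_neg h2
  rw [e]
  simp

lemma EP_le_QQ (z : ℕ) (D : ℤ) : EP z D ≤ QQ z := by
  unfold EP QQ
  refine Finset.prod_le_prod (fun p _ => ?_) (fun p _ => ?_)
  · have h4 := psi_ge D p
    have h5 := cc_le_one p
    have h6 := cc_nonneg p
    nlinarith
  · have h4 := psi_le' D p
    have h6 := cc_nonneg p
    nlinarith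

lemma sum_P8_psi_le {D : ℤ} (hD : Squarefree D) (h1 : D.natAbs ≠ 1) (z : ℕ) :
    ∑ p ∈ P8 z, (psi D p : ℝ) / p ≤ Real.log (3 + Real.log (8 * D.natAbs : ℕ)) + 20 ∧
    ∑ p ∈ (P8 z).filter (fun p => p % 4 = 1), (psi D p : ℝ) / p
      ≤ Real.log (3 + Real.log (8 * D.natAbs : ℕ)) + 20 := by
  have hD0 : D ≠ 0 := hD.ne_zero
  have hDa : 0 < D.natAbs := Int.natAbs_pos.mpr hD0
  have hlq0 : 0 ≤ Real.log (8 * D.natAbs : ℕ) := Real.log_natCast_nonneg _
  set A := 3 + Real.log (8 * D.natAbs : ℕ) with hA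
  -- the bound for both twists
  have key : ∀ E : ℤ, E.natAbs = D.natAbs →
      ∑ p ∈ PR z, (psi E p : ℝ) / p ≤ Real.log A + 20 := by
    intro E hE
    have hsq : Squarefree E := by
      rw [← Int.squarefree_natAbs, hE, Int.squarefree_natAbs]; exact hD
    have hne1 : E.natAbs ≠ 1 := by rw [hE]; exact h1
    have h2 := sum_psi_div_le hsq.ne_zero (not_isSquare_of_squarefree hsq hne1) z
    refine h2.trans ?_
    rw [hE]
    have h3 : Real.log (4 * D.natAbs : ℕ) ≤ Real.log (8 * D.natAbs : ℕ) := by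
      apply Real.log_le_log
      · exact_mod_cast (by omega : 0 < 4 * D.natAbs)
      · exact_mod_cast (by omega : 4 * D.natAbs ≤ 8 * D.natAbs)
    have h4 : 0 ≤ Real.log (4 * D.natAbs : ℕ) := Real.log_natCast_nonneg _
    have h5 : Real.log (3 + Real.log (4 * D.natAbs : ℕ)) ≤ Real.log A :=
      Real.log_le_log (by linarith) (by linarith)
    linarith
  have k1 := key D rfl
  have k2 := key (-1 * D) (by rw [neg_one_mul, Int.natAbs_neg])
  constructor
  · rw [sum_P8_psi]
    exact k1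
  · have hsub : (P8 z).filter (fun p => p % 4 = 1) ⊆ PR z :=
      (Finset.filter_subset _ _).trans (P8_subset_PR z)
    have h2 : ∑ p ∈ (P8 z).filter (fun p => p % 4 = 1), (psi D p : ℝ) / p
        = (1 / 2) * (∑ p ∈ PR z, (psi D p : ℝ) / p + ∑ p ∈ PR z, (psi (-1 * D) p : ℝ) / p) := by
      rw [← Finset.sum_add_distrib, Finset.mul_sum]
      rw [← Finset.sum_subset hsub]
      · refine Finset.sum_congr rfl fun p hp => ?_
        rw [mem_filter] at hp
        have h1 := odd_of_mem_P8 hp.1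
        have e1 : psi (-1) p = 1 := by
          unfold psi
          rw [if_pos h1, jacobiSym.at_neg_one (Nat.odd_iff.mpr h1),
            ZMod.χ₄_nat_one_mod_four hp.2]
        rw [psi_mul_left, e1]
        push_cast
        ring
      · intro p hp hpn
        rw [mem_PR] at hp
        by_cases h2 : p % 2 = 1
        · have hn1 : p % 4 ≠ 1 := by
            intro h
            exact hpn (mem_filter.mpr ⟨mem_P8.mpr ⟨hp.1, hp.2, h2⟩, h⟩)
          have e1 : psi (-1) p = -1 := by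
            unfold psi
            rw [if_pos h2, jacobiSym.at_neg_one (Nat.odd_iff.mpr h2)]
            exact ZMod.χ₄_nat_three_mod_four (by omega)
          rw [psi_mul_left, e1]
          push_cast
          ring
        · have e : ∀ E : ℤ, psi E p = 0 := fun E => if_neg h2
          rw [e, e]
          simp
    rw [h2]
    linarith

/-- Euler product bound for both sets of primes. -/
theorem EPs_le {D : ℤ} (hD : Squarefree D) (h1 : D.natAbs ≠ 1) (z : ℕ)
    {P : Finset ℕ} (hP : P = P8 z ∨ P = (P8 z).filter (fun p => p % 4 = 1)) :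
    EPs P D ≤ Real.exp 11 * (3 + Real.log (8 * D.natAbs : ℕ)) ^ ((1 : ℝ) / 2) := by
  have hlq0 : 0 ≤ Real.log (8 * D.natAbs : ℕ) := Real.log_natCast_nonneg _
  set A := 3 + Real.log (8 * D.natAbs : ℕ) with hA
  have hA0 : 0 < A := by linarith
  have hsub : P ⊆ P8 z := by
    rcases hP with h | h
    · rw [h]
    · rw [h]; exact Finset.filter_subset _ _
  have hPp : ∀ p ∈ P, p.Prime := fun p hp => (mem_P8.mp (hsub hp)).2.1
  have h2 := EPs_le_exp hPp D (hsub.trans (P8_subset_PR z))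
  have h3 : ∑ p ∈ P, (psi D p : ℝ) / p ≤ Real.log A + 20 := by
    rcases hP with h | h
    · rw [h]; exact (sum_P8_psi_le hD h1 z).1
    · rw [h]; exact (sum_P8_psi_le hD h1 z).2
  calc EPs P D ≤ Real.exp ((1 / 2) * ∑ p ∈ P, (psi D p : ℝ) / p + 1 / 2) := h2
    _ ≤ Real.exp ((1 / 2) * Real.log A + 11) := Real.exp_le_exp.mpr (by linarith)
    _ = Real.exp 11 * A ^ ((1 : ℝ) / 2) := by
        rw [Real.exp_add, Real.rpow_def_of_pos hA0]
        ring_nf

/-! ### Reciprocity -/

lemma pr_odd {z : ℕ} {U : Finset ℕ} (hU : U ⊆ P8 z) : pr U % 2 = 1 := by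
  unfold pr
  rw [← Nat.odd_iff]
  induction U using Finset.induction_on with
  | empty => simp
  | insert a s ha ih =>
    rw [Finset.prod_insert ha]
    refine Odd.mul ?_ (ih fun p hp => hU (Finset.mem_insert_of_mem hp))
    rw [Nat.odd_iff]
    exact odd_of_mem_P8 (hU (Finset.mem_insert_self _ _))

lemma reciprocity {z : ℕ} {T U : Finset ℕ} (hT : T ⊆ P8 z) (hU : U ⊆ P8 z) :
    psi (pr T : ℤ) (pr U) = psi (fs U) (pr T) := by
  have hTo := pr_odd hT
  have hUo := pr_odd hU
  unfold psi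
  rw [if_pos hUo, if_pos hTo]
  rw [jacobiSym.quadratic_reciprocity (Nat.odd_iff.mpr hTo) (Nat.odd_iff.mpr hUo)]
  unfold fs
  split_ifs with h
  · have : Even (pr U / 2) := by
      rw [Nat.even_iff]; omega
    rw [(this.mul_left (pr T / 2)).neg_one_pow, one_mul]
  · have hodd : Odd (pr U / 2) := by
      rw [Nat.odd_iff]; omega
    rw [show -((pr U : ℕ) : ℤ) = -1 * ((pr U : ℕ) : ℤ) by ring, jacobiSym.mul_left,
      jacobiSym.at_neg_one (Nat.odd_iff.mpr hTo)]
    congr 1
    rw [ZMod.χ₄_eq_neg_one_pow hTo, mul_comm, pow_mul, hodd.neg_one_pow]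

end Pool.Agent.TZF
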