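import Mathlib
import Pool.Agent.TZL.FM10

set_option autoImplicit false

/-!
# Growth of the Euler products (port of `C1M/FM11`)
-/

namespace Pool.Agent.TZF

open Finset Filter Topology Pool.Agent.C1M

/-- the product over the primes `3` modulo `4` -/
noncomputable def Q7 (z : ℕ) : ℝ := ∏ p ∈ (P8 z).filter (fun p => ¬ p % 4 = 1), (1 + cc p)

noncomputable def Q1 (z : ℕ) : ℝ := ∏ p ∈ (P8 z).filter (fun p => p % 4 = 1), (1 + cc p)

lemma Q1_mul_Q7 (z : ℕ) : Q1 z * Q7 z = QQ z := by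
  unfold Q1 Q7 QQ
  rw [Finset.prod_filter_mul_prod_filter_not]

lemma Q7_lower : ∃ C : ℝ, ∀ z : ℕ, 3 ≤ z →
    Real.exp ((1 / 10) * Real.log (Real.log z) - C) ≤ Q7 z := by
  obtain ⟨C, hC⟩ := Pool.Agent.C1M.Q7_lower
  refine ⟨C, fun z hz => (hC z hz).trans ?_⟩
  unfold Q7 Pool.Agent.C1M.Q7
  rw [Finset.prod_one_add, Finset.prod_one_add]
  refine Finset.sum_le_sum_of_subset_of_nonneg (Finset.powerset_mono.mpr ?_)
    fun U _ _ => Finset.prod_nonneg fun p _ => cc_nonneg p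
  intro p hp
  rw [Pool.Agent.C1M.mem_P7] at hp
  rw [mem_filter, mem_P8]
  exact ⟨⟨hp.1, hp.2.1, by omega⟩, by omega⟩

lemma one_le_Q1 (z : ℕ) : 1 ≤ Q1 z := by
  unfold Q1
  rw [Finset.prod_one_add]
  have : ∏ p ∈ (∅ : Finset ℕ), cc p ≤ ∑ t ∈ ((P8 z).filter (fun p => p % 4 = 1)).powerset, ∏ i ∈ t, cc i :=
    Finset.single_le_sum (f := fun t => ∏ i ∈ t, cc i)
      (fun t _ => Finset.prod_nonneg fun p _ => cc_nonneg p) (Finset.empty_mem_powerset _)
  simpa using this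

/-- Growth: the double sum is negligible. -/
lemma growth (C : ℝ) (hC : 0 ≤ C) (ε : ℝ) (hε : 0 < ε) : ∃ z0 : ℕ, 3 ≤ z0 ∧ ∀ z : ℕ, z0 ≤ z →
    Q1 z + C * (1 + Real.log (Real.log z)) ^ 2 ≤ ε * QQ z := by
  obtain ⟨C7, h7⟩ := Q7_lower
  -- a function of `L = log log z`
  have hlim : Tendsto (fun L : ℝ => Real.exp ((1 / 10) * L - C7)) atTop atTop := by
    apply Real.tendsto_exp_atTop.comp
    have := (tendsto_id (α := ℝ) (x := atTop)).const_mul_atTop (show (0 : ℝ) < 1 / 10 by norm_num)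
    exact tendsto_atTop_add_const_right _ _ this
  have h1 : ∀ᶠ L : ℝ in atTop, 2 / ε ≤ Real.exp ((1 / 10) * L - C7) :=
    hlim.eventually_ge_atTop _
  have h2 : ∀ᶠ L : ℝ in atTop, (2 * C / ε) * (1 + L) ^ 2 ≤ Real.exp ((1 / 10) * L - C7) := by
    have ho := isLittleO_pow_exp_pos_mul_atTop 2 (show (0 : ℝ) < 1 / 10 by norm_num)
    have hpos : 0 < Real.exp (-(1 / 10) - C7) / (2 * C / ε + 1) := by positivity
    have h3 := ho.bound hpos
    have h4 : Tendsto (fun L : ℝ => 1 + L) atTop atTop := tendsto_atTop_add_const_left _ _ tendsto_id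
    filter_upwards [h4.eventually h3] with L hL
    rw [Real.norm_eq_abs, Real.norm_eq_abs, abs_of_nonneg (sq_nonneg _),
      abs_of_pos (Real.exp_pos _)] at hL
    have hk : 0 ≤ 2 * C / ε := by positivity
    calc (2 * C / ε) * (1 + L) ^ 2 ≤ (2 * C / ε + 1) * (1 + L) ^ 2 := by
          have := sq_nonneg (1 + L); nlinarith
      _ ≤ (2 * C / ε + 1) * (Real.exp (-(1 / 10) - C7) / (2 * C / ε + 1) *
          Real.exp (1 / 10 * (1 + L))) := by gcongr
      _ = Real.exp (-(1 / 10) - C7) * Real.exp (1 / 10 * (1 + L)) := by field_simp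
      _ = Real.exp ((1 / 10) * L - C7) := by rw [← Real.exp_add]; congr 1; ring
  have hLL : Tendsto (fun z : ℕ => Real.log (Real.log (z : ℝ))) atTop atTop :=
    Real.tendsto_log_atTop.comp (Real.tendsto_log_atTop.comp tendsto_natCast_atTop_atTop)
  obtain ⟨N, hN⟩ := eventually_atTop.mp (hLL.eventually (h1.and h2))
  refine ⟨max N 3, le_max_right _ _, fun z hz => ?_⟩
  obtain ⟨g1, g2⟩ := hN z ((le_max_left _ _).trans hz)
  have hz3 : 3 ≤ z := (le_max_right _ _).trans hz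
  have g3 := h7 z hz3
  have hQ1 := one_le_Q1 z
  have g4 : 2 / ε ≤ Q7 z := g1.trans g3
  have g5 : (2 * C / ε) * (1 + Real.log (Real.log z)) ^ 2 ≤ Q7 z := g2.trans g3
  rw [← Q1_mul_Q7]
  have g6 : Q1 z ≤ (ε / 2) * (Q1 z * Q7 z) := by
    have : 1 ≤ (ε / 2) * Q7 z := by
      have h := mul_le_mul_of_nonneg_left g4 (show 0 ≤ ε / 2 by positivity)
      have e : ε / 2 * (2 / ε) = 1 := by field_simp
      linarith
    nlinarith
  have g7 : C * (1 + Real.log (Real.log z)) ^ 2 ≤ (ε / 2) * (Q1 z * Q7 z) := by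
    have h := mul_le_mul_of_nonneg_left g5 (show 0 ≤ ε / 2 by positivity)
    have e : ε / 2 * ((2 * C / ε) * (1 + Real.log (Real.log z)) ^ 2)
        = C * (1 + Real.log (Real.log z)) ^ 2 := by field_simp
    rw [e] at h
    have h8 : 0 ≤ ε / 2 * Q7 z := by
      have : 0 ≤ Q7 z := le_trans (by positivity) g4
      positivity
    nlinarith
  linarith

end Pool.Agent.TZF
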