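import Mathlib
import Pool.Agent.TZL.FM11

set_option autoImplicit false

/-!
# The double sum with the twist by `(2/.)` (for the even discriminants)
-/

namespace Pool.Agent.TZF

open Finset Pool.Agent.HyperWeil Pool.Agent.C1M

/-- The twisted summand. -/
noncomputable def ab (T U : Finset ℕ) : ℝ := cw T * cw U * (psi (2 * (pr T : ℤ)) (pr U) : ℝ)

lemma abs_ab_le (T U : Finset ℕ) : |ab T U| ≤ cw T * cw U := by
  unfold ab
  rw [abs_mul, abs_of_nonneg (mul_nonneg (cw_nonneg T) (cw_nonneg U))]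
  calc cw T * cw U * |(psi (2 * (pr T : ℤ)) (pr U) : ℝ)| ≤ cw T * cw U * 1 :=
        mul_le_mul_of_nonneg_left (abs_psi_real _ _) (mul_nonneg (cw_nonneg T) (cw_nonneg U))
    _ = _ := mul_one _

lemma abs_sum_ab_le (G F : Finset (Finset ℕ)) :
    |∑ T ∈ G, ∑ U ∈ F, ab T U| ≤ (∑ T ∈ G, cw T) * ∑ U ∈ F, cw U := by
  rw [Finset.sum_mul_sum]
  refine (Finset.abs_sum_le_sum_abs _ _).trans (Finset.sum_le_sum fun T _ => ?_)
  refine (Finset.abs_sum_le_sum_abs _ _).trans (Finset.sum_le_sum fun U _ => abs_ab_le T U)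

/-- The double sum over nonempty sets. -/
noncomputable def RE (z : ℕ) (P : Finset ℕ) : ℝ := ∑ T ∈ NE P, ∑ U ∈ NE (P8 z), ab T U

lemma pr_sq_two {z : ℕ} {T : Finset ℕ} (hT : T ⊆ P8 z) : Squarefree (2 * (pr T : ℤ)) := by
  have hTp : ∀ p ∈ T, p.Prime := fun p hp => (mem_P8.mp (hT hp)).2.1
  have h1 : Squarefree (2 * pr T) := by
    rw [Nat.squarefree_mul]
    · exact ⟨Nat.prime_two.squarefree, pr_squarefree hTp⟩
    · rw [Nat.coprime_two_left, Nat.odd_iff]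
      exact pr_odd hT
  rw [← Int.squarefree_natAbs, Int.natAbs_mul]
  simpa using h1

/-- Euler product bound in the range `d ≤ W`. -/
lemma EPs_le_W2 {z : ℕ} {P : Finset ℕ} (hP : P = P8 z ∨ P = (P8 z).filter (fun p => p % 4 = 1))
    {D : ℤ} (h1 : Squarefree D) (h2 : D.natAbs ≠ 1) {W : ℕ} (hW : D.natAbs ≤ 2 * W) :
    |EPs P D - 1| ≤ Real.exp 11 * (3 + Real.log (16 * W : ℕ)) := by
  have h4 := EPs_le h1 h2 z hP
  have h0 : 0 < D.natAbs := Int.natAbs_pos.mpr h1.ne_zero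
  have h5 : Real.log (8 * D.natAbs : ℕ) ≤ Real.log (16 * W : ℕ) := by
    apply Real.log_le_log
    · exact_mod_cast (by omega : 0 < 8 * D.natAbs)
    · exact_mod_cast (by omega : 8 * D.natAbs ≤ 16 * W)
  have h6 : 0 ≤ Real.log (8 * D.natAbs : ℕ) := Real.log_natCast_nonneg _
  set A := 3 + Real.log (8 * D.natAbs : ℕ) with hA
  have hA1 : 1 ≤ A := by linarith
  have h7 : A ^ ((1 : ℝ) / 2) ≤ A := by
    calc A ^ ((1 : ℝ) / 2) ≤ A ^ (1 : ℝ) := Real.rpow_le_rpow_of_exponent_le hA1 (by norm_num)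
      _ = A := Real.rpow_one A
  have h8 : EPs P D ≤ Real.exp 11 * (3 + Real.log (16 * W : ℕ)) := by
    refine h4.trans ?_
    refine mul_le_mul_of_nonneg_left ?_ (Real.exp_pos _).le
    linarith
  have h9 := EPs_nonneg P D
  have h10 : 1 ≤ Real.exp 11 := Real.one_le_exp (by norm_num)
  have h11 : 1 ≤ Real.exp 11 * (3 + Real.log (16 * W : ℕ)) := by nlinarith
  rw [abs_le]
  constructor <;> linarith

/-- The bilinear bound for families of sets with general weights. -/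
lemma bil3 {P : Finset ℕ} (hP : ∀ p ∈ P, p.Prime) {G F : Finset (Finset ℕ)}
    (hF : ∀ U ∈ F, U ⊆ P) (ep : Finset ℕ → ℤ) (w : Finset ℕ → ℝ)
    {A D : ℕ} (hD1 : 1 ≤ D) (hDA : D ≤ A)
    (hinj : ∀ T ∈ G, ∀ T' ∈ G, ep T = ep T' → T = T') (hsq : ∀ T ∈ G, Squarefree (ep T))
    (hle : ∀ T ∈ G, (ep T).natAbs ≤ 2 * D) (hcard : G.card ≤ 2 * D) (hw : ∀ T ∈ G, |w T| ≤ 1 / D)
    (hFA : ∀ U ∈ F, A ≤ pr U ∧ pr U < 2 * A) :
    |∑ T ∈ G, w T * BB F (ep T)| ^ 6 * D ≤ 1280 * (∏ p ∈ P, (1 + 1 / (p : ℝ))) ^ 4 := by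
  classical
  set w' : ℤ → ℝ := fun e => ∑ T ∈ G, if ep T = e then w T else 0 with hw'
  have hwe : ∀ T ∈ G, w' (ep T) = w T := by
    intro T hT
    simp only [hw']
    rw [Finset.sum_eq_single T]
    · rw [if_pos rfl]
    · intro T' hT' hne
      rw [if_neg]
      intro h
      exact hne (hinj T' hT' T hT h)
    · intro h; exact absurd hT h
  have hsum : ∑ T ∈ G, w T * BB F (ep T) = ∑ e ∈ G.image ep, w' e * BB F e := by
    rw [Finset.sum_image hinj]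
    refine Finset.sum_congr rfl fun T hT => ?_
    rw [hwe T hT]
  rw [hsum]
  refine bil hP hF hD1 hDA (fun U hU => (hFA U hU).1) (fun U hU => (hFA U hU).2.le)
    (G.image ep) ?_ ?_ ?_ w' ?_
  · intro e he
    obtain ⟨T, hT, rfl⟩ := Finset.mem_image.mp he
    exact hsq T hT
  · intro e he
    obtain ⟨T, hT, rfl⟩ := Finset.mem_image.mp he
    exact hle T hT
  · rw [Finset.card_image_of_injOn hinj]
    exact hcard
  · intro e he
    obtain ⟨T, hT, rfl⟩ := Finset.mem_image.mp he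
    rw [hwe T hT]
    exact hw T hT

lemma card_blk_le {z : ℕ} {G : Finset (Finset ℕ)} {i : ℕ} (hG : ∀ T ∈ G, ∀ p ∈ T, p.Prime) :
    (blk G i).card ≤ 2 ^ i := by
  have hGb := mem_blk_bounds (i := i) hG
  have hGp : ∀ T ∈ blk G i, ∀ p ∈ T, p.Prime := fun T hT => hG T (Finset.mem_filter.mp hT).1
  have h1 : (blk G i).card = ((blk G i).image pr).card := by
    rw [Finset.card_image_of_injOn]
    intro T hT T' hT' h
    exact pr_injOn (hGp T hT) (hGp T' hT') h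
  rw [h1]
  have h2 : (blk G i).image pr ⊆ Ico (2 ^ i) (2 * 2 ^ i) := by
    intro n hn
    obtain ⟨T, hT, rfl⟩ := Finset.mem_image.mp hn
    rw [mem_Ico]; exact hGb T hT
  refine (Finset.card_le_card h2).trans ?_
  rw [Nat.card_Ico]; omega

/-- The block sums are small. -/
lemma block_bound2 {z : ℕ} {G F : Finset (Finset ℕ)} (hG : ∀ T ∈ G, T ⊆ P8 z)
    (hF : ∀ U ∈ F, U ⊆ P8 z) (w i j : ℕ) (hi : w ≤ i) (hj : w ≤ j) :
    |∑ T ∈ blk G i, ∑ U ∈ blk F j, ab T U| ^ 6 * 2 ^ w ≤ 40960 * (ZZ z) ^ 4 := by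
  have hP : ∀ p ∈ P8 z, p.Prime := fun p hp => (mem_P8.mp hp).2.1
  have hGp : ∀ T ∈ G, ∀ p ∈ T, p.Prime := fun T hT p hp => hP p (hG T hT hp)
  have hFp : ∀ T ∈ F, ∀ p ∈ T, p.Prime := fun T hT p hp => hP p (hF T hT hp)
  have hGb := mem_blk_bounds (i := i) hGp
  have hFb := mem_blk_bounds (i := j) hFp
  have hGs : ∀ T ∈ blk G i, T ⊆ P8 z := fun T hT => hG T (Finset.mem_filter.mp hT).1
  have hFs : ∀ T ∈ blk F j, T ⊆ P8 z := fun T hT => hF T (Finset.mem_filter.mp hT).1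
  have hGq : ∀ T ∈ blk G i, ∀ p ∈ T, p.Prime := fun T hT => hGp T (Finset.mem_filter.mp hT).1
  have hFq : ∀ T ∈ blk F j, ∀ p ∈ T, p.Prime := fun T hT => hFp T (Finset.mem_filter.mp hT).1
  rw [ZZ_eq_prod]
  set KZ := (∏ p ∈ P8 z, (1 + 1 / (p : ℝ))) ^ 4 with hKZ
  have hKZ0 : 0 ≤ KZ := by positivity
  set X := ∑ T ∈ blk G i, ∑ U ∈ blk F j, ab T U with hX
  have key : ∀ k : ℕ, w ≤ k → |X| ^ 6 * ((2 : ℝ) ^ k) ≤ 40960 * KZ →
      |X| ^ 6 * 2 ^ w ≤ 40960 * KZ := by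
    intro k hk h
    refine le_trans ?_ h
    gcongr
    norm_num
  rcases lt_or_ge i j with hij | hij
  · refine key i hi ?_
    have h1 := bil3 hP (G := blk G i) hFs (fun T => 2 * (pr T : ℤ)) (fun T => cw T / 2)
      (D := 2 ^ (i + 1)) (A := 2 ^ j) Nat.one_le_two_pow
      (Nat.pow_le_pow_right (by norm_num) hij) ?_ ?_ ?_ ?_ ?_ hFb
    · have h2 : X = 2 * ∑ T ∈ blk G i, cw T / 2 * BB (blk F j) (2 * ((pr T : ℕ) : ℤ)) := by
        rw [hX, Finset.mul_sum]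
        refine Finset.sum_congr rfl fun T _ => ?_
        unfold BB ab
        rw [← mul_assoc, Finset.mul_sum]
        exact Finset.sum_congr rfl fun U _ => by ring
      set X' := ∑ T ∈ blk G i, cw T / 2 * BB (blk F j) (2 * ((pr T : ℕ) : ℤ)) with hX'
      rw [← hKZ] at h1
      push_cast at h1
      rw [h2, abs_mul, abs_of_pos (show (0 : ℝ) < 2 by norm_num)]
      calc (2 * |X'|) ^ 6 * 2 ^ i = 32 * (|X'| ^ 6 * 2 ^ (i + 1)) := by ring
        _ ≤ 32 * (1280 * KZ) := by linarith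
        _ = 40960 * KZ := by ring
    · intro T hT T' hT' h
      apply pr_injOn (hGq T hT) (hGq T' hT')
      have : (2 : ℤ) * (pr T : ℤ) = 2 * (pr T' : ℤ) := h
      omega
    · intro T hT
      exact pr_sq_two (hGs T hT)
    · intro T hT
      have := (hGb T hT).2
      rw [Int.natAbs_mul, Int.natAbs_natCast]
      have e : (2 : ℤ).natAbs = 2 := rfl
      rw [e, pow_succ]
      omega
    · have := card_blk_le (z := z) (i := i) hGp
      rw [pow_succ]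
      omega
    · intro T hT
      rw [abs_of_nonneg (div_nonneg (cw_nonneg T) (by norm_num))]
      have h3 := cw_le_inv (hGq T hT)
      have h4 : 1 / ((pr T : ℕ) : ℝ) ≤ 1 / (2 : ℝ) ^ i := by
        apply one_div_le_one_div_of_le (by positivity)
        exact_mod_cast (hGb T hT).1
      push_cast
      rw [pow_succ]
      have h5 : (1 : ℝ) / (2 ^ i * 2) = 1 / 2 ^ i / 2 := by rw [div_div]
      rw [h5]
      linarith
  · refine key j hj ?_
    have h1 := bil3 hP (G := blk F j) hGs fs (fun U => cw U * (psi 2 (pr U) : ℝ))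
      (D := 2 ^ j) (A := 2 ^ i) Nat.one_le_two_pow
      (Nat.pow_le_pow_right (by norm_num) hij) ?_ ?_ ?_ ?_ ?_ hGb
    · have h2 : X = ∑ U ∈ blk F j, cw U * (psi 2 (pr U) : ℝ) * BB (blk G i) (fs U) := by
        rw [hX, Finset.sum_comm]
        refine Finset.sum_congr rfl fun U hU => ?_
        unfold BB ab
        rw [Finset.mul_sum]
        refine Finset.sum_congr rfl fun T hT => ?_
        rw [psi_mul_left, reciprocity (hGs T hT) (hFs U hU)]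
        push_cast
        ring
      rw [h2]
      rw [← hKZ] at h1
      push_cast at h1
      linarith
    · intro T hT T' hT' h
      apply pr_injOn (hFq T hT) (hFq T' hT')
      rw [← fs_natAbs, ← fs_natAbs, h]
    · intro T hT
      rw [← Int.squarefree_natAbs, fs_natAbs]
      exact pr_squarefree (hFq T hT)
    · intro T hT
      rw [fs_natAbs]
      exact (hFb T hT).2.le
    · have := card_blk_le (z := z) (i := j) hFp
      omega
    · intro T hT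
      rw [abs_mul, abs_of_nonneg (cw_nonneg T)]
      have h3 := cw_le_inv (hFq T hT)
      have h4 : 1 / ((pr T : ℕ) : ℝ) ≤ 1 / ((2 ^ j : ℕ) : ℝ) := by
        apply one_div_le_one_div_of_le
        · exact_mod_cast Nat.two_pow_pos j
        · exact_mod_cast (hFb T hT).1
      have h5 := abs_psi_real 2 (pr T)
      calc cw T * |(psi 2 (pr T) : ℝ)| ≤ cw T * 1 := mul_le_mul_of_nonneg_left h5 (cw_nonneg T)
        _ ≤ _ := by rw [mul_one]; exact h3.trans h4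

/-- The range of middle blocks. -/
lemma mid_bound2 {z : ℕ} {G F : Finset (Finset ℕ)} (hG : ∀ T ∈ G, T ⊆ P8 z)
    (hF : ∀ U ∈ F, U ⊆ P8 z) {w y : ℕ} (hy : 1 ≤ y)
    (H1 : 40960 * (ZZ z) ^ 4 * (y : ℝ) ^ 12 ≤ 2 ^ w)
    (hGm : ∀ T ∈ G, Nat.log 2 (pr T) ∈ Ico w y) (hFm : ∀ U ∈ F, Nat.log 2 (pr U) ∈ Ico w y) :
    |∑ T ∈ G, ∑ U ∈ F, ab T U| ≤ 1 := by
  have hy0 : (0 : ℝ) < y := by exact_mod_cast hy
  have e1 : ∑ T ∈ G, ∑ U ∈ F, ab T U
      = ∑ i ∈ Ico w y, ∑ j ∈ Ico w y, ∑ T ∈ blk G i, ∑ U ∈ blk F j, ab T U := by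
    rw [← Finset.sum_fiberwise_of_maps_to (g := fun T => Nat.log 2 (pr T)) hGm]
    refine Finset.sum_congr rfl fun i _ => ?_
    rw [Finset.sum_comm (s := Ico w y)]
    refine Finset.sum_congr rfl fun T _ => ?_
    rw [← Finset.sum_fiberwise_of_maps_to (g := fun T => Nat.log 2 (pr T)) hFm]
    rfl
  have hX : ∀ i ∈ Ico w y, ∀ j ∈ Ico w y, |∑ T ∈ blk G i, ∑ U ∈ blk F j, ab T U| ≤ 1 / (y : ℝ) ^ 2 := by
    intro i hi j hj
    rw [mem_Ico] at hi hj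
    have h1 := block_bound2 hG hF w i j hi.1 hj.1
    set X := ∑ T ∈ blk G i, ∑ U ∈ blk F j, ab T U with hXd
    change |X| ^ 6 * 2 ^ w ≤ _ at h1
    have h2 : |X| ^ 6 * (y : ℝ) ^ 12 ≤ 1 := by
      have hw0 : (0 : ℝ) < 2 ^ w := by positivity
      have h3 : |X| ^ 6 * (y : ℝ) ^ 12 * 2 ^ w ≤ 1 * 2 ^ w := by
        calc |X| ^ 6 * (y : ℝ) ^ 12 * 2 ^ w = (|X| ^ 6 * 2 ^ w) * (y : ℝ) ^ 12 := by ring
          _ ≤ 40960 * (ZZ z) ^ 4 * (y : ℝ) ^ 12 := by gcongr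
          _ ≤ 1 * 2 ^ w := by rw [one_mul]; exact H1
      exact le_of_mul_le_mul_right h3 hw0
    have h4 : (|X| * (y : ℝ) ^ 2) ^ 6 ≤ 1 ^ 6 := by
      calc (|X| * (y : ℝ) ^ 2) ^ 6 = |X| ^ 6 * (y : ℝ) ^ 12 := by ring
        _ ≤ 1 := h2
        _ = 1 ^ 6 := by norm_num
    have h5 : |X| * (y : ℝ) ^ 2 ≤ 1 :=
      le_of_pow_le_pow_left₀ (by norm_num) (by norm_num) h4
    rw [le_div_iff₀ (by positivity)]
    exact h5
  rw [e1]
  calc |∑ i ∈ Ico w y, ∑ j ∈ Ico w y, ∑ T ∈ blk G i, ∑ U ∈ blk F j, ab T U|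
      ≤ ∑ i ∈ Ico w y, ∑ j ∈ Ico w y, 1 / (y : ℝ) ^ 2 := by
        refine (Finset.abs_sum_le_sum_abs _ _).trans (Finset.sum_le_sum fun i hi => ?_)
        exact (Finset.abs_sum_le_sum_abs _ _).trans (Finset.sum_le_sum fun j hj => hX i hi j hj)
    _ = ((y - w : ℕ) : ℝ) * (((y - w : ℕ) : ℝ) * (1 / (y : ℝ) ^ 2)) := by
        rw [Finset.sum_const, Finset.sum_const, Nat.card_Ico, nsmul_eq_mul, nsmul_eq_mul]
    _ ≤ (y : ℝ) * ((y : ℝ) * (1 / (y : ℝ) ^ 2)) := by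
        have : ((y - w : ℕ) : ℝ) ≤ y := by exact_mod_cast Nat.sub_le y w
        gcongr
    _ = 1 := by field_simp

theorem RE_le {z : ℕ} (hz : 3 ≤ z) {P : Finset ℕ}
    (hP : P = P8 z ∨ P = (P8 z).filter (fun p => p % 4 = 1)) {w y : ℕ} (hy : 1 ≤ y)
    (H1 : 40960 * (ZZ z) ^ 4 * (y : ℝ) ^ 12 ≤ 2 ^ w)
    (H2 : ((2 : ℝ) ^ (y - 1)) ^ (-(1 / Real.log z)) * (Real.exp (5 / 2) * QQ z) * QQ z ≤ 1) :
    |RE z P| ≤ 2 * (1 + Real.log (2 ^ w : ℕ)) * (Real.exp 11 * (3 + Real.log (16 * 2 ^ w : ℕ))) +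
      (1 + Real.log (2 ^ w : ℕ)) ^ 2 + 3 := by
  classical
  set W : ℕ := 2 ^ w with hW
  set E := Real.exp 11 * (3 + Real.log (16 * W : ℕ)) with hE
  set LW := 1 + Real.log (W : ℕ) with hLW
  have hLW0 : 0 ≤ LW := by have := Real.log_natCast_nonneg W; linarith
  have hE0 : 0 ≤ E := by
    have := Real.log_natCast_nonneg (16 * W)
    positivity
  have hsub : P ⊆ P8 z := by
    rcases hP with h | h
    · rw [h]
    · rw [h]; exact Finset.filter_subset _ _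
  set G := NE P with hG
  set F := NE (P8 z) with hF
  have hGs : ∀ T ∈ G, T ⊆ P := fun T hT => (mem_NE.mp hT).1
  have hGs8 : ∀ T ∈ G, T ⊆ P8 z := fun T hT => (hGs T hT).trans hsub
  have hFs : ∀ T ∈ F, T ⊆ P8 z := fun T hT => (mem_NE.mp hT).1
  have hGF : ∀ T ∈ G, T ∈ F := fun T hT => mem_NE.mpr ⟨hGs8 T hT, (mem_NE.mp hT).2⟩
  have hpr : ∀ T : Finset ℕ, T ⊆ P8 z → ∀ p ∈ T, p.Prime := fun T hT p hp => (mem_P8.mp (hT hp)).2.1
  set Gs := G.filter (fun T => pr T < W) with hGsd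
  set Gb := G.filter (fun T => ¬ pr T < W) with hGbd
  set Fs := F.filter (fun T => pr T < W) with hFsd
  set Fb := F.filter (fun T => ¬ pr T < W) with hFbd
  set Gm := Gb.filter (fun T => pr T < 2 ^ y) with hGmd
  set Gt := Gb.filter (fun T => ¬ pr T < 2 ^ y) with hGtd
  set Fm := Fb.filter (fun T => pr T < 2 ^ y) with hFmd
  set Ft := Fb.filter (fun T => ¬ pr T < 2 ^ y) with hFtd
  -- decomposition
  have d1 : RE z P = ∑ T ∈ Gs, ∑ U ∈ F, ab T U + (∑ U ∈ Fs, ∑ T ∈ G, ab T U -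
      ∑ T ∈ Gs, ∑ U ∈ Fs, ab T U) + ∑ T ∈ Gb, ∑ U ∈ Fb, ab T U := by
    have e1 : RE z P = ∑ T ∈ Gs, ∑ U ∈ F, ab T U + ∑ T ∈ Gb, ∑ U ∈ F, ab T U :=
      sum_filter_split G _ _
    have e2 : ∑ T ∈ Gb, ∑ U ∈ F, ab T U
        = ∑ T ∈ Gb, ∑ U ∈ Fs, ab T U + ∑ T ∈ Gb, ∑ U ∈ Fb, ab T U := by
      rw [← Finset.sum_add_distrib]
      exact Finset.sum_congr rfl fun T _ => sum_filter_split F _ _
    have e3 : ∑ U ∈ Fs, ∑ T ∈ G, ab T U
        = ∑ T ∈ Gs, ∑ U ∈ Fs, ab T U + ∑ T ∈ Gb, ∑ U ∈ Fs, ab T U := by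
      rw [Finset.sum_comm]
      exact sum_filter_split G _ _
    rw [e1, e2, e3]; ring
  have d2 : ∑ T ∈ Gb, ∑ U ∈ Fb, ab T U = ∑ T ∈ Gt, ∑ U ∈ Fb, ab T U +
      ∑ T ∈ Gm, ∑ U ∈ Ft, ab T U + ∑ T ∈ Gm, ∑ U ∈ Fm, ab T U := by
    have e1 : ∑ T ∈ Gb, ∑ U ∈ Fb, ab T U
        = ∑ T ∈ Gm, ∑ U ∈ Fb, ab T U + ∑ T ∈ Gt, ∑ U ∈ Fb, ab T U := sum_filter_split Gb _ _
    have e2 : ∑ T ∈ Gm, ∑ U ∈ Fb, ab T U
        = ∑ T ∈ Gm, ∑ U ∈ Fm, ab T U + ∑ T ∈ Gm, ∑ U ∈ Ft, ab T U := by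
      rw [← Finset.sum_add_distrib]
      exact Finset.sum_congr rfl fun T _ => sum_filter_split Fb _ _
    rw [e1, e2]; ring
  -- subset facts
  have mGs : ∀ T ∈ Gs, T ∈ G ∧ pr T < W := fun T hT => Finset.mem_filter.mp hT
  have mFs : ∀ T ∈ Fs, T ∈ F ∧ pr T < W := fun T hT => Finset.mem_filter.mp hT
  have mGb : ∀ T ∈ Gb, T ∈ G ∧ ¬ pr T < W := fun T hT => Finset.mem_filter.mp hT
  have mFb : ∀ T ∈ Fb, T ∈ F ∧ ¬ pr T < W := fun T hT => Finset.mem_filter.mp hT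
  have mGt : ∀ T ∈ Gt, T ∈ Gb ∧ ¬ pr T < 2 ^ y := fun T hT => Finset.mem_filter.mp hT
  have mFt : ∀ T ∈ Ft, T ∈ Fb ∧ ¬ pr T < 2 ^ y := fun T hT => Finset.mem_filter.mp hT
  have mGm : ∀ T ∈ Gm, T ∈ Gb ∧ pr T < 2 ^ y := fun T hT => Finset.mem_filter.mp hT
  have mFm : ∀ T ∈ Fm, T ∈ Fb ∧ pr T < 2 ^ y := fun T hT => Finset.mem_filter.mp hT
  have hlogGs : ∑ T ∈ Gs, cw T ≤ LW :=
    sum_cw_small (fun T hT => hpr T (hGs8 T (mGs T hT).1)) (fun T hT => (mGs T hT).2.le)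
  have hlogFs : ∑ T ∈ Fs, cw T ≤ LW :=
    sum_cw_small (fun T hT => hpr T (hFs T (mFs T hT).1)) (fun T hT => (mFs T hT).2.le)
  -- piece 1
  have b1 : |∑ T ∈ Gs, ∑ U ∈ F, ab T U| ≤ LW * E := by
    have e1 : ∀ T ∈ Gs, ∑ U ∈ F, ab T U = cw T * (EPs (P8 z) (2 * (pr T : ℤ)) - 1) := by
      intro T _
      rw [EPs_sub_one, Finset.mul_sum]
      refine Finset.sum_congr rfl fun U _ => ?_
      unfold ab; ring
    rw [Finset.sum_congr rfl e1]
    calc |∑ T ∈ Gs, cw T * (EPs (P8 z) (2 * (pr T : ℤ)) - 1)|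
        ≤ ∑ T ∈ Gs, cw T * E := by
          refine (Finset.abs_sum_le_sum_abs _ _).trans (Finset.sum_le_sum fun T hT => ?_)
          rw [abs_mul, abs_of_nonneg (cw_nonneg T)]
          refine mul_le_mul_of_nonneg_left (EPs_le_W2 (Or.inl rfl)
            (pr_sq_two (hGs8 T (mGs T hT).1)) ?_ ?_) (cw_nonneg T)
          · rw [Int.natAbs_mul, Int.natAbs_natCast]
            have e : (2 : ℤ).natAbs = 2 := rfl
            rw [e]; omega
          · have := (mGs T hT).2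
            rw [Int.natAbs_mul, Int.natAbs_natCast]
            have e : (2 : ℤ).natAbs = 2 := rfl
            rw [e]; omega
      _ = (∑ T ∈ Gs, cw T) * E := (Finset.sum_mul _ _ _).symm
      _ ≤ LW * E := mul_le_mul_of_nonneg_right hlogGs hE0
  -- piece 2
  have b2 : |∑ U ∈ Fs, ∑ T ∈ G, ab T U| ≤ LW * E := by
    have e1 : ∀ U ∈ Fs, ∑ T ∈ G, ab T U = cw U * (psi 2 (pr U) : ℝ) * (EPs P (fs U) - 1) := by
      intro U hU
      rw [EPs_sub_one, Finset.mul_sum]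
      refine Finset.sum_congr rfl fun T hT => ?_
      unfold ab
      rw [psi_mul_left, reciprocity (hGs8 T hT) (hFs U (mFs U hU).1)]
      push_cast
      ring
    rw [Finset.sum_congr rfl e1]
    calc |∑ U ∈ Fs, cw U * (psi 2 (pr U) : ℝ) * (EPs P (fs U) - 1)|
        ≤ ∑ U ∈ Fs, cw U * E := by
          refine (Finset.abs_sum_le_sum_abs _ _).trans (Finset.sum_le_sum fun U hU => ?_)
          rw [abs_mul, abs_mul, abs_of_nonneg (cw_nonneg U)]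
          have hUp := hpr U (hFs U (mFs U hU).1)
          have g1 : |EPs P (fs U) - 1| ≤ E := by
            refine EPs_le_W2 hP ?_ ?_ ?_
            · rw [← Int.squarefree_natAbs, fs_natAbs]; exact pr_squarefree hUp
            · rw [fs_natAbs]; exact pr_ne_one hUp (mem_NE.mp (mFs U hU).1).2
            · rw [fs_natAbs]; have := (mFs U hU).2; omega
          have g2 := abs_psi_real 2 (pr U)
          calc cw U * |(psi 2 (pr U) : ℝ)| * |EPs P (fs U) - 1| ≤ cw U * 1 * E :=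
                mul_le_mul (mul_le_mul_of_nonneg_left g2 (cw_nonneg U)) g1 (abs_nonneg _)
                  (by rw [mul_one]; exact cw_nonneg U)
            _ = cw U * E := by rw [mul_one]
      _ = (∑ U ∈ Fs, cw U) * E := (Finset.sum_mul _ _ _).symm
      _ ≤ LW * E := mul_le_mul_of_nonneg_right hlogFs hE0
  -- piece 3
  have b3 : |∑ T ∈ Gs, ∑ U ∈ Fs, ab T U| ≤ LW ^ 2 := by
    refine (abs_sum_ab_le _ _).trans ?_
    rw [sq]
    exact mul_le_mul hlogGs hlogFs (Finset.sum_nonneg fun U _ => cw_nonneg U) hLW0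
  -- tails
  have hY0 : (0 : ℝ) < (2 : ℝ) ^ (y - 1) := by positivity
  have hYlt : ∀ T : Finset ℕ, ¬ pr T < 2 ^ y → (2 : ℝ) ^ (y - 1) < ((pr T : ℕ) : ℝ) := by
    intro T hT
    push Not at hT
    have h1 : 2 ^ (y - 1) < 2 ^ y := Nat.pow_lt_pow_right (by norm_num) (by omega)
    have h2 : 2 ^ (y - 1) < pr T := lt_of_lt_of_le h1 hT
    exact_mod_cast h2
  have hQ0 : 0 ≤ QQ z := by
    unfold QQ
    exact Finset.prod_nonneg fun p _ => by have := cc_nonneg p; linarith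
  have tG : ∑ T ∈ Gt, cw T ≤ ((2 : ℝ) ^ (y - 1)) ^ (-(1 / Real.log z)) * (Real.exp (5 / 2) * QQ z) := by
    refine le_trans ?_ (tail_cw hz hsub hY0)
    refine Finset.sum_le_sum_of_subset_of_nonneg ?_ fun U _ _ => cw_nonneg U
    intro T hT
    rw [mem_filter, mem_powerset]
    exact ⟨hGs T (mGb T (mGt T hT).1).1, hYlt T (mGt T hT).2⟩
  have tF : ∑ T ∈ Ft, cw T ≤ ((2 : ℝ) ^ (y - 1)) ^ (-(1 / Real.log z)) * (Real.exp (5 / 2) * QQ z) := by
    refine le_trans ?_ (tail_cw hz (Finset.Subset.refl _) hY0)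
    refine Finset.sum_le_sum_of_subset_of_nonneg ?_ fun U _ _ => cw_nonneg U
    intro T hT
    rw [mem_filter, mem_powerset]
    exact ⟨hFs T (mFb T (mFt T hT).1).1, hYlt T (mFt T hT).2⟩
  have b4 : |∑ T ∈ Gt, ∑ U ∈ Fb, ab T U| ≤ 1 := by
    refine (abs_sum_ab_le _ _).trans (le_trans ?_ H2)
    refine mul_le_mul tG (sum_cw_le_QQ (Finset.Subset.refl _) fun T hT => hFs T (mFb T hT).1)
      (Finset.sum_nonneg fun U _ => cw_nonneg U) (by positivity)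
  have b5 : |∑ T ∈ Gm, ∑ U ∈ Ft, ab T U| ≤ 1 := by
    refine (abs_sum_ab_le _ _).trans (le_trans ?_ H2)
    rw [mul_comm]
    refine mul_le_mul tF (sum_cw_le_QQ hsub fun T hT => hGs T (mGb T (mGm T hT).1).1)
      (Finset.sum_nonneg fun U _ => cw_nonneg U) (by positivity)
  -- middle
  have hlog : ∀ T : Finset ℕ, T ⊆ P8 z → ¬ pr T < W → pr T < 2 ^ y → Nat.log 2 (pr T) ∈ Ico w y := by
    intro T hT h1 h2
    have h0 := pr_pos (hpr T hT)
    rw [mem_Ico]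
    constructor
    · push Not at h1
      exact (Nat.le_log_iff_pow_le (by norm_num) h0.ne').mpr h1
    · exact Nat.log_lt_of_lt_pow h0.ne' h2
  have b6 : |∑ T ∈ Gm, ∑ U ∈ Fm, ab T U| ≤ 1 := by
    refine mid_bound2 (z := z) (fun T hT => hGs8 T (mGb T (mGm T hT).1).1)
      (fun T hT => hFs T (mFb T (mFm T hT).1).1) hy H1 ?_ ?_
    · intro T hT
      exact hlog T (hGs8 T (mGb T (mGm T hT).1).1) (mGb T (mGm T hT).1).2 (mGm T hT).2
    · intro T hT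
      exact hlog T (hFs T (mFb T (mFm T hT).1).1) (mFb T (mFm T hT).1).2 (mFm T hT).2
  rw [d1, d2]
  rw [abs_le] at b1 b2 b3 b4 b5 b6 ⊢
  constructor <;> linarith [b1.1, b1.2, b2.1, b2.2, b3.1, b3.2, b4.1, b4.2, b5.1, b5.2, b6.1, b6.2]

/-- **Main estimate of the double sum.** -/
theorem RE_bound : ∃ C : ℝ, 0 < C ∧ ∀ z : ℕ, 3 ≤ z → ∀ P : Finset ℕ,
    (P = P8 z ∨ P = (P8 z).filter (fun p => p % 4 = 1)) →
    |RE z P| ≤ C * (1 + Real.log (Real.log z)) ^ 2 := by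
  obtain ⟨C0, hC0, hZ⟩ := ZZ_le
  set K : ℝ := 9 + 4 * C0 with hK
  set C1 : ℝ := 40960 * (Real.exp C0) ^ 4 * (K + 2) ^ 12 with hC1
  have hK9 : 9 ≤ K := by linarith
  have hexp1 : 1 ≤ Real.exp C0 := Real.one_le_exp hC0
  have hC11 : 1 ≤ C1 := by
    rw [hC1]
    have h1 : (1 : ℝ) ≤ (Real.exp C0) ^ 4 := one_le_pow₀ hexp1
    have h2 : (1 : ℝ) ≤ (K + 2) ^ 12 := one_le_pow₀ (by linarith)
    nlinarith
  have hlC1 : 0 ≤ Real.log C1 := Real.log_nonneg hC11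
  have hlog2 : (1 : ℝ) / 2 ≤ Real.log 2 := by have := Real.log_two_gt_d9; linarith
  have hlog2' : Real.log 2 ≤ 1 := by have := Real.log_two_lt_d9; linarith
  set M : ℝ := 30 + Real.log C1 with hM
  have hM30 : 30 ≤ M := by linarith
  have hexp11 : 1 ≤ Real.exp 11 := Real.one_le_exp (by norm_num)
  refine ⟨2 * M * (Real.exp 11 * (M + 5)) + M ^ 2 + 3, by positivity, fun z hz P hP => ?_⟩
  have hlz := one_le_log hz
  set Lg := Real.log z with hLg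
  have hLg0 : 0 < Lg := by linarith
  have hll : 0 ≤ Real.log Lg := Real.log_nonneg hlz
  set y : ℕ := ⌈K * Lg ^ 2⌉₊ + 1 with hy
  have hy1 : 1 ≤ y := by omega
  have hK0 : 0 ≤ K * Lg ^ 2 := by positivity
  have hyl : K * Lg ^ 2 ≤ ((y - 1 : ℕ) : ℝ) := by
    have : y - 1 = ⌈K * Lg ^ 2⌉₊ := by omega
    rw [this]; exact Nat.le_ceil _
  have hyu : (y : ℝ) ≤ (K + 2) * Lg ^ 2 := by
    have h1 : (⌈K * Lg ^ 2⌉₊ : ℝ) < K * Lg ^ 2 + 1 := Nat.ceil_lt_add_one hK0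
    have h2 : (y : ℝ) = (⌈K * Lg ^ 2⌉₊ : ℝ) + 1 := by rw [hy]; push_cast; ring
    rw [h2]
    nlinarith
  set w : ℕ := ⌈Real.log (C1 * Lg ^ 28) / Real.log 2⌉₊ with hw
  have hCL : 0 < C1 * Lg ^ 28 := by positivity
  have hCL1 : 1 ≤ C1 * Lg ^ 28 := by
    have : (1 : ℝ) ≤ Lg ^ 28 := one_le_pow₀ hlz
    nlinarith
  have hlogCL : 0 ≤ Real.log (C1 * Lg ^ 28) := Real.log_nonneg hCL1
  have hlogCL' : Real.log (C1 * Lg ^ 28) = Real.log C1 + 28 * Real.log Lg := by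
    rw [Real.log_mul (by positivity) (by positivity), Real.log_pow]
    push_cast; ring
  have hl2 : 0 < Real.log 2 := by linarith
  have hw1 : C1 * Lg ^ 28 ≤ 2 ^ w := by
    have h1 : Real.log (C1 * Lg ^ 28) / Real.log 2 ≤ w := Nat.le_ceil _
    rw [div_le_iff₀ hl2] at h1
    have h2 : Real.log (C1 * Lg ^ 28) ≤ Real.log ((2 : ℝ) ^ w) := by
      rw [Real.log_pow]; exact h1
    exact (Real.log_le_log_iff hCL (by positivity)).mp h2
  have hw2 : Real.log ((2 : ℝ) ^ w) ≤ Real.log C1 + 28 * Real.log Lg + 1 := by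
    rw [Real.log_pow, ← hlogCL']
    have h1 : (w : ℝ) < Real.log (C1 * Lg ^ 28) / Real.log 2 + 1 :=
      Nat.ceil_lt_add_one (div_nonneg hlogCL hl2.le)
    calc (w : ℝ) * Real.log 2 ≤ (Real.log (C1 * Lg ^ 28) / Real.log 2 + 1) * Real.log 2 := by
          gcongr
      _ = Real.log (C1 * Lg ^ 28) + Real.log 2 := by field_simp
      _ ≤ _ := by linarith
  -- the hypotheses
  have hZz := hZ z hz
  have H1 : 40960 * (ZZ z) ^ 4 * (y : ℝ) ^ 12 ≤ 2 ^ w := by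
    refine le_trans ?_ hw1
    have hZ0 := ZZ_nonneg z
    calc 40960 * (ZZ z) ^ 4 * (y : ℝ) ^ 12
        ≤ 40960 * (Real.exp C0 * Lg) ^ 4 * ((K + 2) * Lg ^ 2) ^ 12 := by gcongr
      _ = C1 * Lg ^ 28 := by rw [hC1]; ring
  have H2 : ((2 : ℝ) ^ (y - 1)) ^ (-(1 / Lg)) * (Real.exp (5 / 2) * QQ z) * QQ z ≤ 1 := by
    have hQ : QQ z ≤ Real.exp (C0 + Lg) := by
      refine (QQ_le_ZZ z).trans (hZz.trans ?_)
      rw [Real.exp_add]
      refine mul_le_mul_of_nonneg_left ?_ (Real.exp_pos _).le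
      have := Real.add_one_le_exp Lg
      linarith
    have hQ0 := QQ_nonneg z
    have h1 : ((2 : ℝ) ^ (y - 1)) ^ (-(1 / Lg)) ≤ Real.exp (-((5 / 2) + 2 * (C0 + Lg))) := by
      rw [Real.rpow_def_of_pos (by positivity), Real.log_pow, Real.exp_le_exp]
      have h2 : (5 / 2) + 2 * (C0 + Lg) ≤ ((y - 1 : ℕ) : ℝ) * Real.log 2 * (1 / Lg) := by
        calc (5 / 2) + 2 * (C0 + Lg) ≤ (9 / 2 + 2 * C0) * Lg := by nlinarith
          _ = (K * Lg ^ 2) * (1 / 2) * (1 / Lg) := by rw [hK]; field_simp; ring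
          _ ≤ ((y - 1 : ℕ) : ℝ) * Real.log 2 * (1 / Lg) := by gcongr
      linarith
    calc ((2 : ℝ) ^ (y - 1)) ^ (-(1 / Lg)) * (Real.exp (5 / 2) * QQ z) * QQ z
        ≤ Real.exp (-((5 / 2) + 2 * (C0 + Lg))) * (Real.exp (5 / 2) * Real.exp (C0 + Lg)) *
          Real.exp (C0 + Lg) := by gcongr
      _ = 1 := by
          rw [← Real.exp_add, ← Real.exp_add, ← Real.exp_add, ← Real.exp_zero]
          congr 1; ring
  have hmain := RE_le hz hP hy1 H1 H2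
  refine hmain.trans ?_
  have e1 : Real.log ((2 ^ w : ℕ) : ℝ) = Real.log ((2 : ℝ) ^ w) := by push_cast; rfl
  have e2 : Real.log ((16 * 2 ^ w : ℕ) : ℝ) ≤ 4 + Real.log ((2 : ℝ) ^ w) := by
    push_cast
    rw [Real.log_mul (by norm_num) (by positivity), show (16 : ℝ) = 2 ^ 4 by norm_num,
      Real.log_pow]
    push_cast
    linarith
  rw [e1]
  set LL := 1 + Real.log Lg with hLL
  have hLL1 : 1 ≤ LL := by linarith
  have f1 : 1 + Real.log ((2 : ℝ) ^ w) ≤ M * LL := by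
    have h3 : 28 * Real.log Lg ≤ M * Real.log Lg := mul_le_mul_of_nonneg_right (by linarith) hll
    have h4 : M * LL = M + M * Real.log Lg := by rw [hLL]; ring
    rw [h4]
    linarith
  have f2 : 3 + Real.log ((16 * 2 ^ w : ℕ) : ℝ) ≤ (M + 5) * LL := by
    have h3 : 28 * Real.log Lg ≤ (M + 5) * Real.log Lg :=
      mul_le_mul_of_nonneg_right (by linarith) hll
    have h4 : (M + 5) * LL = (M + 5) + (M + 5) * Real.log Lg := by rw [hLL]; ring
    rw [h4]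
    linarith
  have g0 : 0 ≤ Real.log ((2 : ℝ) ^ w) := Real.log_nonneg (one_le_pow₀ (by norm_num))
  have g1 : 0 ≤ Real.log ((16 * 2 ^ w : ℕ) : ℝ) := Real.log_natCast_nonneg _
  calc 2 * (1 + Real.log ((2 : ℝ) ^ w)) * (Real.exp 11 * (3 + Real.log ((16 * 2 ^ w : ℕ) : ℝ))) +
        (1 + Real.log ((2 : ℝ) ^ w)) ^ 2 + 3
      ≤ 2 * (M * LL) * (Real.exp 11 * ((M + 5) * LL)) + (M * LL) ^ 2 + 3 * LL ^ 2 := by
        have h3 : (1 : ℝ) ≤ LL ^ 2 := one_le_pow₀ hLL1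
        have h5 : 0 ≤ 1 + Real.log ((2 : ℝ) ^ w) := by linarith
        have h6 : 0 ≤ 3 + Real.log ((16 * 2 ^ w : ℕ) : ℝ) := by linarith
        have h7 : 0 ≤ M * LL := by positivity
        have h8 : 2 * (1 + Real.log ((2 : ℝ) ^ w)) * (Real.exp 11 * (3 + Real.log ((16 * 2 ^ w : ℕ) : ℝ)))
            ≤ 2 * (M * LL) * (Real.exp 11 * ((M + 5) * LL)) := by
          apply mul_le_mul (by linarith) (mul_le_mul_of_nonneg_left f2 (by positivity))
            (by positivity) (by positivity)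
        have h9 : (1 + Real.log ((2 : ℝ) ^ w)) ^ 2 ≤ (M * LL) ^ 2 := pow_le_pow_left₀ h5 f1 2
        linarith
    _ = (2 * M * (Real.exp 11 * (M + 5)) + M ^ 2 + 3) * LL ^ 2 := by ring

end Pool.Agent.TZF
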