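import Pool.Agent.TZL.PrdA
import Pool.Agent.TZL.FM11

set_option autoImplicit false

/-! first moments over smooth numbers, all odd primes (port of `TLW/Tight`) -/

namespace Pool.Agent.TZL

open Finset Pool.Agent.TLW

lemma pr_eq_P8 (Y : ℕ) : pr 0 Y = TZF.P8 Y := by
  ext p
  unfold pr
  rw [mem_filter, mem_Ioc, TZF.mem_P8]
  constructor
  · rintro ⟨⟨_, h1⟩, h2, h3⟩; exact ⟨h1, h2, h3⟩
  · rintro ⟨h1, h2, h3⟩; exact ⟨⟨h2.pos, h1⟩, h2, h3⟩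

lemma DD_eq_ZZ (Y : ℕ) : DD Y = TZF.ZZ Y := by
  unfold DD
  rw [TZF.ZZ_eq_prod, pr_eq_P8]

/-- Sums over the divisors of `PP Y` are sums over subsets. -/
lemma sum_divisors_eq (Y : ℕ) (g : ℕ → ℝ) :
    ∑ a ∈ (PP Y).divisors, g a = ∑ S ∈ (TZF.P8 Y).powerset, g (C1M.pr S) := by
  rw [sum_PP, pr_eq_P8]
  rfl

lemma Kf_eq_sum {S : Finset ℕ} (hS : ∀ p ∈ S, p.Prime) :
    Kf (C1M.pr S) = 2 * (((2 : ℝ) ^ S.card)⁻¹ *
      ∑ T ∈ S.powerset, ∏ q ∈ S \ T, (1 + (jacobiSym ((C1M.pr T : ℕ) : ℤ) q : ℝ))) := by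
  have hpf := C1M.primeFactors_pr hS
  unfold Kf
  congr 1
  have h1 := C1M.mean_card (C1M.pr S).primeFactors (by rw [hpf]; exact hS) (fun _ => True)
  have h2 : KM (Ra (C1M.pr S)) = (∑ u : {x // x ∈ (C1M.pr S).primeFactors} → ZMod 2,
      (((univ.filter fun y : {x // x ∈ (C1M.pr S).primeFactors} → ZMod 2 =>
      True ∧ (MM (fun i j : {x // x ∈ (C1M.pr S).primeFactors} => sy (i : ℕ) (j : ℕ)) u).mulVec y = 0).card
        : ℕ) : ℝ)) / 2 ^ Fintype.card {x // x ∈ (C1M.pr S).primeFactors} := by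
    unfold KM kerN
    simp only [true_and]
    rfl
  rw [h2, h1, hpf, Finset.filter_true]

lemma K0f_eq_sum {S : Finset ℕ} (hS : ∀ p ∈ S, p.Prime) :
    K0f (C1M.pr S) = ((2 : ℝ) ^ S.card)⁻¹ *
      ∑ T ∈ S.powerset.filter (fun T => ∀ p ∈ T, ¬ p % 4 = 3),
        ∏ q ∈ S \ T, (1 + (jacobiSym ((C1M.pr T : ℕ) : ℤ) q : ℝ)) := by
  classical
  have hpf := C1M.primeFactors_pr hS
  have h10 : (1 : ZMod 2) ≠ 0 := by decide
  have h1 := C1M.mean_card (C1M.pr S).primeFactors (by rw [hpf]; exact hS)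
    (fun y => ∀ i, sa (C1M.pr S) i = 1 → y i = 0)
  have h2 : K0f (C1M.pr S) = (∑ u : {x // x ∈ (C1M.pr S).primeFactors} → ZMod 2,
      (((univ.filter fun y : {x // x ∈ (C1M.pr S).primeFactors} → ZMod 2 =>
      (∀ i, sa (C1M.pr S) i = 1 → y i = 0) ∧
      (MM (fun i j : {x // x ∈ (C1M.pr S).primeFactors} => sy (i : ℕ) (j : ℕ)) u).mulVec y = 0).card : ℕ)
        : ℝ)) / 2 ^ Fintype.card {x // x ∈ (C1M.pr S).primeFactors} := rfl
  rw [h2, h1]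
  have e1 : ((2 : ℝ) ^ (C1M.pr S).primeFactors.card)⁻¹ = ((2 : ℝ) ^ S.card)⁻¹ := by rw [hpf]
  rw [e1]
  congr 1
  refine Finset.sum_congr ?_ fun T _ => by rw [hpf]
  ext T
  rw [mem_filter, mem_filter, mem_powerset, mem_powerset]
  have e2 : T ⊆ (C1M.pr S).primeFactors ↔ T ⊆ S := by rw [hpf]
  rw [e2]
  constructor
  · rintro ⟨h3, h4⟩
    refine ⟨h3, fun p hp h7 => ?_⟩
    have h5 := h4 ⟨p, by rw [hpf]; exact h3 hp⟩ (by
      change nn p = 1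
      unfold nn; rw [if_pos h7])
    simp only [hp, if_true] at h5
    exact h10 h5
  · rintro ⟨h3, h4⟩
    refine ⟨h3, fun i hi => ?_⟩
    have h5 : nn (i : ℕ) = 1 := hi
    have h6 : (i : ℕ) % 4 = 3 := by
      unfold nn at h5
      by_contra hn
      rw [if_neg hn] at h5
      exact h10 h5.symm
    change (if (i : ℕ) ∈ T then (1 : ZMod 2) else 0) = 0
    rw [if_neg]
    intro hiT
    exact h4 _ hiT h6

/-- The sum over nonempty sets. -/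
lemma sum_NE_EP (z : ℕ) (P : Finset ℕ) :
    ∑ T ∈ C1M.NE P, C1M.cw T * TZF.EP z (C1M.pr T : ℕ)
      = (∏ p ∈ P, (1 + C1M.cc p) - 1) + TZF.RR z P := by
  have h1 : ∏ p ∈ P, (1 + C1M.cc p) - 1 = ∑ T ∈ C1M.NE P, C1M.cw T := by
    rw [Finset.prod_one_add]
    have := C1M.sum_NE P (fun T => C1M.cw T)
    rw [C1M.cw_empty] at this
    unfold C1M.cw at this ⊢
    rw [this]; ring
  rw [h1]
  unfold TZF.RR
  rw [← Finset.sum_add_distrib]
  refine Finset.sum_congr rfl fun T _ => ?_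
  have h2 := C1M.EPs_sub_one (TZF.P8 z) (C1M.pr T : ℕ)
  have h3 : TZF.EP z (C1M.pr T : ℕ) = C1M.EPs (TZF.P8 z) (C1M.pr T : ℕ) := rfl
  have h4 : C1M.EPs (TZF.P8 z) (C1M.pr T : ℕ)
      = 1 + ∑ U ∈ C1M.NE (TZF.P8 z), C1M.cw U * (HyperWeil.psi (C1M.pr T : ℕ) (C1M.pr U) : ℝ) := by
    linarith
  rw [h3, h4, mul_add, mul_one, Finset.mul_sum]
  congr 1
  refine Finset.sum_congr rfl fun U _ => ?_
  unfold C1M.aa; ring

theorem tight : ∃ C : ℝ, 0 < C ∧ ∀ Y : ℕ, 2 ≤ Y →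
    ∑ a ∈ (PP Y).divisors, Kf a / a ≤ C * DD Y := by
  classical
  obtain ⟨C, hC0, hC⟩ := TZF.RR_bound
  obtain ⟨z0, hz03, hz0⟩ := TZF.growth C hC0.le 1 one_pos
  refine ⟨6 + ∑ z ∈ range z0, |∑ a ∈ (PP z).divisors, Kf a / a|, by positivity, fun Y hY => ?_⟩
  have hDD : 1 ≤ DD Y := one_le_DD Y
  rcases lt_or_ge Y z0 with hlt | hge
  · have h1 : ∑ a ∈ (PP Y).divisors, Kf a / a
        ≤ ∑ z ∈ range z0, |∑ a ∈ (PP z).divisors, Kf a / a| := by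
      refine (le_abs_self _).trans ?_
      exact Finset.single_le_sum (f := fun z => |∑ a ∈ (PP z).divisors, Kf a / a|)
        (fun z _ => abs_nonneg _) (mem_range.mpr hlt)
    have h2 : 0 ≤ ∑ z ∈ range z0, |∑ a ∈ (PP z).divisors, Kf a / a| :=
      Finset.sum_nonneg fun z _ => abs_nonneg _
    nlinarith
  · have hY3 : 3 ≤ Y := hz03.trans hge
    have hR := hC Y hY3 (TZF.P8 Y) (Or.inl rfl)
    have hg := hz0 Y hge
    have hQ1 := TZF.one_le_Q1 Y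
    have hG := TZF.GG_pos Y
    have h1 : ∑ a ∈ (PP Y).divisors, Kf a / a ≤ 2 * TZF.FM Y := by
      rw [sum_divisors_eq]
      unfold TZF.FM
      rw [Finset.mul_sum]
      refine Finset.sum_le_sum fun S hS => ?_
      rw [mem_powerset] at hS
      have hSp : ∀ p ∈ S, p.Prime := fun p hp => (TZF.mem_P8.mp (hS hp)).2.1
      have h2 := (Kf_eq_sum hSp).le
      have h3 : (0 : ℝ) < ((C1M.pr S : ℕ) : ℝ) := by exact_mod_cast C1M.pr_pos hSp
      rw [div_le_iff₀ h3]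
      refine h2.trans (le_of_eq ?_)
      field_simp
    have h2 : TZF.FM Y ≤ TZF.GG Y * (3 * TZF.QQ Y) := by
      rw [TZF.FM_eq]
      refine mul_le_mul_of_nonneg_left ?_ hG.le
      rw [C1M.sum_NE, C1M.cw_empty, one_mul, sum_NE_EP]
      have h3 := TZF.EP_le_QQ Y (C1M.pr ∅ : ℕ)
      have h4 := (abs_le.mp hR).2
      have h5 : ∏ p ∈ TZF.P8 Y, (1 + C1M.cc p) = TZF.QQ Y := rfl
      rw [h5]
      linarith
    have h3 : TZF.GG Y * (3 * TZF.QQ Y) = 3 * DD Y := by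
      rw [DD_eq_ZZ, ← TZF.GG_mul_QQ]; ring
    have h4 : 0 ≤ ∑ z ∈ range z0, |∑ a ∈ (PP z).divisors, Kf a / a| :=
      Finset.sum_nonneg fun z _ => abs_nonneg _
    nlinarith

theorem tight0 (ε : ℝ) (hε : 0 < ε) : ∃ Y0 : ℕ, ∀ Y : ℕ, Y0 ≤ Y →
    ∑ a ∈ (PP Y).divisors, (K0f a - 1) / a ≤ ε * DD Y := by
  classical
  obtain ⟨C, hC0, hC⟩ := TZF.RR_bound
  obtain ⟨z0, hz03, hz0⟩ := TZF.growth C hC0.le ε hε
  refine ⟨z0, fun Y hge => ?_⟩
  have hY3 : 3 ≤ Y := hz03.trans hge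
  have hR := hC Y hY3 _ (Or.inr rfl)
  have hg := hz0 Y hge
  have hG := TZF.GG_pos Y
  set P1 := (TZF.P8 Y).filter (fun p => p % 4 = 1) with hP1
  set h : Finset ℕ → ℝ := fun T => if T ≠ ∅ ∧ ∀ p ∈ T, ¬ p % 4 = 3 then 1 else 0 with hh
  have h1 : ∑ a ∈ (PP Y).divisors, (K0f a - 1) / a
      = ∑ S ∈ (TZF.P8 Y).powerset, ((C1M.pr S : ℕ) : ℝ)⁻¹ * ((2 : ℝ) ^ S.card)⁻¹ *
      ∑ T ∈ S.powerset, h T * ∏ q ∈ S \ T, (1 + (jacobiSym (C1M.pr T : ℕ) q : ℝ)) := by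
    rw [sum_divisors_eq]
    refine Finset.sum_congr rfl fun S hS => ?_
    rw [mem_powerset] at hS
    have hSp : ∀ p ∈ S, p.Prime := fun p hp => (TZF.mem_P8.mp (hS hp)).2.1
    have h2 : K0f (C1M.pr S) - 1 = ((2 : ℝ) ^ S.card)⁻¹ *
        ∑ T ∈ S.powerset, h T * ∏ q ∈ S \ T, (1 + (jacobiSym (C1M.pr T : ℕ) q : ℝ)) := by
      rw [K0f_eq_sum hSp]
      have h3 : ∑ T ∈ S.powerset.filter (fun T => ∀ p ∈ T, ¬ p % 4 = 3),
          ∏ q ∈ S \ T, (1 + (jacobiSym ((C1M.pr T : ℕ) : ℤ) q : ℝ))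
          = 2 ^ S.card + ∑ T ∈ S.powerset, h T * ∏ q ∈ S \ T,
            (1 + (jacobiSym (C1M.pr T : ℕ) q : ℝ)) := by
        rw [Finset.sum_filter]
        rw [C1M.sum_NE, C1M.sum_NE]
        have e1 : h ∅ = 0 := by simp [hh]
        rw [e1, zero_mul, zero_add, if_pos (by simp)]
        congr 1
        · rw [C1M.pr_empty, Finset.sdiff_empty]
          simp only [Nat.cast_one, jacobiSym.one_left, Int.cast_one]
          rw [Finset.prod_const]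
          norm_num
        · refine Finset.sum_congr rfl fun T hT => ?_
          rw [C1M.mem_NE] at hT
          simp only [hh]
          by_cases h5 : ∀ p ∈ T, ¬ p % 4 = 3
          · rw [if_pos h5, if_pos ⟨hT.2, h5⟩, one_mul]
          · rw [if_neg h5, if_neg (fun h6 => h5 h6.2), zero_mul]
      rw [h3, mul_add]
      have h4 : ((2 : ℝ) ^ S.card)⁻¹ * 2 ^ S.card = 1 := inv_mul_cancel₀ (by positivity)
      rw [h4]; ring
    rw [h2]
    ring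
  rw [h1, TZF.FM_eq_gen]
  have h2 : ∑ T ∈ (TZF.P8 Y).powerset, h T * (C1M.cw T * TZF.EP Y (C1M.pr T : ℕ))
      = ∑ T ∈ C1M.NE P1, C1M.cw T * TZF.EP Y (C1M.pr T : ℕ) := by
    have e : C1M.NE P1 = (TZF.P8 Y).powerset.filter (fun T => T ≠ ∅ ∧ ∀ p ∈ T, ¬ p % 4 = 3) := by
      ext T
      rw [C1M.mem_NE, mem_filter, mem_powerset]
      constructor
      · rintro ⟨h3, h4⟩
        refine ⟨fun p hp => (mem_filter.mp (h3 hp)).1, h4, fun p hp => ?_⟩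
        have := (mem_filter.mp (h3 hp)).2
        omega
      · rintro ⟨h3, h4, h5⟩
        refine ⟨fun p hp => ?_, h4⟩
        rw [hP1, mem_filter]
        refine ⟨h3 hp, ?_⟩
        have h6 := (TZF.mem_P8.mp (h3 hp)).2.2
        have h7 := h5 p hp
        omega
    rw [e, Finset.sum_filter]
    refine Finset.sum_congr rfl fun T _ => ?_
    simp only [hh]
    split_ifs <;> ring
  rw [h2, sum_NE_EP]
  have h3 : ∏ p ∈ P1, (1 + C1M.cc p) = TZF.Q1 Y := rfl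
  rw [h3]
  have h4 := (abs_le.mp hR).2
  calc TZF.GG Y * (TZF.Q1 Y - 1 + TZF.RR Y P1) ≤ TZF.GG Y * (ε * TZF.QQ Y) := by
        refine mul_le_mul_of_nonneg_left ?_ hG.le
        linarith
    _ = ε * DD Y := by rw [DD_eq_ZZ, ← TZF.GG_mul_QQ]; ring

end Pool.Agent.TZL
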