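import Pool.Agent.TZL.Defs

set_option autoImplicit false

/-! lower bound for the number of odd squarefree numbers in a class modulo `8` -/

namespace Pool.Agent.TZL

open Pool.Agent.TLW

open Finset

/-- numbers up to `X` in a class modulo `8` -/
private lemma low_up (c Y : ℕ) : (((Icc 1 Y).filter (fun m => m % 8 = c)).card) ≤ Y / 8 + 1 := by
  have h : (Icc 1 Y).filter (fun m => m % 8 = c) ⊆
      (range (Y / 8 + 1)).image (fun k => 8 * k + c) := by
    intro m hm
    rw [mem_filter, mem_Icc] at hm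
    rw [mem_image]
    refine ⟨m / 8, ?_, ?_⟩
    · rw [mem_range]
      have := Nat.div_le_div_right (c := 8) hm.1.2
      omega
    · omega
  calc _ ≤ ((range (Y / 8 + 1)).image (fun k => 8 * k + c)).card := card_le_card h
    _ ≤ (range (Y / 8 + 1)).card := card_image_le
    _ = _ := card_range _

private lemma low_dn (c X : ℕ) (hc : c < 8) :
    X / 8 ≤ ((Icc 1 X).filter (fun m => m % 8 = c)).card + 1 := by
  have h : ((range (X / 8 - 1)).image (fun k => 8 * (k + 1) + c)) ⊆
      (Icc 1 X).filter (fun m => m % 8 = c) := by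
    intro m hm
    rw [mem_image] at hm
    obtain ⟨k, hk, rfl⟩ := hm
    rw [mem_range] at hk
    rw [mem_filter, mem_Icc]
    omega
  have h1 : ((range (X / 8 - 1)).image (fun k => 8 * (k + 1) + c)).card = X / 8 - 1 := by
    rw [card_image_of_injective, card_range]
    intro a b hab
    simp only at hab
    omega
  have := card_le_card h
  rw [h1] at this
  omega

private lemma low_tel (N : ℕ) :
    ∑ k ∈ range N, (1 : ℝ) / ((2 * (k + 1) + 1 : ℕ) : ℝ) ^ 2 ≤ 1 / 4 - 1 / (4 * (N + 1)) := by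
  induction N with
  | zero => norm_num
  | succ N ih =>
    rw [sum_range_succ]
    have h : (1 : ℝ) / ((2 * (N + 1) + 1 : ℕ) : ℝ) ^ 2 ≤
        1 / (4 * (N + 1)) - 1 / (4 * (((N + 1 : ℕ) : ℝ) + 1)) := by
      push_cast
      rw [div_sub_div _ _ (by positivity) (by positivity), div_le_div_iff₀ (by positivity) (by positivity)]
      nlinarith [(Nat.cast_nonneg N : (0 : ℝ) ≤ N)]
    linarith

private lemma low_bad (c X : ℕ) (hc : c % 2 = 1) :
    (((Icc 1 X).filter (fun m => m % 8 = c ∧ ¬ Squarefree m)).card : ℝ) ≤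
      X / 32 + Nat.sqrt X := by
  classical
  have hsub : (Icc 1 X).filter (fun m => m % 8 = c ∧ ¬ Squarefree m) ⊆
      (range (Nat.sqrt X)).biUnion fun k =>
        ((Icc 1 (X / (2 * (k + 1) + 1) ^ 2)).filter (fun m => m % 8 = c)).image
          (fun m => (2 * (k + 1) + 1) ^ 2 * m) := by
    intro m hm
    rw [mem_filter, mem_Icc] at hm
    obtain ⟨⟨h1, h2⟩, h3, h4⟩ := hm
    rw [Nat.squarefree_iff_prime_squarefree] at h4
    push Not at h4
    obtain ⟨p, hp, hpm⟩ := h4
    have hmo : m % 2 = 1 := by omega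
    have hpo : p % 2 = 1 := by
      rcases hp.eq_two_or_odd with h | h
      · subst h
        obtain ⟨t, ht⟩ := hpm
        omega
      · exact h
    have hp3 : 3 ≤ p := by
      have := hp.two_le
      omega
    obtain ⟨t, ht⟩ := hpm
    have ht0 : 1 ≤ t := by
      rcases Nat.eq_zero_or_pos t with h | h
      · subst h; omega
      · exact h
    rw [mem_biUnion]
    refine ⟨(p - 3) / 2, ?_, ?_⟩
    · rw [mem_range]
      have h5 : p * p ≤ X := by
        calc p * p = p * p * 1 := (mul_one _).symm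
          _ ≤ p * p * t := Nat.mul_le_mul_left _ ht0
          _ = m := ht.symm
          _ ≤ X := h2
      have h6 : p ≤ Nat.sqrt X := Nat.le_sqrt.2 h5
      omega
    · have hk : 2 * ((p - 3) / 2 + 1) + 1 = p := by omega
      rw [hk, mem_image]
      refine ⟨t, ?_, by rw [ht]; ring⟩
      rw [mem_filter, mem_Icc]
      refine ⟨⟨ht0, ?_⟩, ?_⟩
      · rw [Nat.le_div_iff_mul_le (by positivity)]
        calc t * p ^ 2 = p * p * t := by ring
          _ = m := ht.symm
          _ ≤ X := h2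
      · have hp8 : (p * p) % 8 = 1 := by
          rw [Nat.mul_mod]
          have : p % 8 = 1 ∨ p % 8 = 3 ∨ p % 8 = 5 ∨ p % 8 = 7 := by omega
          rcases this with h | h | h | h <;> rw [h]
        rw [ht, Nat.mul_mod, hp8, one_mul, Nat.mod_mod] at h3
        exact h3
  have h1 : (((Icc 1 X).filter (fun m => m % 8 = c ∧ ¬ Squarefree m)).card : ℝ) ≤
      ∑ k ∈ range (Nat.sqrt X), ((((Icc 1 (X / (2 * (k + 1) + 1) ^ 2)).filter
        (fun m => m % 8 = c)).card : ℕ) : ℝ) := by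
    have hN : ((Icc 1 X).filter (fun m => m % 8 = c ∧ ¬ Squarefree m)).card ≤
      ∑ k ∈ range (Nat.sqrt X), ((Icc 1 (X / (2 * (k + 1) + 1) ^ 2)).filter
        (fun m => m % 8 = c)).card :=
      (card_le_card hsub).trans (card_biUnion_le.trans (sum_le_sum fun k _ => card_image_le))
    exact_mod_cast hN
  have h2 : ∀ k ∈ range (Nat.sqrt X), ((((Icc 1 (X / (2 * (k + 1) + 1) ^ 2)).filter
        (fun m => m % 8 = c)).card : ℕ) : ℝ) ≤
      (X : ℝ) / 8 * (1 / ((2 * (k + 1) + 1 : ℕ) : ℝ) ^ 2) + 1 := by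
    intro k _
    have h3 := low_up c (X / (2 * (k + 1) + 1) ^ 2)
    have h4 : ((X / (2 * (k + 1) + 1) ^ 2 / 8 : ℕ) : ℝ) ≤
        (X : ℝ) / 8 * (1 / ((2 * (k + 1) + 1 : ℕ) : ℝ) ^ 2) := by
      rw [Nat.div_div_eq_div_mul]
      refine Nat.cast_div_le.trans (le_of_eq ?_)
      push_cast
      field_simp
    calc ((((Icc 1 (X / (2 * (k + 1) + 1) ^ 2)).filter (fun m => m % 8 = c)).card : ℕ) : ℝ)
        ≤ ((X / (2 * (k + 1) + 1) ^ 2 / 8 + 1 : ℕ) : ℝ) := by exact_mod_cast h3
      _ = ((X / (2 * (k + 1) + 1) ^ 2 / 8 : ℕ) : ℝ) + 1 := by push_cast; ring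
      _ ≤ _ := by linarith
  have h3 := low_tel (Nat.sqrt X)
  have h4 : (0 : ℝ) ≤ 1 / (4 * ((Nat.sqrt X : ℝ) + 1)) := by positivity
  calc _ ≤ _ := h1
    _ ≤ ∑ k ∈ range (Nat.sqrt X), ((X : ℝ) / 8 * (1 / ((2 * (k + 1) + 1 : ℕ) : ℝ) ^ 2) + 1) :=
        sum_le_sum h2
    _ = (X : ℝ) / 8 * ∑ k ∈ range (Nat.sqrt X), 1 / ((2 * (k + 1) + 1 : ℕ) : ℝ) ^ 2 +
          Nat.sqrt X := by
        rw [sum_add_distrib, ← mul_sum, sum_const, card_range, nsmul_eq_mul, mul_one]
    _ ≤ (X : ℝ) / 8 * (1 / 4) + Nat.sqrt X := by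
        gcongr
        linarith
    _ = _ := by ring

theorem F_lower (c : ℕ) (hc : c = 1 ∨ c = 3 ∨ c = 5 ∨ c = 7) : ∃ X0 : ℕ, ∀ X : ℕ, X0 ≤ X →
    (X : ℝ) / 32 ≤ (((FF X).filter (fun m => 1 < m ∧ m % 8 = c)).card : ℝ) := by
  classical
  refine ⟨10000, fun X hX => ?_⟩
  have hc8 : c < 8 := by omega
  have hc2 : c % 2 = 1 := by omega
  have h1 := low_dn c X hc8
  have h2 := low_bad c X hc2
  have h3 : ((Icc 1 X).filter (fun m => m % 8 = c)).card ≤
      ((FF X).filter (fun m => 1 < m ∧ m % 8 = c)).card +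
        ((Icc 1 X).filter (fun m => m % 8 = c ∧ ¬ Squarefree m)).card + 1 := by
    have hs : (Icc 1 X).filter (fun m => m % 8 = c) ⊆
        ((FF X).filter (fun m => 1 < m ∧ m % 8 = c) ∪
          (Icc 1 X).filter (fun m => m % 8 = c ∧ ¬ Squarefree m)) ∪ {1} := by
      intro m hm
      rw [mem_filter, mem_Icc] at hm
      rw [mem_union, mem_union, mem_singleton]
      by_cases hm1 : m = 1
      · exact Or.inr hm1
      left
      by_cases hs : Squarefree m
      · left
        rw [mem_filter, FF, mem_filter, mem_Icc]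
        refine ⟨⟨hm.1, hs, fun p hp => ?_⟩, by omega, hm.2⟩
        have hp1 := Nat.prime_of_mem_primeFactors hp
        rcases hp1.eq_two_or_odd with h | h
        · subst h
          have := Nat.dvd_of_mem_primeFactors hp
          omega
        · exact h
      · right
        rw [mem_filter, mem_Icc]
        exact ⟨hm.1, hm.2, hs⟩
    calc _ ≤ _ := card_le_card hs
      _ ≤ _ := card_union_le _ _
      _ ≤ _ := by
        rw [card_singleton]
        exact Nat.add_le_add_right (card_union_le _ _) 1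
  have h4 : (X : ℝ) / 8 - 1 ≤ ((X / 8 : ℕ) : ℝ) := by
    have := Nat.lt_floor_add_one ((X : ℝ) / 8)
    have h5 : ⌊(X : ℝ) / 8⌋₊ = X / 8 := by
      have := Nat.floor_div_natCast (K := ℝ) (X : ℝ) 8
      rw [Nat.floor_natCast] at this
      exact_mod_cast this
    rw [h5] at this
    linarith
  have h5 : (Nat.sqrt X : ℝ) ≤ X / 100 := by
    have h6 : (Nat.sqrt X : ℝ) * Nat.sqrt X ≤ X := by exact_mod_cast Nat.sqrt_le X
    have h7 : (100 : ℝ) ≤ Nat.sqrt X := by
      have : 100 ≤ Nat.sqrt X := Nat.le_sqrt.2 (by omega)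
      exact_mod_cast this
    rw [le_div_iff₀ (by norm_num)]
    nlinarith
  have h6 : ((X / 8 : ℕ) : ℝ) ≤ (((FF X).filter (fun m => 1 < m ∧ m % 8 = c)).card : ℝ) +
        (((Icc 1 X).filter (fun m => m % 8 = c ∧ ¬ Squarefree m)).card : ℝ) + 2 := by
    have : X / 8 ≤ ((FF X).filter (fun m => 1 < m ∧ m % 8 = c)).card +
        ((Icc 1 X).filter (fun m => m % 8 = c ∧ ¬ Squarefree m)).card + 2 := by omega
    exact_mod_cast this
  have hXr : (10000 : ℝ) ≤ X := by exact_mod_cast hX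
  linarith

end Pool.Agent.TZL
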