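import Pool.Agent.TZL.Asm
import Pool.Agent.TZL.Low
import Pool.Agent.TZL.Few
import Pool.Agent.TZL.Ksm

set_option autoImplicit false

/-! the density theorem -/

namespace Pool.Agent.TZL

open Pool.Agent.TLW

open Finset Filter Topology

theorem exists_root (k X : ℕ) (hk : 1 ≤ k) : ∃ z : ℕ, z ^ k ≤ X ∧ X < (z + 1) ^ k := by
  classical
  set z := Nat.findGreatest (fun z => z ^ k ≤ X) X with hz
  have h0 : (fun z : ℕ => z ^ k ≤ X) 0 := by
    simp only
    rw [zero_pow (by omega)]
    exact Nat.zero_le _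
  have h1 : z ^ k ≤ X := Nat.findGreatest_spec (P := fun z => z ^ k ≤ X) (Nat.zero_le X) h0
  refine ⟨z, h1, ?_⟩
  by_contra hcon
  push Not at hcon
  have h2 : z + 1 ≤ X := by
    calc z + 1 = (z + 1) ^ 1 := (pow_one _).symm
      _ ≤ (z + 1) ^ k := Nat.pow_le_pow_right (by omega) hk
      _ ≤ X := hcon
  have h3 := Nat.findGreatest_is_greatest (P := fun z => z ^ k ≤ X) (n := X) (k := z + 1)
    (by omega) h2
  exact h3 hcon

theorem abs_g_sub {g : ℕ → ℝ} (h : ∀ m, 0 ≤ g m ∧ g m ≤ 1) (m : ℕ) : |g m - Pinf| ≤ 1 := by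
  obtain ⟨h1, h2⟩ := h m
  have h3 := Pinf_pos
  have h4 := Pinf_le_one
  rw [abs_le]
  constructor <;> linarith

/-- The law: the sum of `g - Pinf` over the class is `o(X)`. -/
theorem dens {c0 : ℕ} {e0 f0 L0 : ZMod 2} {g : ℕ → ℝ} (hd : Dig c0 e0 f0 L0 g) (ε : ℝ)
    (hε : 0 < ε) : ∃ X0 : ℕ, ∀ X : ℕ, X0 ≤ X →
    |∑ n ∈ (FF X).filter (fun m => 1 < m ∧ m % 8 = c0), (g n - Pinf)| ≤ ε * X := by
  classical
  obtain ⟨CY, hCY, hyard⟩ := yard_le
  obtain ⟨C, hC, hKs⟩ := Kf_smo_sum
  set e : ℝ := ε / (3 * CY) with he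
  have he0 : 0 < e := by positivity
  -- the number J0
  obtain ⟨J0, hJ0⟩ : ∃ J0 : ℕ, 1 ≤ J0 ∧ C * (1 / 2 : ℝ) ^ J0 ≤ e := by
    have h1 : Tendsto (fun n : ℕ => C * (1 / 2 : ℝ) ^ n) atTop (𝓝 (C * 0)) :=
      (tendsto_pow_atTop_nhds_zero_of_lt_one (by norm_num) (by norm_num)).const_mul C
    rw [mul_zero] at h1
    have h2 := (h1.eventually (gt_mem_nhds he0)).and (eventually_ge_atTop 1)
    obtain ⟨n, hn, hn1⟩ := h2.exists
    exact ⟨n, hn1, hn.le⟩
  obtain ⟨hJ1, hJ2⟩ := hJ0
  obtain ⟨k, hk, X1, hfew⟩ := few_big e he0 J0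
  have hk0 : (0 : ℝ) < k := by exact_mod_cast hk
  obtain ⟨X2, hasm⟩ := asm hd k hk (e / k) (by positivity)
  refine ⟨max X1 (max X2 (max (2 ^ k) 3)), fun X hX => ?_⟩
  simp only [max_le_iff] at hX
  obtain ⟨hX1, hX2, hXk, hX3⟩ := hX
  obtain ⟨z, hz1, hz2⟩ := exists_root k X hk
  have hz : 2 ≤ z := by
    by_contra hcon
    push Not at hcon
    have : (z + 1) ^ k ≤ 2 ^ k := Nat.pow_le_pow_left (by omega) k
    omega
  set S : Finset ℕ := (FF X).filter (fun m => 1 < m ∧ m % 8 = c0) with hS
  set D : ℝ := ((X : ℝ) / Real.log X) * DD X with hD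
  have hXr : (3 : ℝ) ≤ X := by exact_mod_cast hX3
  have hlog : 0 < Real.log X := Real.log_pos (by linarith)
  have hDD : (1 : ℝ) ≤ DD X := one_le_DD X
  have hD0 : 0 < D := by
    rw [hD]
    have : 0 < (X : ℝ) / Real.log X := by positivity
    positivity
  have hfew' : (((FF X).filter (fun m => big z m < J0)).card : ℝ) ≤ e * D := by
    have := hfew X hX1 z hz1 hz2
    rw [hD, ← mul_assoc]
    exact this
  have hKs' : ∑ m ∈ FF X, Kf (smo z m) ≤ C * D := by
    have := hKs z X hz (by omega)
    rw [hD, ← mul_assoc]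
    exact this
  -- split according to the number of large primes
  have hbig : ∀ n ∈ S, big z n ∈ range k := by
    intro n hn
    rw [mem_range]
    exact big_lt X z k n hz2 (mem_filter.mp hn).1
  have hsplit : ∑ n ∈ S, (g n - Pinf) =
      ∑ J ∈ range k, ∑ n ∈ S.filter (fun n => big z n = J), (g n - Pinf) :=
    (Finset.sum_fiberwise_of_maps_to hbig _).symm
  have hterm : ∀ J ∈ range k, |∑ n ∈ S.filter (fun n => big z n = J), (g n - Pinf)| ≤
      e / k * D + (∑ n ∈ (FF X).filter (fun n => big z n = J), Kf (smo z n)) * (1 / 2) ^ J0 +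
        (((FF X).filter (fun m => big z m < J0 ∧ big z m = J)).card : ℝ) := by
    intro J hJ
    rw [mem_range] at hJ
    have hK0 : 0 ≤ ∑ n ∈ (FF X).filter (fun n => big z n = J), Kf (smo z n) :=
      sum_nonneg fun n _ => le_trans zero_le_one (one_le_Kf _)
    by_cases hJJ : J < J0
    · have h1 : |∑ n ∈ S.filter (fun n => big z n = J), (g n - Pinf)| ≤
          (((FF X).filter (fun m => big z m < J0 ∧ big z m = J)).card : ℝ) := by
        refine (Finset.abs_sum_le_sum_abs _ _).trans ?_
        refine (sum_le_sum fun n _ => abs_g_sub hd.g01 n).trans ?_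
        rw [Finset.sum_const, nsmul_eq_mul, mul_one]
        have : S.filter (fun n => big z n = J) ⊆
            (FF X).filter (fun m => big z m < J0 ∧ big z m = J) := by
          intro n hn
          rw [mem_filter, hS, mem_filter] at hn
          rw [mem_filter]
          exact ⟨hn.1.1, by rw [hn.2]; exact hJJ, hn.2⟩
        exact_mod_cast Finset.card_le_card this
      have h2 : 0 ≤ e / k * D := by positivity
      have h3 : 0 ≤ (∑ n ∈ (FF X).filter (fun n => big z n = J), Kf (smo z n)) * (1 / 2) ^ J0 := by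
        positivity
      linarith
    · push Not at hJJ
      have h1 := hasm X hX2 z hz1 hz2 J (by omega) hJ
      have hfil : (FF X).filter (fun n => big z n = J ∧ n % 8 = c0) =
          S.filter (fun n => big z n = J) := by
        ext n
        rw [mem_filter, mem_filter, hS, mem_filter]
        constructor
        · rintro ⟨h2, h3, h4⟩
          refine ⟨⟨h2, ?_, h4⟩, h3⟩
          have hn1 : 1 ≤ n := (mem_Icc.mp (mem_filter.mp h2).1).1
          by_contra hcon
          have : n = 1 := by omega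
          subst this
          have : big z 1 = 0 := by simp [big]
          omega
        · rintro ⟨⟨h2, h3, h4⟩, h5⟩
          exact ⟨h2, h5, h4⟩
      rw [hfil] at h1
      have h2 : |(∑ n ∈ (FF X).filter (fun n => big z n = J),
          (Gf e0 f0 L0 (J - 1) (smo z n) - Pinf)) / 4| ≤ (∑ n ∈ (FF X).filter (fun n => big z n = J), Kf (smo z n)) * (1 / 2) ^ J0 := by
        rw [abs_div, abs_of_pos (show (0 : ℝ) < 4 by norm_num)]
        have h3 : |∑ n ∈ (FF X).filter (fun n => big z n = J),
            (Gf e0 f0 L0 (J - 1) (smo z n) - Pinf)| ≤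
            (∑ n ∈ (FF X).filter (fun n => big z n = J), Kf (smo z n)) * (1 / 2) ^ (J - 1) := by
          refine (Finset.abs_sum_le_sum_abs _ _).trans ?_
          rw [Finset.sum_mul]
          refine sum_le_sum fun n _ => ?_
          refine (Gf_bound e0 f0 L0 (J - 1) (smo z n)).trans (le_of_eq ?_)
          rw [div_eq_mul_inv, one_div, inv_pow]
        have h4 : ((1 : ℝ) / 2) ^ (J - 1) ≤ (1 / 2) ^ (J0 - 1) :=
          pow_le_pow_of_le_one (by norm_num) (by norm_num) (by omega)
        have h5 : ((1 : ℝ) / 2) ^ (J0 - 1) = 2 * (1 / 2) ^ J0 := by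
          obtain ⟨j, rfl⟩ : ∃ j, J0 = j + 1 := ⟨J0 - 1, by omega⟩
          rw [Nat.add_sub_cancel, pow_succ]; ring
        have h6 := mul_le_mul_of_nonneg_left h4 hK0
        rw [h5] at h6
        have h7 : 0 ≤ (∑ n ∈ (FF X).filter (fun n => big z n = J), Kf (smo z n)) *
            (1 / 2) ^ J0 := by positivity
        linarith
      have h3 : |∑ n ∈ S.filter (fun n => big z n = J), (g n - Pinf)| ≤ e / k * D +
          (∑ n ∈ (FF X).filter (fun n => big z n = J), Kf (smo z n)) * (1 / 2) ^ J0 := by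
        have h4 : e / k * ((X : ℝ) / Real.log X) * DD X = e / k * D := by rw [hD]; ring
        rw [h4] at h1
        set A := ∑ n ∈ S.filter (fun n => big z n = J), (g n - Pinf) with hA
        set Bq := (∑ n ∈ (FF X).filter (fun n => big z n = J), (Gf e0 f0 L0 (J - 1) (smo z n) - Pinf)) / 4
        calc |A| = |(A - Bq) + Bq| := by ring_nf
          _ ≤ |A - Bq| + |Bq| := abs_add_le _ _
          _ ≤ _ := add_le_add h1 h2
      have h4 : (0 : ℝ) ≤ (((FF X).filter (fun m => big z m < J0 ∧ big z m = J)).card : ℝ) :=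
        Nat.cast_nonneg _
      linarith
  have htot : |∑ n ∈ S, (g n - Pinf)| ≤ 3 * e * D := by
    rw [hsplit]
    refine (Finset.abs_sum_le_sum_abs _ _).trans ?_
    refine (sum_le_sum hterm).trans ?_
    rw [Finset.sum_add_distrib, Finset.sum_add_distrib]
    have h1 : ∑ J ∈ range k, e / k * D = e * D := by
      rw [Finset.sum_const, card_range, nsmul_eq_mul]
      field_simp
    have hmaps : ∀ n ∈ FF X, big z n ∈ range k := fun n hn => by
      rw [mem_range]; exact big_lt X z k n hz2 hn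
    have h2 : ∑ J ∈ range k, ∑ n ∈ (FF X).filter (fun n => big z n = J), Kf (smo z n) =
        ∑ n ∈ FF X, Kf (smo z n) := Finset.sum_fiberwise_of_maps_to hmaps _
    have h3 : ∑ J ∈ range k, (((FF X).filter (fun m => big z m < J0 ∧ big z m = J)).card : ℝ) =
        (((FF X).filter (fun m => big z m < J0)).card : ℝ) := by
      have h4 : ∀ J ∈ range k, (((FF X).filter (fun m => big z m < J0 ∧ big z m = J)).card : ℝ) =
          ((((FF X).filter (fun m => big z m < J0)).filter (fun m => big z m = J)).card : ℝ) := by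
        intro J _
        rw [Finset.filter_filter]
      rw [Finset.sum_congr rfl h4]
      have h5 := Finset.card_eq_sum_card_fiberwise (f := big z)
        (s := (FF X).filter (fun m => big z m < J0)) (t := range k)
        (fun n hn => hmaps n (mem_filter.mp hn).1)
      rw [h5]
      push_cast
      rfl
    rw [h1, ← Finset.sum_mul, h2, h3]
    have h4 : (∑ n ∈ FF X, Kf (smo z n)) * (1 / 2) ^ J0 ≤ e * D := by
      calc (∑ n ∈ FF X, Kf (smo z n)) * (1 / 2) ^ J0 ≤ C * D * (1 / 2) ^ J0 := by gcongr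
        _ = C * (1 / 2) ^ J0 * D := by ring
        _ ≤ e * D := by gcongr
    linarith
  refine htot.trans ?_
  have hy := hyard X (by omega)
  rw [← hD] at hy
  calc 3 * e * D ≤ 3 * e * (CY * X) := by gcongr
    _ = ε * X := by rw [he]; field_simp

end Pool.Agent.TZL
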