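import Mathlib
import Pool.Agent.TZL.FMe

set_option autoImplicit false

/-!
# The mean of the affine kernel count (twist by `(2/.)`)
-/

namespace Pool.Agent.TZF

open Finset Pool.Agent.HyperWeil Pool.Agent.C1M

open Pool.Agent.TLW (sg MM sy)

section LA

variable {ι : Type*} [Fintype ι] [DecidableEq ι]

lemma sum_u_count2 (R : ι → ι → ZMod 2) (l y : ι → ZMod 2) :
    ∑ u : ι → ZMod 2, (if (∀ i, (MM R u).mulVec y i + l i = 0) then (1 : ℝ) else 0)
      = ∏ i ∈ univ.filter (fun i => y i = 0),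
        (1 + sg (∑ j ∈ univ.erase i, R i j * y j + l i)) := by
  have h1 : ∀ u : ι → ZMod 2, (if (∀ i, (MM R u).mulVec y i + l i = 0) then (1 : ℝ) else 0)
      = ∏ i, (if u i * y i + (∑ j ∈ univ.erase i, R i j * y j + l i) = 0 then (1 : ℝ) else 0) := by
    intro u
    rw [Finset.prod_ite_zero]
    simp only [Finset.prod_const_one]
    congr 1
    simp only [MM_mulVec, Finset.mem_univ, true_imp_iff, add_assoc]
  rw [Finset.sum_congr rfl fun u _ => h1 u]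
  have h2 := Finset.prod_univ_sum (fun _ : ι => (univ : Finset (ZMod 2)))
    (fun i x => (if x * y i + (∑ j ∈ univ.erase i, R i j * y j + l i) = 0 then (1 : ℝ) else 0))
  rw [Fintype.piFinset_univ] at h2
  rw [← h2, Finset.prod_filter]
  refine Finset.prod_congr rfl fun i _ => ?_
  rw [sum_one]

lemma sum_u_card2 (R : ι → ι → ZMod 2) (l : ι → ZMod 2) (P : (ι → ZMod 2) → Prop)
    [DecidablePred P] :
    ∑ u : ι → ZMod 2, (((univ.filter fun y : ι → ZMod 2 =>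
      P y ∧ ∀ i, (MM R u).mulVec y i + l i = 0).card : ℕ) : ℝ)
      = ∑ y ∈ univ.filter P, ∏ i ∈ univ.filter (fun i => y i = 0),
        (1 + sg (∑ j ∈ univ.erase i, R i j * y j + l i)) := by
  have h1 : ∀ u : ι → ZMod 2,
      (((univ.filter fun y : ι → ZMod 2 =>
        P y ∧ ∀ i, (MM R u).mulVec y i + l i = 0).card : ℕ) : ℝ)
      = ∑ y ∈ univ.filter P, (if (∀ i, (MM R u).mulVec y i + l i = 0) then (1 : ℝ) else 0) := by
    intro u
    rw [← Finset.filter_filter, Finset.card_filter]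
    push_cast
    rfl
  rw [Finset.sum_congr rfl fun u _ => h1 u, Finset.sum_comm]
  refine Finset.sum_congr rfl fun y _ => ?_
  rw [sum_u_count2]

end LA

/-- the product for the indicator of `T` -/
lemma prod_ind2 {S T : Finset ℕ} (hS : ∀ p ∈ S, p.Prime) (hT : T ⊆ S) {lam : ℕ → ZMod 2}
    (hl : ∀ p ∈ S, sg (lam p) = (jacobiSym 2 p : ℝ)) :
    ∏ i ∈ univ.filter (fun i : {x // x ∈ S} => (if (i : ℕ) ∈ T then (1 : ZMod 2) else 0) = 0),
        (1 + sg (∑ j ∈ univ.erase i, sy (i : ℕ) (j : ℕ) * (if (j : ℕ) ∈ T then (1 : ZMod 2) else 0)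
          + lam (i : ℕ)))
      = ∏ q ∈ S \ T, (1 + (jacobiSym (2 * ((pr T : ℕ) : ℤ)) q : ℝ)) := by
  classical
  have h10 : (1 : ZMod 2) ≠ 0 := by decide
  have e1 : ∀ i ∈ univ.filter (fun i : {x // x ∈ S} => (if (i : ℕ) ∈ T then (1 : ZMod 2) else 0) = 0),
      (1 + sg (∑ j ∈ univ.erase i, sy (i : ℕ) (j : ℕ) * (if (j : ℕ) ∈ T then (1 : ZMod 2) else 0)
        + lam (i : ℕ)))
      = (fun q : ℕ => 1 + (jacobiSym (2 * ((pr T : ℕ) : ℤ)) q : ℝ)) (i : ℕ) := by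
    intro i hi
    rw [mem_filter] at hi
    have hiT : (i : ℕ) ∉ T := by
      intro h
      rw [if_pos h] at hi
      exact h10 hi.2
    simp only
    congr 1
    rw [sgm_add, sgm_sum, hl _ i.2]
    have e2 : ∏ j ∈ univ.erase i, sg (sy (i : ℕ) (j : ℕ) * (if (j : ℕ) ∈ T then (1 : ZMod 2) else 0))
        = ∏ j : {x // x ∈ S}, (if (j : ℕ) ∈ T then (jacobiSym ((j : ℕ) : ℤ) (i : ℕ) : ℝ) else 1) := by
      rw [← Finset.mul_prod_erase univ _ (Finset.mem_univ i), if_neg hiT, one_mul]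
      refine Finset.prod_congr rfl fun j hj => ?_
      have hne : j ≠ i := Finset.ne_of_mem_erase hj
      split_ifs with h
      · rw [mul_one]
        exact sg_sy (hS _ j.2) (hS _ i.2) (fun hh => hne (Subtype.ext hh))
      · rw [mul_zero]; simp [sg]
    rw [e2, Finset.prod_coe_sort_eq_attach]
    rw [Finset.prod_attach S (fun j => if j ∈ T then (jacobiSym (j : ℤ) (i : ℕ) : ℝ) else 1)]
    rw [Finset.prod_ite_mem, Finset.inter_eq_right.mpr hT, jacobiSym.mul_left, jac_pr]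
    push_cast
    ring
  rw [Finset.prod_congr rfl e1]
  have hmap : (univ.filter (fun i : {x // x ∈ S} => (if (i : ℕ) ∈ T then (1 : ZMod 2) else 0) = 0)).map
      (Function.Embedding.subtype _) = S \ T := by
    ext p
    rw [Finset.mem_map, Finset.mem_sdiff]
    constructor
    · rintro ⟨j, hj, hji⟩
      rw [mem_filter] at hj
      have hjp : (j : ℕ) = p := hji
      refine ⟨by rw [← hjp]; exact j.2, fun hp => ?_⟩
      rw [← hjp] at hp
      have h3 := hj.2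
      rw [if_pos hp] at h3
      exact h10 h3
    · rintro ⟨h1, h2⟩
      refine ⟨⟨p, h1⟩, mem_filter.mpr ⟨mem_univ _, ?_⟩, rfl⟩
      simp only [h2, if_false]
  rw [← hmap, Finset.prod_map]
  rfl

/-- **The mean of a restricted affine kernel count as a sum over subsets.** -/
theorem mean_card2 (S : Finset ℕ) (hS : ∀ p ∈ S, p.Prime) (lam : ℕ → ZMod 2)
    (hl : ∀ p ∈ S, sg (lam p) = (jacobiSym 2 p : ℝ)) (P : ({x // x ∈ S} → ZMod 2) → Prop)
    [DecidablePred P] :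
    (∑ u : {x // x ∈ S} → ZMod 2, (((univ.filter fun y : {x // x ∈ S} → ZMod 2 =>
      P y ∧ ∀ i, (MM (fun i j : {x // x ∈ S} => sy (i : ℕ) (j : ℕ)) u).mulVec y i
        + lam (i : ℕ) = 0).card : ℕ) : ℝ)) / 2 ^ Fintype.card {x // x ∈ S}
      = ((2 : ℝ) ^ S.card)⁻¹ *
        ∑ T ∈ S.powerset.filter (fun T => P (fun i => if (i : ℕ) ∈ T then 1 else 0)),
          ∏ q ∈ S \ T, (1 + (jacobiSym (2 * ((pr T : ℕ) : ℤ)) q : ℝ)) := by
  rw [sum_u_card2 _ (fun i : {x // x ∈ S} => lam (i : ℕ)), sum_fun_eq_sum_powerset S P,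
    Fintype.card_coe, div_eq_inv_mul]
  congr 1
  refine Finset.sum_congr rfl fun T hT => ?_
  rw [mem_filter, mem_powerset] at hT
  exact prod_ind2 hS hT.1 hl

lemma psi_two_pr_self {T : Finset ℕ} {p : ℕ} (hp : p.Prime) (hpT : p ∈ T) :
    psi (2 * ((pr T : ℕ) : ℤ)) p = 0 := by
  rw [psi_mul_left, psi_pr_self hp hpT, mul_zero]

/-- The identity with an arbitrary weight on the inner set, twisted. -/
lemma FM_eq_gen2 (z : ℕ) (h : Finset ℕ → ℝ) :
    ∑ S ∈ (P8 z).powerset, ((pr S : ℕ) : ℝ)⁻¹ * ((2 : ℝ) ^ S.card)⁻¹ *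
      ∑ T ∈ S.powerset, h T * ∏ q ∈ S \ T, (1 + (jacobiSym (2 * ((pr T : ℕ) : ℤ)) q : ℝ))
      = GG z * ∑ T ∈ (P8 z).powerset, h T * (cw T * EP z (2 * ((pr T : ℕ) : ℤ))) := by
  simp only [Finset.mul_sum]
  rw [sum_powerset_powerset]
  refine Finset.sum_congr rfl fun T hT => ?_
  rw [mem_powerset] at hT
  set D : ℤ := 2 * ((pr T : ℕ) : ℤ) with hD
  have hdisj : ∀ R ∈ (P8 z \ T).powerset, Disjoint T R := by
    intro R hR
    rw [mem_powerset] at hR
    rw [Finset.disjoint_left]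
    intro x hx hxR
    exact (Finset.mem_sdiff.mp (hR hxR)).2 hx
  have h1 : ∀ R ∈ (P8 z \ T).powerset,
      ((pr (T ∪ R) : ℕ) : ℝ)⁻¹ * ((2 : ℝ) ^ (T ∪ R).card)⁻¹ *
        (h T * ∏ q ∈ (T ∪ R) \ T, (1 + (jacobiSym D q : ℝ)))
      = (h T * ∏ p ∈ T, (1 / (2 * (p : ℝ)))) *
        ∏ p ∈ R, (1 / (2 * (p : ℝ)) * (1 + (psi D p : ℝ))) := by
    intro R hR
    have hd := hdisj R hR
    rw [Finset.union_sdiff_cancel_left hd]
    have h2 : ((pr (T ∪ R) : ℕ) : ℝ)⁻¹ * ((2 : ℝ) ^ (T ∪ R).card)⁻¹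
        = ∏ p ∈ T ∪ R, (1 / (2 * (p : ℝ))) := by
      unfold pr
      rw [Nat.cast_prod, ← Finset.prod_inv_distrib, ← Finset.prod_const, ← Finset.prod_inv_distrib,
        ← Finset.prod_mul_distrib]
      refine Finset.prod_congr rfl fun p _ => ?_
      rw [one_div, mul_inv]; ring
    rw [h2, Finset.prod_union hd]
    have h3 : ∏ q ∈ R, (1 + (jacobiSym D q : ℝ)) = ∏ q ∈ R, (1 + (psi D q : ℝ)) := by
      refine Finset.prod_congr rfl fun p hp => ?_
      rw [mem_powerset] at hR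
      rw [psi_eq_jac (z := z) (Finset.mem_sdiff.mp (hR hp)).1]
    rw [h3, Finset.prod_mul_distrib (s := R)]
    ring
  rw [Finset.sum_congr rfl h1, ← Finset.mul_sum, ← Finset.prod_one_add]
  unfold GG EP cw
  have h3 : ∀ f : ℕ → ℝ, ∏ p ∈ P8 z, f p = (∏ p ∈ T, f p) * ∏ p ∈ P8 z \ T, f p := by
    intro f
    rw [mul_comm, Finset.prod_sdiff hT]
  rw [h3 (fun p => 1 + 1 / (2 * (p : ℝ))), h3 (fun p => 1 + cc p * (psi D p : ℝ))]
  have h4 : ∏ p ∈ T, (1 + cc p * (psi D p : ℝ)) = 1 := by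
    refine Finset.prod_eq_one fun p hp => ?_
    rw [hD, psi_two_pr_self (mem_P8.mp (hT hp)).2.1 hp]
    simp
  rw [h4, one_mul]
  have h5 : (∏ p ∈ T, (1 / (2 * (p : ℝ)))) = (∏ p ∈ T, (1 + 1 / (2 * (p : ℝ)))) * ∏ p ∈ T, cc p := by
    rw [← Finset.prod_mul_distrib]
    refine Finset.prod_congr rfl fun p hp => ?_
    have : (0 : ℝ) < p := by exact_mod_cast (mem_P8.mp (hT hp)).2.1.pos
    unfold cc
    field_simp
  have h6 : ∏ p ∈ P8 z \ T, (1 + 1 / (2 * (p : ℝ)) * (1 + (psi D p : ℝ)))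
      = (∏ p ∈ P8 z \ T, (1 + 1 / (2 * (p : ℝ)))) *
        ∏ p ∈ P8 z \ T, (1 + cc p * (psi D p : ℝ)) := by
    rw [← Finset.prod_mul_distrib]
    refine Finset.prod_congr rfl fun p hp => ?_
    have : (0 : ℝ) < p := by exact_mod_cast (mem_P8.mp (Finset.mem_sdiff.mp hp).1).2.1.pos
    unfold cc
    field_simp
    ring
  rw [h5, h6]
  ring

/-- The sum over nonempty sets, twisted. -/
lemma sum_NE_EP2 (z : ℕ) (P : Finset ℕ) :
    ∑ T ∈ NE P, cw T * EP z (2 * ((pr T : ℕ) : ℤ))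
      = (∏ p ∈ P, (1 + cc p) - 1) + RE z P := by
  have h1 : ∏ p ∈ P, (1 + cc p) - 1 = ∑ T ∈ NE P, cw T := by
    rw [Finset.prod_one_add]
    have := sum_NE P (fun T => cw T)
    rw [cw_empty] at this
    unfold cw at this ⊢
    rw [this]; ring
  rw [h1]
  unfold RE
  rw [← Finset.sum_add_distrib]
  refine Finset.sum_congr rfl fun T _ => ?_
  have h2 := EPs_sub_one (P8 z) (2 * ((pr T : ℕ) : ℤ))
  have h3 : EP z (2 * ((pr T : ℕ) : ℤ)) = EPs (P8 z) (2 * ((pr T : ℕ) : ℤ)) := rfl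
  have h4 : EPs (P8 z) (2 * ((pr T : ℕ) : ℤ))
      = 1 + ∑ U ∈ NE (P8 z), cw U * (psi (2 * ((pr T : ℕ) : ℤ)) (pr U) : ℝ) := by
    linarith
  rw [h3, h4, mul_add, mul_one, Finset.mul_sum]
  congr 1
  refine Finset.sum_congr rfl fun U _ => ?_
  unfold ab; ring

end Pool.Agent.TZF
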