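import Pool.Agent.TZL.Tight
import Pool.Agent.TZL.MCe

set_option autoImplicit false

/-! the first moment for the even discriminants: `K0e`, `tight0e` -/

namespace Pool.Agent.TZL

open Finset Pool.Agent.TLW

section
variable {ι : Type*} [Fintype ι] [DecidableEq ι]

/-- number of pairs `(y, t)`, `y` supported off `s`, with `MM R u y = t l` -/
noncomputable def zE (R : ι → ι → ZMod 2) (s l u : ι → ZMod 2) : ℕ :=
  (univ.filter fun v : Option ι → ZMod 2 => (∀ i, s i = 1 → v (some i) = 0) ∧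
    ∀ i, ∑ j, MM R u i j * v (some j) + l i * v none = 0).card

/-- mean of `zE` over `u` -/
noncomputable def K0e (R : ι → ι → ZMod 2) (s l : ι → ZMod 2) : ℝ :=
  (∑ u : ι → ZMod 2, (zE R s l u : ℝ)) / 2 ^ Fintype.card ι

/-- the affine part: `y` supported off `s` with `MM R u y = l` -/
def zL (R : ι → ι → ZMod 2) (s l u : ι → ZMod 2) : ℕ :=
  (univ.filter fun y : ι → ZMod 2 => (∀ i, s i = 1 → y i = 0) ∧
    ∀ i, (MM R u).mulVec y i + l i = 0).card

lemma zE_split (R : ι → ι → ZMod 2) (s l u : ι → ZMod 2) :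
    zE R s l u = zN R s u + zL R s l u := by
  classical
  have h10 : (1 : ZMod 2) ≠ 0 := by decide
  unfold zE zN zL
  rw [Finset.card_eq_sum_card_fiberwise (f := fun v : Option ι → ZMod 2 => v none) (t := univ)
    (fun x _ => mem_univ _)]
  have hs : ∀ f : ZMod 2 → ℕ, ∑ x : ZMod 2, f x = f 0 + f 1 := fun f => Fin.sum_univ_two f
  rw [hs]
  congr 1
  · refine Finset.card_nbij' (fun v j => v (some j)) (fun y => fun o => o.elim 0 y) ?_ ?_ ?_ ?_
    · intro v hv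
      simp only [Finset.mem_coe, Finset.mem_filter, Finset.mem_univ, true_and] at hv ⊢
      refine ⟨hv.1.1, ?_⟩
      funext i
      have h1 := hv.1.2 i
      rw [hv.2, mul_zero, add_zero] at h1
      exact h1
    · intro y hy
      simp only [Finset.mem_coe, Finset.mem_filter, Finset.mem_univ, true_and] at hy ⊢
      refine ⟨⟨hy.1, fun i => ?_⟩, rfl⟩
      have h1 := congrFun hy.2 i
      change ∑ j, MM R u i j * y j + l i * 0 = 0
      rw [mul_zero, add_zero]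
      exact h1
    · intro v hv
      simp only [Finset.mem_coe, Finset.mem_filter, Finset.mem_univ, true_and] at hv
      funext o
      rcases o with _ | j
      · exact hv.2.symm
      · rfl
    · intro y _
      rfl
  · refine Finset.card_nbij' (fun v j => v (some j)) (fun y => fun o => o.elim 1 y) ?_ ?_ ?_ ?_
    · intro v hv
      simp only [Finset.mem_coe, Finset.mem_filter, Finset.mem_univ, true_and] at hv ⊢
      refine ⟨hv.1.1, fun i => ?_⟩
      have h1 := hv.1.2 i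
      rw [hv.2, mul_one] at h1
      exact h1
    · intro y hy
      simp only [Finset.mem_coe, Finset.mem_filter, Finset.mem_univ, true_and] at hy ⊢
      refine ⟨⟨hy.1, fun i => ?_⟩, rfl⟩
      have h1 := hy.2 i
      change ∑ j, MM R u i j * y j + l i * 1 = 0
      rw [mul_one]
      exact h1
    · intro v hv
      simp only [Finset.mem_coe, Finset.mem_filter, Finset.mem_univ, true_and] at hv
      funext o
      rcases o with _ | j
      · exact hv.2.symm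
      · rfl
    · intro y _
      rfl

lemma K0e_split (R : ι → ι → ZMod 2) (s l : ι → ZMod 2) :
    K0e R s l = K0 R s + (∑ u : ι → ZMod 2, (zL R s l u : ℝ)) / 2 ^ Fintype.card ι := by
  unfold K0e K0
  rw [← add_div, ← Finset.sum_add_distrib]
  congr 1
  refine Finset.sum_congr rfl fun u _ => ?_
  rw [zE_split]
  push_cast
  rfl

end

/-- `K0e(a)` -/
noncomputable def K0ef (a : ℕ) : ℝ := K0e (Ra a) (sa a) (la a)

/-- the affine part of `K0e(a)` -/
noncomputable def KLf (a : ℕ) : ℝ :=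
  (∑ u : Ix a → ZMod 2, (zL (Ra a) (sa a) (la a) u : ℝ)) / 2 ^ Fintype.card (Ix a)

lemma K0ef_split (a : ℕ) : K0ef a = K0f a + KLf a := K0e_split _ _ _

lemma sg_lam {p : ℕ} (hp : p % 2 = 1) : sg (lam p) = (jacobiSym 2 p : ℝ) := by
  have h10 : (1 : ZMod 2) ≠ 0 := by decide
  rw [jacobiSym.at_two (Nat.odd_iff.mpr hp), ZMod.χ₈_nat_eq_if_mod_eight, if_neg (by omega)]
  unfold lam
  by_cases h : p % 8 = 3 ∨ p % 8 = 5
  · rw [if_pos h, if_neg (by omega)]
    unfold sg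
    rw [if_neg h10]
    norm_num
  · rw [if_neg h, if_pos (by omega)]
    unfold sg
    rw [if_pos rfl]
    norm_num

lemma KLf_eq_sum {S : Finset ℕ} (hS : ∀ p ∈ S, p.Prime ∧ p % 2 = 1) :
    KLf (C1M.pr S) = ((2 : ℝ) ^ S.card)⁻¹ *
      ∑ T ∈ S.powerset.filter (fun T => ∀ p ∈ T, ¬ p % 4 = 3),
        ∏ q ∈ S \ T, (1 + (jacobiSym (2 * ((C1M.pr T : ℕ) : ℤ)) q : ℝ)) := by
  classical
  have hpf := C1M.primeFactors_pr (fun p hp => (hS p hp).1)
  have h10 : (1 : ZMod 2) ≠ 0 := by decide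
  have h1 := TZF.mean_card2 (C1M.pr S).primeFactors (by rw [hpf]; exact fun p hp => (hS p hp).1)
    lam (by rw [hpf]; exact fun p hp => sg_lam (hS p hp).2)
    (fun y => ∀ i, sa (C1M.pr S) i = 1 → y i = 0)
  have h2 : KLf (C1M.pr S) = (∑ u : {x // x ∈ (C1M.pr S).primeFactors} → ZMod 2,
      (((univ.filter fun y : {x // x ∈ (C1M.pr S).primeFactors} → ZMod 2 =>
      (∀ i, sa (C1M.pr S) i = 1 → y i = 0) ∧
      ∀ i, (MM (fun i j : {x // x ∈ (C1M.pr S).primeFactors} => sy (i : ℕ) (j : ℕ)) u).mulVec y i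
        + lam (i : ℕ) = 0).card : ℕ)
        : ℝ)) / 2 ^ Fintype.card {x // x ∈ (C1M.pr S).primeFactors} := rfl
  rw [h2, h1]
  have e1 : ((2 : ℝ) ^ (C1M.pr S).primeFactors.card)⁻¹ = ((2 : ℝ) ^ S.card)⁻¹ := by rw [hpf]
  rw [e1]
  congr 1
  refine Finset.sum_congr ?_ fun T _ => by rw [hpf]
  ext T
  rw [mem_filter, mem_filter, mem_powerset, mem_powerset]
  have e2 : T ⊆ (C1M.pr S).primeFactors ↔ T ⊆ S := by rw [hpf]
  rw [e2]
  constructor
  · rintro ⟨h3, h4⟩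
    refine ⟨h3, fun p hp h7 => ?_⟩
    have h5 := h4 ⟨p, by rw [hpf]; exact h3 hp⟩ (by
      change nn p = 1
      unfold nn; rw [if_pos h7])
    simp only [hp, if_true] at h5
    exact h10 h5
  · rintro ⟨h3, h4⟩
    refine ⟨h3, fun i hi => ?_⟩
    have h5 : nn (i : ℕ) = 1 := hi
    have h6 : (i : ℕ) % 4 = 3 := by
      unfold nn at h5
      by_contra hn
      rw [if_neg hn] at h5
      exact h10 h5.symm
    change (if (i : ℕ) ∈ T then (1 : ZMod 2) else 0) = 0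
    rw [if_neg]
    intro hiT
    exact h4 _ hiT h6

theorem tightL (ε : ℝ) (hε : 0 < ε) : ∃ Y0 : ℕ, ∀ Y : ℕ, Y0 ≤ Y →
    ∑ a ∈ (PP Y).divisors, KLf a / a ≤ ε * DD Y := by
  classical
  obtain ⟨C, hC0, hC⟩ := TZF.RE_bound
  set C2 : ℝ := Real.exp 11 * (3 + Real.log (8 * (2 : ℤ).natAbs : ℕ)) ^ ((1 : ℝ) / 2) with hC2
  have hC20 : 0 ≤ C2 := by
    have : 0 ≤ Real.log (8 * (2 : ℤ).natAbs : ℕ) := Real.log_natCast_nonneg _
    positivity
  obtain ⟨z0, hz03, hz0⟩ := TZF.growth (C + C2) (by linarith) ε hε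
  refine ⟨z0, fun Y hge => ?_⟩
  have hY3 : 3 ≤ Y := hz03.trans hge
  have hR := hC Y hY3 _ (Or.inr rfl)
  have hg := hz0 Y hge
  have hG := TZF.GG_pos Y
  set P1 := (TZF.P8 Y).filter (fun p => p % 4 = 1) with hP1
  set h : Finset ℕ → ℝ := fun T => if ∀ p ∈ T, ¬ p % 4 = 3 then 1 else 0 with hh
  have h1 : ∑ a ∈ (PP Y).divisors, KLf a / a
      = ∑ S ∈ (TZF.P8 Y).powerset, ((C1M.pr S : ℕ) : ℝ)⁻¹ * ((2 : ℝ) ^ S.card)⁻¹ *
      ∑ T ∈ S.powerset, h T * ∏ q ∈ S \ T,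
        (1 + (jacobiSym (2 * ((C1M.pr T : ℕ) : ℤ)) q : ℝ)) := by
    rw [sum_divisors_eq]
    refine Finset.sum_congr rfl fun S hS => ?_
    rw [mem_powerset] at hS
    have hSp : ∀ p ∈ S, p.Prime ∧ p % 2 = 1 := fun p hp => (TZF.mem_P8.mp (hS hp)).2
    rw [KLf_eq_sum hSp, Finset.sum_filter]
    have h3 : ∑ T ∈ S.powerset, (if ∀ p ∈ T, ¬ p % 4 = 3 then
          ∏ q ∈ S \ T, (1 + (jacobiSym (2 * ((C1M.pr T : ℕ) : ℤ)) q : ℝ)) else 0)
          = ∑ T ∈ S.powerset, h T * ∏ q ∈ S \ T,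
            (1 + (jacobiSym (2 * ((C1M.pr T : ℕ) : ℤ)) q : ℝ)) := by
      refine Finset.sum_congr rfl fun T _ => ?_
      simp only [hh]
      split_ifs <;> ring
    rw [h3]
    ring
  rw [h1, TZF.FM_eq_gen2]
  have h2 : ∑ T ∈ (TZF.P8 Y).powerset, h T * (C1M.cw T * TZF.EP Y (2 * ((C1M.pr T : ℕ) : ℤ)))
      = TZF.EP Y 2 + ∑ T ∈ C1M.NE P1, C1M.cw T * TZF.EP Y (2 * ((C1M.pr T : ℕ) : ℤ)) := by
    rw [C1M.sum_NE]
    have e0 : h ∅ = 1 := by simp [hh]
    rw [e0, one_mul, C1M.cw_empty, one_mul, C1M.pr_empty]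
    have e00 : (2 : ℤ) * ((1 : ℕ) : ℤ) = 2 := by norm_num
    rw [e00]
    congr 1
    have e : C1M.NE P1 = (C1M.NE (TZF.P8 Y)).filter (fun T => ∀ p ∈ T, ¬ p % 4 = 3) := by
      ext T
      rw [C1M.mem_NE, mem_filter, C1M.mem_NE]
      constructor
      · rintro ⟨h3, h4⟩
        refine ⟨⟨fun p hp => (mem_filter.mp (h3 hp)).1, h4⟩, fun p hp => ?_⟩
        have := (mem_filter.mp (h3 hp)).2
        omega
      · rintro ⟨⟨h3, h4⟩, h5⟩
        refine ⟨fun p hp => ?_, h4⟩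
        rw [hP1, mem_filter]
        refine ⟨h3 hp, ?_⟩
        have h6 := (TZF.mem_P8.mp (h3 hp)).2.2
        have h7 := h5 p hp
        omega
    rw [e, Finset.sum_filter]
    refine Finset.sum_congr rfl fun T _ => ?_
    simp only [hh]
    split_ifs <;> ring
  rw [h2, TZF.sum_NE_EP2]
  have h3 : ∏ p ∈ P1, (1 + C1M.cc p) = TZF.Q1 Y := rfl
  rw [h3]
  have h4 := (abs_le.mp hR).2
  have h5 : TZF.EP Y 2 ≤ C2 := by
    have hsq : Squarefree (2 : ℤ) := Int.prime_two.squarefree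
    exact TZF.EPs_le (D := 2) hsq (by decide) Y (P := TZF.P8 Y) (Or.inl rfl)
  have hlz := C1M.one_le_log hY3
  have h6 : 1 ≤ (1 + Real.log (Real.log Y)) ^ 2 := by
    have := Real.log_nonneg hlz
    exact one_le_pow₀ (by linarith)
  calc TZF.GG Y * (TZF.EP Y 2 + (TZF.Q1 Y - 1 + TZF.RE Y P1)) ≤ TZF.GG Y * (ε * TZF.QQ Y) := by
        refine mul_le_mul_of_nonneg_left ?_ hG.le
        have h7 : C2 ≤ C2 * (1 + Real.log (Real.log Y)) ^ 2 := by nlinarith
        linarith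
    _ = ε * DD Y := by rw [DD_eq_ZZ, ← TZF.GG_mul_QQ]; ring

theorem tight0e (ε : ℝ) (hε : 0 < ε) : ∃ Y0 : ℕ, ∀ Y : ℕ, Y0 ≤ Y →
    ∑ a ∈ (PP Y).divisors, (K0ef a - 1) / a ≤ ε * DD Y := by
  obtain ⟨Y1, h1⟩ := tight0 (ε / 2) (by linarith)
  obtain ⟨Y2, h2⟩ := tightL (ε / 2) (by linarith)
  refine ⟨max Y1 Y2, fun Y hY => ?_⟩
  have g1 := h1 Y ((le_max_left _ _).trans hY)
  have g2 := h2 Y ((le_max_right _ _).trans hY)
  have e : ∑ a ∈ (PP Y).divisors, (K0ef a - 1) / a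
      = ∑ a ∈ (PP Y).divisors, (K0f a - 1) / a + ∑ a ∈ (PP Y).divisors, KLf a / a := by
    rw [← Finset.sum_add_distrib]
    refine Finset.sum_congr rfl fun a _ => ?_
    rw [K0ef_split]
    ring
  rw [e]
  linarith

end Pool.Agent.TZL
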