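import Pool.Agent.TZL.LinG
import Pool.Agent.TZL.TightE

/-!
Linear algebra for the digit type `(e, f) = (0, 1)` (even discriminants): the step law with the
error `K0e - 1`.
-/

set_option autoImplicit false
set_option linter.unusedSectionVars false

namespace Pool.Agent.TZL

open Finset Pool.Agent.TLW

variable {ι : Type*} [Fintype ι] [DecidableEq ι]

theorem zero_mem_zE (R : ι → ι → ZMod 2) (s l u : ι → ZMod 2) :
    (0 : Option ι → ZMod 2) ∈ univ.filter fun v : Option ι → ZMod 2 =>
      (∀ i, s i = 1 → v (some i) = 0) ∧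
      ∀ i, ∑ j, MM R u i j * v (some j) + l i * v none = 0 := by
  refine Finset.mem_filter.2 ⟨Finset.mem_univ _, fun _ _ => rfl, fun i => ?_⟩
  simp

theorem one_le_zE (R : ι → ι → ZMod 2) (s l u : ι → ZMod 2) : 1 ≤ zE R s l u := by
  unfold zE
  exact Finset.card_pos.2 ⟨0, zero_mem_zE R s l u⟩

theorem gen_NGE {R : ι → ι → ZMod 2} {e f : ZMod 2} {s l u : ι → ZMod 2} {L : ZMod 2}
    (he : e = 0) (hf : f = 1) (hR : Recip R s)
    (hz : zE R s l u ≤ 1) (a : Option (Option ι) → ZMod 2)
    (ha : a ∈ TRL.KS (NG R e f s l u L 0 0 0 0).transpose IO) (b : Option (Option ι) → ZMod 2)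
    (hb : b ∈ TRL.KS (NG R e f s l u L 0 0 0 0) IO) (hab : a ≠ 0 ∨ b ≠ 0) :
    ∑ p : (ι → ZMod 2) × ZMod 2 × ZMod 2,
      TRL.sg ((∑ i, a i * NG R e f s l u L p.1 p.2.1 p.2.2 0 i (some none)) +
        ∑ i, b i * NG R e f s l u L p.1 p.2.1 p.2.2 0 (some none) i) = 0 := by
  rw [TRL.mem_KS] at ha hb
  have haz : a (some none) = 0 := ha.1 _ notMem_IO
  have hbz : b (some none) = 0 := hb.1 _ notMem_IO
  set sy : ZMod 2 := ∑ i : ι, s i * b (some (some i)) with hsy
  have hsum : ∀ p : (ι → ZMod 2) × ZMod 2 × ZMod 2,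
      TRL.sg ((∑ i, a i * NG R e f s l u L p.1 p.2.1 p.2.2 0 i (some none)) +
        ∑ i, b i * NG R e f s l u L p.1 p.2.1 p.2.2 0 (some none) i) =
      TRL.sg (∑ i : ι, p.1 i * (a (some (some i)) + b (some (some i)))) *
        TRL.sg (p.2.1 * (e * a none + sy) + p.2.2 * (f * a none + b none)) := by
    intro p
    rw [← TRL.sg_add]
    congr 1
    simp only [Fintype.sum_option]
    have e1 : NG R e f s l u L p.1 p.2.1 p.2.2 0 none (some none) = e * p.2.1 + f * p.2.2 := rfl
    have e2 : NG R e f s l u L p.1 p.2.1 p.2.2 0 (some none) (some none) = 0 := rfl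
    have e3 : ∀ i : ι, NG R e f s l u L p.1 p.2.1 p.2.2 0 (some (some i)) (some none) = p.1 i :=
      fun i => rfl
    have e4 : NG R e f s l u L p.1 p.2.1 p.2.2 0 (some none) none = p.2.2 := rfl
    have e5 : ∀ i : ι, NG R e f s l u L p.1 p.2.1 p.2.2 0 (some none) (some (some i)) =
        p.1 i + p.2.1 * s i := fun i => rfl
    simp only [e1, e2, e3, e4, e5, mul_zero, zero_add, haz, hbz, zero_mul]
    have h1 : ∑ i : ι, p.1 i * (a (some (some i)) + b (some (some i))) =
        (∑ i : ι, a (some (some i)) * p.1 i) + ∑ i : ι, b (some (some i)) * p.1 i := by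
      rw [← Finset.sum_add_distrib]
      exact Finset.sum_congr rfl fun i _ => by ring
    have h2 : ∑ i : ι, b (some (some i)) * (p.1 i + p.2.1 * s i) =
        (∑ i : ι, b (some (some i)) * p.1 i) + p.2.1 * sy := by
      rw [hsy, Finset.mul_sum, ← Finset.sum_add_distrib]
      exact Finset.sum_congr rfl fun i _ => by ring
    rw [h1, h2]
    ring
  rw [Finset.sum_congr rfl fun p _ => hsum p]
  have hprod : ∑ p : (ι → ZMod 2) × ZMod 2 × ZMod 2,
      TRL.sg (∑ i : ι, p.1 i * (a (some (some i)) + b (some (some i)))) *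
        TRL.sg (p.2.1 * (e * a none + sy) + p.2.2 * (f * a none + b none)) =
      (∑ w : ι → ZMod 2, TRL.sg (∑ i : ι, w i * (a (some (some i)) + b (some (some i))))) *
        ∑ s' : ZMod 2, ∑ l' : ZMod 2,
          TRL.sg (s' * (e * a none + sy) + l' * (f * a none + b none)) := by
    rw [Fintype.sum_prod_type, Finset.sum_mul]
    refine Finset.sum_congr rfl fun w _ => ?_
    rw [Fintype.sum_prod_type, Finset.mul_sum]
    refine Finset.sum_congr rfl fun x _ => ?_
    rw [Finset.mul_sum]
  rw [hprod, sum_two_bits]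
  by_cases h1 : ∃ i : ι, a (some (some i)) + b (some (some i)) ≠ 0
  · rw [sum_sg_nonzero _ h1, zero_mul]
  push Not at h1
  by_cases h23 : e * a none + sy = 0 ∧ f * a none + b none = 0
  swap
  · rw [if_neg h23, mul_zero]
  obtain ⟨h2, h3⟩ := h23
  exfalso
  have hab' : ∀ i : ι, a (some (some i)) = b (some (some i)) := fun i =>
    CharTwo.add_eq_zero.1 (h1 i)
  have hbn : b none = f * a none := (CharTwo.add_eq_zero.1 h3).symm
  have hsye : sy = e * a none := (CharTwo.add_eq_zero.1 h2).symm
  -- the kernel equations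
  have hM1 : ∀ i : ι, ∑ j, MM R u i j * b (some (some j)) = l i * b none := by
    intro i
    have := hb.2 (some (some i)) (some_mem_IO i)
    simp only [Fintype.sum_option] at this
    have e1 : NG R e f s l u L 0 0 0 0 (some (some i)) none = l i := rfl
    have e2 : NG R e f s l u L 0 0 0 0 (some (some i)) (some none) = 0 := rfl
    have e3 : ∀ j, NG R e f s l u L 0 0 0 0 (some (some i)) (some (some j)) = MM R u i j :=
      fun j => MM_ext_some R s 0 u 0 0 i j
    simp only [e1, e2, e3, hbz, mul_zero, zero_add] at this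
    exact (CharTwo.add_eq_zero.1 this).symm
  have hM2 : ∀ i : ι, ∑ j, MM R u j i * b (some (some j)) = (e * s i + f * l i) * a none := by
    intro i
    have := ha.2 (some (some i)) (some_mem_IO i)
    simp only [Fintype.sum_option, Matrix.transpose_apply] at this
    have e1 : NG R e f s l u L 0 0 0 0 none (some (some i)) = e * s i + f * l i := rfl
    have e2 : NG R e f s l u L 0 0 0 0 (some none) (some (some i)) = 0 + 0 * s i := rfl
    have e3 : ∀ j, NG R e f s l u L 0 0 0 0 (some (some j)) (some (some i)) = MM R u j i :=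
      fun j => MM_ext_some R s 0 u 0 0 j i
    simp only [e1, e2, e3, haz, mul_zero, zero_add] at this
    refine Eq.trans ?_ (CharTwo.add_eq_zero.1 this).symm
    exact Finset.sum_congr rfl fun j _ => by rw [hab' j]
  -- symmetric part
  have hkey : ∀ i, e * s i * a none = s i * sy + s i * b (some (some i)) := by
    intro i
    have h4 : ∑ j, (MM R u i j + MM R u j i) * b (some (some j)) = e * s i * a none := by
      simp only [add_mul, Finset.sum_add_distrib]
      rw [hM1 i, hM2 i, hbn]
      have : l i * (f * a none) + (e * s i + f * l i) * a none =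
          e * s i * a none + (f * l i * a none + f * l i * a none) := by ring
      rw [this, TRL.zmod2_add_self, add_zero]
    have h5 : ∀ j, (MM R u i j + MM R u j i) * b (some (some j)) =
        s i * (s j * b (some (some j))) + (if j = i then s i * b (some (some i)) else 0) := by
      intro j
      unfold MM
      simp only [Matrix.of_apply]
      by_cases hij : i = j
      · subst hij
        rw [if_pos rfl, if_pos rfl, TRL.zmod2_add_self, zero_mul]
        rcases TRL.zmod2_cases (s i) with h0 | h0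
        · rw [h0]; ring
        · rw [h0, one_mul, one_mul, TRL.zmod2_add_self]
      · rw [if_neg hij, if_neg (Ne.symm hij), if_neg (Ne.symm hij), hR i j hij,
          ← add_assoc, TRL.zmod2_add_self, zero_add, add_zero]
        ring
    rw [← h4, Finset.sum_congr rfl fun j _ => h5 j, Finset.sum_add_distrib, ← Finset.mul_sum,
      Finset.sum_ite_eq' Finset.univ i (fun _ => s i * b (some (some i))),
      if_pos (Finset.mem_univ i)]
  have hsupp : ∀ i, s i = 1 → b (some (some i)) = 0 := by
    intro i hi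
    have := hkey i
    rw [hi, mul_one, one_mul, one_mul, hsye] at this
    have h6 : b (some (some i)) = e * a none + (e * a none + b (some (some i))) := by
      rw [← add_assoc, TRL.zmod2_add_self, zero_add]
    rw [h6, ← this, TRL.zmod2_add_self]
  have hsy0 : sy = 0 := by
    have := sum_s_mul (s := s) (y := fun i => b (some (some i))) hsupp fun _ => 1
    simpa [hsy] using this
  have hab0 : a none = b none := by rw [hbn, hf, one_mul]
  -- the vector `(y, t)`
  set v : Option ι → ZMod 2 := fun o => o.elim (b none) (fun i => b (some (some i))) with hv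
  have hmem : v ∈ univ.filter fun v : Option ι → ZMod 2 =>
      (∀ i, s i = 1 → v (some i) = 0) ∧
      ∀ i, ∑ j, MM R u i j * v (some j) + l i * v none = 0 := by
    refine Finset.mem_filter.2 ⟨Finset.mem_univ _, hsupp, fun i => ?_⟩
    change ∑ j, MM R u i j * b (some (some j)) + l i * b none = 0
    rw [hM1 i, TRL.zmod2_add_self]
  have hv0 : v = 0 := Finset.card_le_one.1 hz _ hmem _ (zero_mem_zE R s l u)
  have hb0 : b none = 0 := congrFun hv0 none
  have hy0 : ∀ i : ι, b (some (some i)) = 0 := fun i => congrFun hv0 (some i)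
  have hbz' : b = 0 := by
    funext i
    rcases i with _ | _ | i
    · exact hb0
    · exact hbz
    · exact hy0 i
  have haz' : a = 0 := by
    funext i
    rcases i with _ | _ | i
    · rw [hab0]; exact hb0
    · exact haz
    · rw [hab' i]; exact hy0 i
  rcases hab with h | h
  · exact h haz'
  · exact h hbz'

theorem step_NGE {R : ι → ι → ZMod 2} {e f : ZMod 2} {s : ι → ZMod 2} (l u : ι → ZMod 2)
    (L : ZMod 2) (he : e = 0) (hf : f = 1)
    (hR : Recip R s) (hz : zE R s l u ≤ 1) (F : ℕ → ℝ) :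
    ∑ w : ι → ZMod 2, ∑ s' : ZMod 2, ∑ l' : ZMod 2, ∑ t : ZMod 2,
      F (TRL.crk (NG R e f s l u L w s' l' t)) =
      2 ^ (Fintype.card ι + 3) * TRL.TF F (TRL.crk (CC R (rr e f s l) l u L)) := by
  have h := TRL.step_law (P := (ι → ZMod 2) × ZMod 2 × ZMod 2)
    (fun p => NG R e f s l u L p.1 p.2.1 p.2.2 0) (NG R e f s l u L 0 0 0 0) IO (z := some none)
    notMem_IO ?_ (fun a ha b hb hab => gen_NGE he hf hR hz a ha b hb hab) F
  · rw [rk_NG_IO, insert_IO] at h
    have hcard : (Fintype.card ((ι → ZMod 2) × ZMod 2 × ZMod 2) : ℝ) =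
        2 ^ (Fintype.card ι + 2) := by
      rw [Fintype.card_prod, Fintype.card_prod, Fintype.card_fun, ZMod.card]
      push_cast
      ring
    rw [hcard, Fintype.sum_prod_type] at h
    have h2 : ∀ w : ι → ZMod 2, ∑ y : ZMod 2 × ZMod 2,
        (F (TRL.rk (NG R e f s l u L w y.1 y.2 0) Finset.univ) +
          F (TRL.rk (TRL.tog (some none) (NG R e f s l u L w y.1 y.2 0)) Finset.univ)) / 2 =
        (∑ s' : ZMod 2, ∑ l' : ZMod 2, ∑ t : ZMod 2,
          F (TRL.crk (NG R e f s l u L w s' l' t))) / 2 := by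
      intro w
      rw [Fintype.sum_prod_type, Finset.sum_div]
      refine Finset.sum_congr rfl fun s' _ => ?_
      rw [Finset.sum_div]
      refine Finset.sum_congr rfl fun x _ => ?_
      rw [TRL.sum_zmod2, tog_NG]
      rfl
    rw [Finset.sum_congr rfl fun w _ => h2 w, ← Finset.sum_div] at h
    rw [div_eq_iff (by norm_num)] at h
    rw [h]
    ring
  · intro p i hi k hk
    have hi' : i ≠ some none := fun h => notMem_IO (h ▸ hi)
    have hk' : k ≠ some none := fun h => notMem_IO (h ▸ hk)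
    rcases i with _ | _ | i
    · rcases k with _ | _ | k
      · rfl
      · exact absurd rfl hk'
      · rfl
    · exact absurd rfl hi'
    · rcases k with _ | _ | k
      · rfl
      · exact absurd rfl hk'
      · show MM (exR R s p.1 p.2.1) (exv u 0) (some i) (some k) =
          MM (exR R s 0 0) (exv u 0) (some i) (some k)
        rw [MM_ext_some, MM_ext_some]

/-- Mean of `GLv` over one extension. -/
theorem GLv_stepE' {R : ι → ι → ZMod 2} {e f L : ZMod 2} {s l : ι → ZMod 2} (he : e = 0)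
    (hf : f = 1) (hR : Recip R s) (J : ℕ) :
    |(∑ w : ι → ZMod 2, ∑ s' : ZMod 2, ∑ l' : ZMod 2,
      GLv J (exR R s w s') (rr e f (exv s s') (exv l l')) (exv l l') L) /
        2 ^ (Fintype.card ι + 2) - GLv (J + 1) R (rr e f s l) l L| ≤ K0e R s l - 1 := by
  classical
  set S : ℝ := ∑ u : ι → ZMod 2, ∑ w : ι → ZMod 2, ∑ s' : ZMod 2, ∑ l' : ZMod 2,
      ∑ t : ZMod 2, hJ J (TRL.crk (NG R e f s l u L w s' l' t)) with hS
  have h1 : (∑ w : ι → ZMod 2, ∑ s' : ZMod 2, ∑ l' : ZMod 2,
      GLv J (exR R s w s') (rr e f (exv s s') (exv l l')) (exv l l') L) =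
      S / 2 ^ (Fintype.card ι + 1) := by
    rw [hS]
    have h3 : ∀ (w : ι → ZMod 2) (s' l' : ZMod 2),
        GLv J (exR R s w s') (rr e f (exv s s') (exv l l')) (exv l l') L =
        (∑ u : ι → ZMod 2, ∑ t : ZMod 2, hJ J (TRL.crk (NG R e f s l u L w s' l' t))) /
          2 ^ (Fintype.card ι + 1) := by
      intro w s' l'
      unfold GLv
      rw [sum_option_vec, Fintype.card_option]
      congr 1
      refine Finset.sum_congr rfl fun u _ => Finset.sum_congr rfl fun t _ => ?_
      rw [crk_eq]; rfl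
    simp only [h3, ← Finset.sum_div]
    congr 1
    have h4 : ∀ (w : ι → ZMod 2) (s' : ZMod 2), ∑ l' : ZMod 2, ∑ u : ι → ZMod 2, ∑ t : ZMod 2,
        hJ J (TRL.crk (NG R e f s l u L w s' l' t)) = ∑ u : ι → ZMod 2, ∑ l' : ZMod 2,
        ∑ t : ZMod 2, hJ J (TRL.crk (NG R e f s l u L w s' l' t)) := fun w s' => Finset.sum_comm
    simp only [h4]
    have h5 : ∀ (w : ι → ZMod 2), ∑ s' : ZMod 2, ∑ u : ι → ZMod 2, ∑ l' : ZMod 2,
        ∑ t : ZMod 2, hJ J (TRL.crk (NG R e f s l u L w s' l' t)) = ∑ u : ι → ZMod 2,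
        ∑ s' : ZMod 2, ∑ l' : ZMod 2, ∑ t : ZMod 2, hJ J (TRL.crk (NG R e f s l u L w s' l' t)) :=
      fun w => Finset.sum_comm
    simp only [h5]
    rw [Finset.sum_comm]
  have h2 : ∀ (u : ι → ZMod 2),
      |(∑ w : ι → ZMod 2, ∑ s' : ZMod 2, ∑ l' : ZMod 2,
        ∑ t : ZMod 2, hJ J (TRL.crk (NG R e f s l u L w s' l' t))) -
        2 ^ (Fintype.card ι + 3) * hJ (J + 1) (crk (CC R (rr e f s l) l u L))| ≤
      2 ^ (Fintype.card ι + 3) * ((zE R s l u : ℝ) - 1) := by
    intro u
    have hz1 := one_le_zE R s l u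
    by_cases hz : zE R s l u ≤ 1
    · rw [step_NGE l u L he hf hR hz (hJ J)]
      have : TRL.TF (hJ J) (TRL.crk (CC R (rr e f s l) l u L)) =
          hJ (J + 1) (crk (CC R (rr e f s l) l u L)) := by
        rw [crk_eq]
        exact TRL.TF_hj J _
      rw [this, sub_self, abs_zero]
      have : (1 : ℝ) ≤ zE R s l u := by exact_mod_cast hz1
      have h0 : (0 : ℝ) ≤ (zE R s l u : ℝ) - 1 := by linarith
      positivity
    · have hz2 : (2 : ℝ) ≤ zE R s l u := by
        have : 2 ≤ zE R s l u := by omega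
        exact_mod_cast this
      have hA0 : 0 ≤ ∑ w : ι → ZMod 2, ∑ s' : ZMod 2, ∑ l' : ZMod 2,
          ∑ t : ZMod 2, hJ J (TRL.crk (NG R e f s l u L w s' l' t)) :=
        Finset.sum_nonneg fun w _ => Finset.sum_nonneg fun s' _ => Finset.sum_nonneg fun x _ =>
          Finset.sum_nonneg fun t _ => TRL.hj_nonneg _ _
      have hA1 : (∑ w : ι → ZMod 2, ∑ s' : ZMod 2, ∑ l' : ZMod 2,
          ∑ t : ZMod 2, hJ J (TRL.crk (NG R e f s l u L w s' l' t))) ≤
          2 ^ (Fintype.card ι + 3) := by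
        calc _ ≤ ∑ w : ι → ZMod 2, ∑ s' : ZMod 2, ∑ x : ZMod 2, ∑ t : ZMod 2, (1 : ℝ) :=
              Finset.sum_le_sum fun w _ => Finset.sum_le_sum fun s' _ =>
                Finset.sum_le_sum fun x _ => Finset.sum_le_sum fun t _ => TRL.hj_le_one _ _
          _ = 2 ^ (Fintype.card ι + 3) := by
            simp only [Finset.sum_const, Finset.card_univ, nsmul_eq_mul, Fintype.card_fun,
              ZMod.card, mul_one]
            push_cast
            ring
      have hB0 : 0 ≤ 2 ^ (Fintype.card ι + 3) * hJ (J + 1) (crk (CC R (rr e f s l) l u L)) :=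
        mul_nonneg (by positivity) (TRL.hj_nonneg _ _)
      have hB1 : 2 ^ (Fintype.card ι + 3) * hJ (J + 1) (crk (CC R (rr e f s l) l u L)) ≤
          2 ^ (Fintype.card ι + 3) :=
        mul_le_of_le_one_right (by positivity) (TRL.hj_le_one _ _)
      have hpos : (0 : ℝ) < 2 ^ (Fintype.card ι + 3) := by positivity
      rw [abs_le]
      constructor <;> nlinarith
  have h3 : |S - ∑ u : ι → ZMod 2,
      2 ^ (Fintype.card ι + 3) * hJ (J + 1) (crk (CC R (rr e f s l) l u L))| ≤
      ∑ u : ι → ZMod 2, 2 ^ (Fintype.card ι + 3) * ((zE R s l u : ℝ) - 1) := by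
    rw [hS, ← Finset.sum_sub_distrib]
    exact (Finset.abs_sum_le_sum_abs _ _).trans (Finset.sum_le_sum fun u _ => h2 u)
  have h4 : ∑ u : ι → ZMod 2,
      2 ^ (Fintype.card ι + 3) * hJ (J + 1) (crk (CC R (rr e f s l) l u L)) =
      2 ^ (Fintype.card ι + 3) * (GLv (J + 1) R (rr e f s l) l L * 2 ^ Fintype.card ι) := by
    unfold GLv
    rw [div_mul_cancel₀ _ (by positivity), Finset.mul_sum]
  have h5 : ∑ u : ι → ZMod 2, 2 ^ (Fintype.card ι + 3) * ((zE R s l u : ℝ) - 1) =
      2 ^ (Fintype.card ι + 3) * (2 ^ Fintype.card ι * (K0e R s l - 1)) := by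
    have : (2 : ℝ) ^ Fintype.card ι * (K0e R s l - 1) = ∑ u : ι → ZMod 2, ((zE R s l u : ℝ) - 1) := by
      unfold K0e
      rw [mul_sub, mul_div_cancel₀ _ (by positivity : (2 : ℝ) ^ Fintype.card ι ≠ 0),
        Finset.sum_sub_distrib]
      congr 1
      simp [ZMod.card]
    rw [this, Finset.mul_sum]
  rw [h4, h5] at h3
  rw [h1]
  have h6 : S / 2 ^ (Fintype.card ι + 1) / 2 ^ (Fintype.card ι + 2) -
      GLv (J + 1) R (rr e f s l) l L =
      (S - 2 ^ (Fintype.card ι + 3) * (GLv (J + 1) R (rr e f s l) l L * 2 ^ Fintype.card ι)) /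
        (2 ^ (Fintype.card ι + 3) * 2 ^ Fintype.card ι) := by
    rw [eq_div_iff (by positivity)]
    simp only [pow_add]
    field_simp
  rw [h6, abs_div, abs_of_pos (by positivity : (0 : ℝ) < 2 ^ (Fintype.card ι + 3) *
    2 ^ Fintype.card ι), div_le_iff₀ (by positivity)]
  refine h3.trans (le_of_eq ?_)
  ring

/-- Mean of `GLv` over one extension, type `(0, 1)`. -/
theorem GLv_stepE {R : ι → ι → ZMod 2} {L : ZMod 2} {s l : ι → ZMod 2} (hR : Recip R s) (J : ℕ) :
    |(∑ w : ι → ZMod 2, ∑ s' : ZMod 2, ∑ l' : ZMod 2,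
      GLv J (exR R s w s') (rr 0 1 (exv s s') (exv l l')) (exv l l') L) /
        2 ^ (Fintype.card ι + 2) - GLv (J + 1) R (rr 0 1 s l) l L| ≤ K0e R s l - 1 :=
  GLv_stepE' rfl rfl hR J

end Pool.Agent.TZL
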