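import Pool.Agent.TZL.Gdf
import Pool.Agent.TZL.LinE
import Pool.Agent.TZL.TightE

set_option autoImplicit false

/-! the digit functions of the types `(0, 1)` -/

namespace Pool.Agent.TZL

open Finset Pool.Agent.TLW

theorem one_le_K0e {ι : Type*} [Fintype ι] [DecidableEq ι] (R : ι → ι → ZMod 2)
    (s l : ι → ZMod 2) : 1 ≤ K0e R s l := by
  unfold K0e
  rw [le_div_iff₀ (by positivity), one_mul]
  calc (2 : ℝ) ^ Fintype.card ι = ∑ _u : ι → ZMod 2, (1 : ℝ) := by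
        simp [ZMod.card]
    _ ≤ _ := Finset.sum_le_sum fun u _ => by exact_mod_cast one_le_zE R s l u

theorem thinE : Thin fun b => K0ef b - 1 :=
  ⟨fun b => sub_nonneg.2 (one_le_K0e _ _ _), tight0e⟩

theorem GPh_avgE (L : ZMod 2) (J a : ℕ) (ha : F1 a) :
    |avg a (GPh 0 1 L J a) - Gf 0 1 L (J + 1) a| ≤ K0ef a - 1 := by
  have h := GLv_stepE (L := L) (l := la a) (recip_a a ha) J
  rw [card_Ix] at h
  exact h

theorem dig8E {c : ℕ} (hc : c = 3 ∨ c = 7) : Dig c 0 1 (lam c) (gM 8) := by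
  refine ⟨by tauto, gM01 8, ⟨fun a i => vsh a i + la a i, fun a q ha hq hqa h => ?_⟩,
    ⟨_, thinE, fun J a ha => GPh_avgE _ J a ha⟩⟩
  have e1 : (0 : ZMod 2) = 1 + nn (a * q) := by
    unfold nn
    rw [show (a * q) % 4 = (a * q) % 8 % 4 from (Nat.mod_mod_of_dvd _ (by norm_num)).symm, h]
    rcases hc with rfl | rfl <;> decide
  have e2 : lam c = lam (a * q) := by
    unfold lam
    rw [h]
    rcases hc with rfl | rfl <;> rfl
  classical
  unfold gM
  rw [e2]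
  refine if_congr ?_ rfl rfl
  rw [Min8_iff ha hq hqa, F8_crk ha hq hqa e1]

theorem digZ : Dig 7 0 1 0 gZ := by
  refine ⟨by tauto, gZ01, ⟨vsh, fun a q ha hq hqa h => ?_⟩,
    ⟨_, thinE, fun J a ha => GPh_avgE _ J a ha⟩⟩
  classical
  unfold gZ
  refine if_congr ?_ rfl rfl
  rw [MinZ_iff ha hq hqa h, F5_crk ha hq hqa h]

end Pool.Agent.TZL
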