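import Pool.Agent.TZL.Lnk
import Pool.Agent.TZL.Tight

set_option autoImplicit false

/-! the digit functions of the discriminants -/

namespace Pool.Agent.TZL

open Finset Pool.Agent.TLW

/-- minimal absolute value at level `c` -/
def Min (c m : ℕ) : Prop := ∀ n : ℕ, 2 ≤ n →
  ‖((TZB.XX n c m : ℚ) : ℚ_[2])‖ = 2 * (1 / 2 : ℝ) ^ m.primeFactors.card

/-- minimal absolute value in the presence of the trivial zero -/
def MinZ (m : ℕ) : Prop := ∀ n : ℕ, 2 ≤ n →
  ‖((TZB.XX n 4 m : ℚ) : ℚ_[2])‖ = ‖(n : ℚ_[2]) - 1‖ * (1 / 2 : ℝ) ^ m.primeFactors.card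

open Classical in
/-- indicator of `Min` -/
noncomputable def gM (c m : ℕ) : ℝ := if Min c m then 1 else 0

open Classical in
/-- indicator of `MinZ` -/
noncomputable def gZ (m : ℕ) : ℝ := if MinZ m then 1 else 0

theorem gM01 (c m : ℕ) : 0 ≤ gM c m ∧ gM c m ≤ 1 := by
  unfold gM; split_ifs <;> norm_num

theorem gZ01 (m : ℕ) : 0 ≤ gZ m ∧ gZ m ≤ 1 := by
  unfold gZ; split_ifs <;> norm_num

theorem norm_two : ‖(2 : ℚ_[2])‖ = 1 / 2 := by
  have h := Padic.norm_p (p := 2)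
  rw [Nat.cast_ofNat] at h
  rw [h]; norm_num

theorem Rd_zero_norm {x : ℚ} (h : TZB.Rd x 0) : ‖(x : ℚ_[2])‖ ≠ 1 := by
  obtain ⟨z, hz, h0⟩ := h
  have h1 : z ∈ RingHom.ker (PadicInt.toZMod (p := 2)) := h0
  rw [PadicInt.ker_toZMod, IsLocalRing.mem_maximalIdeal, mem_nonunits_iff,
    PadicInt.isUnit_iff] at h1
  rw [← hz]
  exact h1

theorem Rd_norm_iff {x : ℚ} {c : ZMod 2} (h : TZB.Rd x c) : ‖(x : ℚ_[2])‖ = 1 ↔ c = 1 := by
  rcases TRL.zmod2_cases c with rfl | rfl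
  · exact ⟨fun h1 => absurd h1 (Rd_zero_norm h), fun h1 => absurd h1 (by decide)⟩
  · exact ⟨fun _ => rfl, fun _ => h.norm_one⟩

section
variable {a q : ℕ}

theorem Min4_iff (ha : F1 a) (hq : P8 q) (hqa : ¬ q ∣ a) :
    Min 4 (a * q) ↔ TZB.F4 (Rpf a q) (lpf a q) univ = 1 := by
  have hne : (univ : Finset (Option (Ix a))).Nonempty := ⟨none, Finset.mem_univ _⟩
  have key : ∀ n : ℕ, 2 ≤ n → (‖((TZB.XX n 4 (a * q) : ℚ) : ℚ_[2])‖ =
      2 * (1 / 2 : ℝ) ^ (a * q).primeFactors.card ↔ TZB.F4 (Rpf a q) (lpf a q) univ = 1) := by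
    intro n hn
    have h := TZB.main4 n (by omega) (pf a q) (pf_P8 ha hq) (pf_inj hqa) univ hne
    rw [pf_prod ha, card_pf ha hq hqa] at h
    have h2 := Rd_norm_iff h
    have hc : 1 ≤ (a * q).primeFactors.card := by
      rw [← card_pf ha hq hqa]; exact Finset.card_pos.2 hne
    have h3 : ‖((TZB.XX n 4 (a * q) / 2 ^ ((a * q).primeFactors.card - 1) : ℚ) : ℚ_[2])‖ =
        ‖((TZB.XX n 4 (a * q) : ℚ) : ℚ_[2])‖ / (1 / 2 : ℝ) ^ ((a * q).primeFactors.card - 1) := by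
      push_cast
      rw [norm_div, norm_pow, norm_two]
    rw [h3, div_eq_iff (by positivity), one_mul] at h2
    have h4 : (2 : ℝ) * (1 / 2) ^ (a * q).primeFactors.card =
        (1 / 2) ^ ((a * q).primeFactors.card - 1) := by
      obtain ⟨t, ht⟩ : ∃ t, (a * q).primeFactors.card = t + 1 := ⟨_, (Nat.sub_add_cancel hc).symm⟩
      rw [ht, Nat.add_sub_cancel, pow_succ]; ring
    rw [h4]
    exact h2
  constructor
  · intro h; exact (key 2 le_rfl).1 (h 2 le_rfl)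
  · intro h n hn; exact (key n hn).2 h

theorem Min8_iff (ha : F1 a) (hq : P8 q) (hqa : ¬ q ∣ a) :
    Min 8 (a * q) ↔ TZB.F8 (Rpf a q) (lpf a q) univ = 1 := by
  have key : ∀ n : ℕ, 2 ≤ n → (‖((TZB.XX n 8 (a * q) : ℚ) : ℚ_[2])‖ =
      2 * (1 / 2 : ℝ) ^ (a * q).primeFactors.card ↔ TZB.F8 (Rpf a q) (lpf a q) univ = 1) := by
    intro n hn
    have h := TZB.main8 n (by omega) (pf a q) (pf_P8 ha hq) (pf_inj hqa) univ
    rw [pf_prod ha, card_pf ha hq hqa] at h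
    have h2 := Rd_norm_iff h
    have h3 : ‖((2 * TZB.XX n 8 (a * q) / 2 ^ (a * q).primeFactors.card : ℚ) : ℚ_[2])‖ =
        1 / 2 * ‖((TZB.XX n 8 (a * q) : ℚ) : ℚ_[2])‖ / (1 / 2 : ℝ) ^ (a * q).primeFactors.card := by
      push_cast
      rw [norm_div, norm_mul, norm_pow, norm_two]
    rw [h3, div_eq_iff (by positivity), one_mul] at h2
    refine Iff.trans ?_ h2
    constructor <;> intro h5 <;> linarith
  constructor
  · intro h; exact (key 2 le_rfl).1 (h 2 le_rfl)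
  · intro h n hn; exact (key n hn).2 h

theorem MinZ_iff (ha : F1 a) (hq : P8 q) (hqa : ¬ q ∣ a) (h7 : (a * q) % 8 = 7) :
    MinZ (a * q) ↔ TZB.F5 (Rpf a q) (lpf a q) univ = 1 := by
  have hne : (univ : Finset (Option (Ix a))).Nonempty := ⟨none, Finset.mem_univ _⟩
  have key : ∀ n : ℕ, 2 ≤ n → (‖((TZB.XX n 4 (a * q) : ℚ) : ℚ_[2])‖ =
      ‖(n : ℚ_[2]) - 1‖ * (1 / 2 : ℝ) ^ (a * q).primeFactors.card ↔
        TZB.F5 (Rpf a q) (lpf a q) univ = 1) := by
    intro n hn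
    have h := TZB.main5 n hn (pf a q) (pf_P8 ha hq) (pf_inj hqa) univ hne
    rw [pf_prod ha, card_pf ha hq hqa, TZB.XX_one_zero _ h7, sub_zero] at h
    have h2 := Rd_norm_iff h
    have hn1 : ((n : ℚ) - 1) ≠ 0 := by
      have : (2 : ℚ) ≤ n := by exact_mod_cast hn
      intro h0; linarith
    have hn2 : ‖(n : ℚ_[2]) - 1‖ ≠ 0 := by
      rw [norm_ne_zero_iff]
      have : (((n : ℚ) - 1 : ℚ) : ℚ_[2]) ≠ 0 := by exact_mod_cast hn1
      push_cast at this
      exact this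
    have h3 : ‖((4 * (TZB.XX n 4 (a * q) / (4 * ((n : ℚ) - 1))) /
        2 ^ (a * q).primeFactors.card : ℚ) : ℚ_[2])‖ =
        ‖((TZB.XX n 4 (a * q) : ℚ) : ℚ_[2])‖ / (‖(n : ℚ_[2]) - 1‖ *
          (1 / 2 : ℝ) ^ (a * q).primeFactors.card) := by
      have e1 : 4 * (TZB.XX n 4 (a * q) / (4 * ((n : ℚ) - 1))) / 2 ^ (a * q).primeFactors.card =
          TZB.XX n 4 (a * q) / (((n : ℚ) - 1) * 2 ^ (a * q).primeFactors.card) := by
        field_simp
      rw [e1]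
      push_cast
      rw [norm_div, norm_mul, norm_pow, norm_two]
    rw [h3, div_eq_iff (by positivity), one_mul] at h2
    exact h2
  constructor
  · intro h; exact (key 2 le_rfl).1 (h 2 le_rfl)
  · intro h n hn; exact (key n hn).2 h

end

theorem thin0 : Thin fun b => K0f b - 1 :=
  ⟨fun b => sub_nonneg.2 (one_le_K0f b), tight0⟩

theorem dig4 {c : ℕ} (hc : c = 1 ∨ c = 3 ∨ c = 5) :
    Dig c (1 + nn c) 0 (lam c) (gM 4) := by
  refine ⟨by tauto, gM01 4, ⟨vsh, fun a q ha hq hqa h => ?_⟩, ⟨_, thin0, fun J a ha => ?_⟩⟩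
  · have e1 : nn c = nn (a * q) := by
      unfold nn
      rw [show (a * q) % 4 = (a * q) % 8 % 4 from (Nat.mod_mod_of_dvd _ (by norm_num)).symm, h]
    have e2 : lam c = lam (a * q) := by
      unfold lam
      rw [h]
      rcases hc with rfl | rfl | rfl <;> rfl
    classical
    unfold gM
    rw [e1, e2]
    refine if_congr ?_ rfl rfl
    rw [Min4_iff ha hq hqa, F4_crk ha hq hqa rfl]
  · refine GPh_avg _ _ _ ?_ J a ha
    rcases hc with rfl | rfl | rfl
    · left; decide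
    · right; decide
    · left; decide

theorem dig8 {c : ℕ} (hc : c = 1 ∨ c = 5) :
    Dig c (1 + nn c) 1 (lam c) (gM 8) := by
  refine ⟨by tauto, gM01 8, ⟨fun a i => vsh a i + la a i, fun a q ha hq hqa h => ?_⟩,
    ⟨_, thin0, fun J a ha => ?_⟩⟩
  · have e1 : nn c = nn (a * q) := by
      unfold nn
      rw [show (a * q) % 4 = (a * q) % 8 % 4 from (Nat.mod_mod_of_dvd _ (by norm_num)).symm, h]
    have e2 : lam c = lam (a * q) := by
      unfold lam
      rw [h]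
      rcases hc with rfl | rfl <;> rfl
    classical
    unfold gM
    rw [e1, e2]
    refine if_congr ?_ rfl rfl
    rw [Min8_iff ha hq hqa, F8_crk ha hq hqa rfl]
  · refine GPh_avg _ _ _ ?_ J a ha
    rcases hc with rfl | rfl
    · left; decide
    · left; decide

end Pool.Agent.TZL
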