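import Mathlib
import Pool.Agent.TZL.Defs
import Pool.Agent.TZL.L2a
import Pool.Agent.HyperWeil.SieveRange
import Pool.Agent.PNT.Main

set_option autoImplicit false

/-!
# S6 / L2c: second moments of the character sums, `D ≤ x^(1/20)` (Selberg sieve) and high moments
-/

namespace Pool.Agent.TZL

open Pool.Agent.TLW

open Finset Filter Topology Pool.Agent.HyperWeil

lemma card_oddPrimes_le' (N : ℕ) : (oddPrimes N).card ≤ Nat.primeCounting N := by
  rw [Nat.primeCounting, Nat.primeCounting', Nat.count_eq_card_filter_range]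
  refine Finset.card_le_card ?_
  intro p hp
  rw [mem_oddPrimes] at hp
  rw [mem_filter, mem_range]
  exact ⟨by omega, hp.2.1⟩

/-- Chebyshev -/
lemma card_oddPrimes_ev : ∀ᶠ x : ℕ in atTop,
    ((oddPrimes x).card : ℝ) ≤ 2 * (x / Real.log x) := by
  have h1 : Tendsto (fun x : ℕ => (Nat.primeCounting x : ℝ) * Real.log x / x) atTop (𝓝 1) := by
    have := Pool.Agent.PNT.tendsto_primeCounting.comp (tendsto_natCast_atTop_atTop (R := ℝ))
    refine this.congr fun x => ?_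
    simp
  have h2 := h1.eventually_le_const (show (1 : ℝ) < 2 by norm_num)
  filter_upwards [h2, eventually_gt_atTop 1] with x hx hx1
  have hx0 : (0 : ℝ) < x := by exact_mod_cast (by omega : 0 < x)
  have hl : 0 < Real.log x := Real.log_pos (by exact_mod_cast hx1)
  have h3 : ((oddPrimes x).card : ℝ) ≤ (Nat.primeCounting x : ℝ) := by
    exact_mod_cast card_oddPrimes_le' x
  rw [div_le_iff₀ hx0] at hx
  rw [mul_div_assoc', le_div_iff₀ hl]
  calc ((oddPrimes x).card : ℝ) * Real.log x ≤ (Nat.primeCounting x : ℝ) * Real.log x := by gcongr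
    _ ≤ 2 * x := hx

/-- the set of moduli as integers -/
noncomputable def SZ (D : ℕ) (t : Bool) : Finset ℤ :=
  ((FF D).filter (fun d => decide (d % 4 = 3) = t)).image (fun d : ℕ => (d : ℤ))

lemma SZ_squarefree (D : ℕ) (t : Bool) : ∀ d ∈ SZ D t, Squarefree d := by
  intro d hd
  rw [SZ, mem_image] at hd
  obtain ⟨e, he, rfl⟩ := hd
  rw [mem_filter, FF, mem_filter] at he
  exact_mod_cast (Int.squarefree_natCast.mpr he.1.2.1)

lemma SZ_le (D : ℕ) (t : Bool) : ∀ d ∈ SZ D t, d.natAbs ≤ D := by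
  intro d hd
  rw [SZ, mem_image] at hd
  obtain ⟨e, he, rfl⟩ := hd
  rw [mem_filter, FF, mem_filter, mem_Icc] at he
  simpa using he.1.1.2

lemma SZ_card (D : ℕ) (t : Bool) : (SZ D t).card ≤ D := by
  refine Finset.card_image_le.trans ?_
  refine (Finset.card_filter_le _ _).trans ?_
  refine (Finset.card_filter_le _ _).trans ?_
  simp

lemma sum_FF_eq (D x n : ℕ) (i j : ZMod 2) :
    ∑ d ∈ FF D, (SS (pr 0 x) (fun _ => 1) d i j) ^ n
      = ∑ t : Bool, ∑ d ∈ SZ D t, tsum' (Fw i j t) x d ^ n := by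
  have h1 : ∀ t : Bool, ∑ d ∈ SZ D t, tsum' (Fw i j t) x d ^ n
      = ∑ d ∈ (FF D).filter (fun d => decide (d % 4 = 3) = t),
          (SS (pr 0 x) (fun _ => 1) d i j) ^ n := by
    intro t
    rw [SZ, Finset.sum_image (fun a _ b _ h => by exact_mod_cast h)]
    refine Finset.sum_congr rfl fun d hd => ?_
    rw [mem_filter, FF, mem_filter] at hd
    rw [ss_eq_tsum hd.1.2, hd.2]
  rw [Finset.sum_congr rfl fun t _ => h1 t]
  rw [Finset.sum_fiberwise_of_maps_to (s := FF D) (t := univ) (g := fun d => decide (d % 4 = 3))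
    (fun _ _ => mem_univ _) (fun d => (SS (pr 0 x) (fun _ => 1) d i j) ^ n)]

/-- **small conductors** -/
theorem L2_large : ∃ C : ℝ, 0 < C ∧ ∀ᶠ x : ℕ in atTop, ∀ D : ℕ, D ^ 20 ≤ x → ∀ i j : ZMod 2,
    ∑ d ∈ FF D, (SS (pr 0 x) (fun _ => 1) d i j) ^ 2 ≤ C * (x / Real.log x) ^ 2 := by
  refine ⟨2 * (2 * (240 + 1)), by norm_num, ?_⟩
  have hA : ∀ᶠ x : ℕ in atTop, (50 : ℝ) * (x : ℝ) ^ (9 / 10 : ℝ) ≤ x / Real.log x := by
    have h1 : (fun x : ℝ => Real.log x) =o[atTop] fun x : ℝ => x ^ (1 / 10 : ℝ) :=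
      isLittleO_log_rpow_atTop (by norm_num)
    have h2 := (h1.def (show (0 : ℝ) < 1 / 50 by norm_num)).natCast_atTop
    filter_upwards [h2, eventually_gt_atTop 1] with x hx hx1
    have hx0 : (0 : ℝ) < x := by exact_mod_cast (by omega : 0 < x)
    have hl : 0 < Real.log x := Real.log_pos (by exact_mod_cast hx1)
    rw [Real.norm_eq_abs, Real.norm_eq_abs, abs_of_pos hl, abs_of_pos (by positivity)] at hx
    rw [le_div_iff₀ hl]
    calc 50 * (x : ℝ) ^ (9 / 10 : ℝ) * Real.log x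
        ≤ 50 * (x : ℝ) ^ (9 / 10 : ℝ) * (1 / 50 * (x : ℝ) ^ (1 / 10 : ℝ)) := by gcongr
      _ = (x : ℝ) ^ (9 / 10 : ℝ) * (x : ℝ) ^ (1 / 10 : ℝ) := by ring
      _ = x := by rw [← Real.rpow_add hx0]; norm_num
  have hB : ∀ᶠ x : ℕ in atTop, (4 : ℝ) ^ (120 : ℕ) ≤ x :=
    (tendsto_natCast_atTop_atTop (R := ℝ)).eventually_ge_atTop _
  filter_upwards [card_oddPrimes_ev, hA, hB, eventually_gt_atTop 1] with x hP hA hB hx1 D hD i j
  have hx0 : (0 : ℝ) < x := by exact_mod_cast (by omega : 0 < x)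
  have hx1' : (1 : ℝ) ≤ x := by exact_mod_cast hx1.le
  have hl : 0 < Real.log x := Real.log_pos (by exact_mod_cast hx1)
  -- choice of z
  set z : ℕ := ⌊(x : ℝ) ^ (1 / 60 : ℝ)⌋₊ with hz
  have hzle : (z : ℝ) ≤ (x : ℝ) ^ (1 / 60 : ℝ) := Nat.floor_le (by positivity)
  have hzge : (x : ℝ) ^ (1 / 60 : ℝ) < z + 1 := Nat.lt_floor_add_one _
  have h4 : (16 : ℝ) ≤ (x : ℝ) ^ (1 / 60 : ℝ) := by
    calc (16 : ℝ) = ((4 : ℝ) ^ (120 : ℕ)) ^ (1 / 60 : ℝ) := by
          rw [← Real.rpow_natCast, ← Real.rpow_mul (by norm_num)]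
          norm_num
      _ ≤ _ := Real.rpow_le_rpow (by positivity) hB (by norm_num)
  have hzhalf : (x : ℝ) ^ (1 / 120 : ℝ) ≤ z := by
    have e : (x : ℝ) ^ (1 / 60 : ℝ) = (x : ℝ) ^ (1 / 120 : ℝ) * (x : ℝ) ^ (1 / 120 : ℝ) := by
      rw [← Real.rpow_add hx0]; norm_num
    set y := (x : ℝ) ^ (1 / 120 : ℝ) with hy
    have hy0 : 0 < y := by positivity
    rw [e] at hzge h4
    nlinarith
  have hz2 : 2 ≤ z := by
    have : (15 : ℝ) < z := by linarith
    have : 15 < z := by exact_mod_cast this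
    omega
  have hlz : Real.log x / 120 ≤ Real.log z := by
    have := Real.log_le_log (by positivity) hzhalf
    rw [Real.log_rpow hx0] at this
    linarith
  have hz36 : (z : ℝ) ^ 36 ≤ (x : ℝ) ^ (6 / 10 : ℝ) := by
    calc (z : ℝ) ^ 36 ≤ ((x : ℝ) ^ (1 / 60 : ℝ)) ^ 36 := by gcongr
      _ = (x : ℝ) ^ (6 / 10 : ℝ) := by
        rw [← Real.rpow_natCast, ← Real.rpow_mul hx0.le]; norm_num
  have hD3 : (D : ℝ) ^ 6 ≤ (x : ℝ) ^ (3 / 10 : ℝ) := by
    have h : ((D : ℝ) ^ 20) ≤ x := by exact_mod_cast hD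
    calc (D : ℝ) ^ 6 = ((D : ℝ) ^ 20) ^ (3 / 10 : ℝ) := by
          rw [← Real.rpow_natCast, ← Real.rpow_natCast, ← Real.rpow_mul (by positivity)]
          norm_num
      _ ≤ _ := Real.rpow_le_rpow (by positivity) h (by norm_num)
  have key : ∀ t : Bool, ∑ d ∈ SZ D t, tsum' (Fw i j t) x d ^ 2
      ≤ (2 * (240 + 1)) * (x / Real.log x) ^ 2 := by
    intro t
    have h1 := large_range (SZ D t) (SZ_squarefree D t) (SZ_le D t) (abs_Fw_le i j t) x z hz2
    refine h1.trans ?_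
    rw [one_pow, one_mul]
    have h5 : 2 * (x : ℝ) / Real.log z ≤ 240 * (x / Real.log x) := by
      have : 2 * (x : ℝ) / Real.log z ≤ 2 * (x : ℝ) / (Real.log x / 120) := by
        gcongr
      refine this.trans (le_of_eq ?_)
      field_simp
      ring
    have h6 : 2 * ((z : ℝ) ^ 36 * (1 + 4 * D ^ 2 * (SZ D t).card) ^ 2) ≤ x / Real.log x := by
      refine le_trans ?_ hA
      have hc : ((SZ D t).card : ℝ) ≤ D := by exact_mod_cast SZ_card D t
      rcases Nat.eq_zero_or_pos D with h0 | h0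
      · subst h0
        have : (x : ℝ) ^ (6 / 10 : ℝ) ≤ (x : ℝ) ^ (9 / 10 : ℝ) :=
          Real.rpow_le_rpow_of_exponent_le hx1' (by norm_num)
        have h7 : 0 ≤ (x : ℝ) ^ (9 / 10 : ℝ) := by positivity
        norm_num
        norm_num at hz36 this
        linarith
      · have hD1 : (1 : ℝ) ≤ D := by exact_mod_cast h0
        have hD3' : (1 : ℝ) ≤ (D : ℝ) ^ 3 := one_le_pow₀ hD1
        have h8 : (1 + 4 * (D : ℝ) ^ 2 * (SZ D t).card) ≤ 5 * (D : ℝ) ^ 3 := by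
          calc (1 + 4 * (D : ℝ) ^ 2 * (SZ D t).card) ≤ (D : ℝ) ^ 3 + 4 * (D : ℝ) ^ 2 * D := by
                gcongr
            _ = _ := by ring
        calc 2 * ((z : ℝ) ^ 36 * (1 + 4 * (D : ℝ) ^ 2 * (SZ D t).card) ^ 2)
            ≤ 2 * ((x : ℝ) ^ (6 / 10 : ℝ) * (5 * (D : ℝ) ^ 3) ^ 2) := by gcongr
          _ = 50 * ((x : ℝ) ^ (6 / 10 : ℝ) * (D : ℝ) ^ 6) := by ring
          _ ≤ 50 * ((x : ℝ) ^ (6 / 10 : ℝ) * (x : ℝ) ^ (3 / 10 : ℝ)) := by gcongr
          _ = 50 * (x : ℝ) ^ (9 / 10 : ℝ) := by rw [← Real.rpow_add hx0]; norm_num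
    have hxl : 0 ≤ (x : ℝ) / Real.log x := by positivity
    calc ((oddPrimes x).card : ℝ) * (2 * x / Real.log z +
          2 * ((z : ℝ) ^ 36 * (1 + 4 * D ^ 2 * (SZ D t).card) ^ 2))
        ≤ (2 * (x / Real.log x)) * (240 * (x / Real.log x) + x / Real.log x) := by
          gcongr
      _ = _ := by ring
  rw [sum_FF_eq, Fintype.sum_bool]
  have h1 := key true
  have h2 := key false
  linarith

/-- **large conductors**: the moment of order `2 (3A + 1)` -/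
theorem L2_moment (A : ℕ) : ∀ᶠ x : ℕ in atTop, ∀ i j : ZMod 2,
    ∑ d ∈ FF (x ^ A), (SS (pr 0 x) (fun _ => 1) d i j) ^ (2 * (3 * A + 1))
      ≤ 10 * ((3 * A + 1 : ℕ) * (2 * (x / Real.log x)) * x) ^ (3 * A + 1) := by
  filter_upwards [card_oddPrimes_ev, eventually_gt_atTop 1] with x hP hx1 i j
  have hx0 : (0 : ℝ) < x := by exact_mod_cast (by omega : 0 < x)
  have hx1' : (1 : ℝ) ≤ x := by exact_mod_cast hx1.le
  have hl : 0 < Real.log x := Real.log_pos (by exact_mod_cast hx1)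
  set K := 3 * A + 1 with hK
  have key : ∀ t : Bool, ∑ d ∈ SZ (x ^ A) t, tsum' (Fw i j t) x d ^ (2 * K)
      ≤ 5 * ((K : ℕ) * (2 * (x / Real.log x)) * x) ^ K := by
    intro t
    have h1 := medium_range (SZ (x ^ A) t) (SZ_squarefree _ t) (SZ_le _ t) (abs_Fw_le i j t) x K
    refine h1.trans ?_
    rw [one_pow, one_pow, one_mul]
    have hc : ((SZ (x ^ A) t).card : ℝ) ≤ (x : ℝ) ^ A := by exact_mod_cast SZ_card (x ^ A) t
    have h2 : ((x : ℝ) ^ K + 4 * ((x ^ A : ℕ) : ℝ) ^ 2 * (SZ (x ^ A) t).card) ≤ 5 * (x : ℝ) ^ K := by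
      have : 4 * ((x ^ A : ℕ) : ℝ) ^ 2 * (SZ (x ^ A) t).card ≤ 4 * (x : ℝ) ^ K := by
        push_cast
        calc 4 * ((x : ℝ) ^ A) ^ 2 * (SZ (x ^ A) t).card ≤ 4 * ((x : ℝ) ^ A) ^ 2 * (x : ℝ) ^ A := by
              gcongr
          _ = 4 * (x : ℝ) ^ (3 * A) := by ring
          _ ≤ 4 * (x : ℝ) ^ K := by
              gcongr
              omega
      linarith
    calc ((K : ℝ) * ((oddPrimes x).card : ℝ)) ^ K *
          ((x : ℝ) ^ K + 4 * ((x ^ A : ℕ) : ℝ) ^ 2 * (SZ (x ^ A) t).card)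
        ≤ ((K : ℝ) * (2 * (x / Real.log x))) ^ K * (5 * (x : ℝ) ^ K) := by
          gcongr
      _ = _ := by rw [mul_pow _ (x : ℝ)]; ring
  rw [sum_FF_eq, Fintype.sum_bool]
  have h1 := key true
  have h2 := key false
  linarith

end Pool.Agent.TZL
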