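import Pool.Agent.TZL.Val
import Pool.Agent.TZL.Fin

set_option autoImplicit false

/-! the law for all real quadratic discriminants -/

namespace Pool.Agent.TZL

open Finset Pool.Agent.TLW Filter Topology

open Classical in
/-- indicator of the generic discriminants -/
noncomputable def gD (D : ℕ) : ℝ := if MinD D then 1 else 0

open Classical in
/-- real quadratic discriminants up to `X` -/
noncomputable def RDs (X : ℕ) : Finset ℕ := (Icc 1 X).filter TZB.RealDisc

/-- the eight classes: `D = k m`, `m = c mod 8` -/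
def types : Finset (ℕ × ℕ) := {(1, 1), (1, 5), (4, 3), (4, 7), (8, 1), (8, 3), (8, 5), (8, 7)}

/-- the digit function of a class -/
noncomputable def gt (t : ℕ × ℕ) : ℕ → ℝ :=
  if t.1 = 8 then gM 8 else if t.2 = 7 then gZ else gM 4

theorem gt_dig (t : ℕ × ℕ) (ht : t ∈ types) : ∃ e f L, Dig t.2 e f L (gt t) := by
  simp only [types, Finset.mem_insert, Finset.mem_singleton] at ht
  rcases ht with rfl | rfl | rfl | rfl | rfl | rfl | rfl | rfl
  · exact ⟨_, _, _, dig4 (c := 1) (by norm_num)⟩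
  · exact ⟨_, _, _, dig4 (c := 5) (by norm_num)⟩
  · exact ⟨_, _, _, dig4 (c := 3) (by norm_num)⟩
  · exact ⟨_, _, _, digZ⟩
  · exact ⟨_, _, _, dig8 (c := 1) (by norm_num)⟩
  · exact ⟨_, _, _, dig8E (c := 3) (by norm_num)⟩
  · exact ⟨_, _, _, dig8 (c := 5) (by norm_num)⟩
  · exact ⟨_, _, _, dig8E (c := 7) (by norm_num)⟩

theorem F1_iff {m : ℕ} (hm : m % 2 = 1) : F1 m ↔ Squarefree m := by
  refine ⟨fun h => h.1, fun hs => ⟨hs, fun p hp => ?_⟩⟩
  have h1 := Nat.dvd_of_mem_primeFactors hp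
  rcases (Nat.prime_of_mem_primeFactors hp).eq_two_or_odd with h | h
  · rw [h] at h1; omega
  · exact h

/-- discriminants of one class -/
theorem disc_type (t : ℕ × ℕ) (ht : t ∈ types) (m : ℕ) (hm : m % 8 = t.2) :
    TZB.RealDisc (t.1 * m) ↔ (1 < t.1 * m ∧ F1 m) := by
  simp only [types, Finset.mem_insert, Finset.mem_singleton] at ht
  have h8 : Squarefree (2 * m) ↔ (m % 2 = 1 ∧ Squarefree m) ∨ (m % 2 = 0 ∧ Squarefree (2 * m)) := by
    rcases Nat.mod_two_eq_zero_or_one m with h | h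
    · constructor
      · intro h1; exact Or.inr ⟨h, h1⟩
      · rintro (h1 | h1)
        · omega
        · exact h1.2
    · have hc : Nat.Coprime 2 m := (Nat.coprime_two_left).2 (Nat.odd_iff.2 h)
      rw [Nat.squarefree_mul hc]
      constructor
      · intro h1; exact Or.inl ⟨h, h1.2⟩
      · rintro (h1 | h1)
        · exact ⟨Nat.prime_two.prime.squarefree, h1.2⟩
        · omega
  unfold TZB.RealDisc
  rcases ht with rfl | rfl | rfl | rfl | rfl | rfl | rfl | rfl <;>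
  · simp only at hm ⊢
    rw [F1_iff (by omega)]
    constructor
    · rintro ⟨h1, h2 | h2⟩
      · first
        | (exfalso; omega)
        | (refine ⟨h1, ?_⟩; simpa using h2.2)
      · first
        | (exfalso; omega)
        | (refine ⟨h1, ?_⟩
           have e : 4 * m / 4 = m := by omega
           rw [e] at h2; exact h2.2.1)
        | (refine ⟨h1, ?_⟩
           have e : 8 * m / 4 = 2 * m := by omega
           rw [e, h8] at h2
           rcases h2.2.1 with h3 | h3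
           · exact h3.2
           · omega)
    · rintro ⟨h1, h2⟩
      refine ⟨h1, ?_⟩
      first
      | (left; refine ⟨by omega, ?_⟩; simpa using h2)
      | (right
         have e : 4 * m / 4 = m := by omega
         rw [e]
         exact ⟨by omega, h2, by omega⟩)
      | (right
         have e : 8 * m / 4 = 2 * m := by omega
         rw [e]
         exact ⟨by omega, h8.2 (Or.inl ⟨by omega, h2⟩), by omega⟩)

theorem MinD_one {m : ℕ} (h : m % 8 = 1 ∨ m % 8 = 5) : MinD (1 * m) ↔ Min 4 m := by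
  unfold MinD
  rw [one_mul, if_neg (by omega : ¬ (m % 8 = 0)), if_neg (by omega : ¬ (m % 32 = 28)),
    if_neg (by omega : ¬ (m % 4 = 0))]

theorem MinD_four {m : ℕ} (h : m % 8 = 3) : MinD (4 * m) ↔ Min 4 m := by
  have e : 4 * m / 4 = m := by omega
  unfold MinD
  rw [if_neg (by omega : ¬ (4 * m % 8 = 0)), if_neg (by omega : ¬ (4 * m % 32 = 28)),
    if_pos (by omega : 4 * m % 4 = 0), e]

theorem MinD_fourZ {m : ℕ} (h : m % 8 = 7) : MinD (4 * m) ↔ MinZ m := by
  have e : 4 * m / 4 = m := by omega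
  unfold MinD
  rw [if_neg (by omega : ¬ (4 * m % 8 = 0)), if_pos (by omega : (4 * m % 32 = 28)), e]

theorem MinD_eight (m : ℕ) : MinD (8 * m) ↔ Min 8 m := by
  have e : 8 * m / 8 = m := by omega
  unfold MinD
  rw [if_pos (by omega : (8 * m % 8 = 0)), e]

/-- the digit of a discriminant of one class -/
theorem gD_type (t : ℕ × ℕ) (ht : t ∈ types) (m : ℕ) (hm : m % 8 = t.2) :
    gD (t.1 * m) = gt t m := by
  classical
  simp only [types, Finset.mem_insert, Finset.mem_singleton] at ht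
  rcases ht with rfl | rfl | rfl | rfl | rfl | rfl | rfl | rfl
  · have h := MinD_one (m := m) (Or.inl hm)
    have e : gt (1, 1) = gM 4 := by unfold gt; norm_num
    rw [e]; unfold gD gM
    exact if_congr h rfl rfl
  · have h := MinD_one (m := m) (Or.inr hm)
    have e : gt (1, 5) = gM 4 := by unfold gt; norm_num
    rw [e]; unfold gD gM
    exact if_congr h rfl rfl
  · have h := MinD_four (m := m) hm
    have e : gt (4, 3) = gM 4 := by unfold gt; norm_num
    rw [e]; unfold gD gM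
    exact if_congr h rfl rfl
  · have h := MinD_fourZ (m := m) hm
    have e : gt (4, 7) = gZ := by unfold gt; norm_num
    rw [e]; unfold gD gZ
    exact if_congr h rfl rfl
  all_goals
    have h := MinD_eight m
    first
    | (have e : gt (8, 1) = gM 8 := by unfold gt; norm_num
       rw [e]; unfold gD gM
       exact if_congr h rfl rfl)
    | (have e : gt (8, 3) = gM 8 := by unfold gt; norm_num
       rw [e]; unfold gD gM
       exact if_congr h rfl rfl)
    | (have e : gt (8, 5) = gM 8 := by unfold gt; norm_num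
       rw [e]; unfold gD gM
       exact if_congr h rfl rfl)
    | (have e : gt (8, 7) = gM 8 := by unfold gt; norm_num
       rw [e]; unfold gD gM
       exact if_congr h rfl rfl)

/-- the discriminants of one class -/
noncomputable def Cl (t : ℕ × ℕ) (X : ℕ) : Finset ℕ := (RDs X).filter fun D => D % (8 * t.1) = t.1 * t.2

theorem types_pos (t : ℕ × ℕ) (ht : t ∈ types) : 0 < t.1 ∧ t.1 ≤ 8 ∧ t.2 < 8 := by
  simp only [types, Finset.mem_insert, Finset.mem_singleton] at ht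
  rcases ht with rfl | rfl | rfl | rfl | rfl | rfl | rfl | rfl <;> norm_num

theorem sum_Cl (t : ℕ × ℕ) (ht : t ∈ types) (X : ℕ) (f : ℕ → ℝ) :
    ∑ D ∈ Cl t X, f D =
      ∑ m ∈ (FF (X / t.1)).filter (fun m => 1 < t.1 * m ∧ m % 8 = t.2), f (t.1 * m) := by
  classical
  obtain ⟨h0, h1, h2⟩ := types_pos t ht
  unfold Cl RDs FF
  refine Finset.sum_nbij' (fun D => D / t.1) (fun m => t.1 * m) ?_ ?_ ?_ ?_ ?_
  · intro D hD
    rw [mem_filter, mem_filter, mem_Icc] at hD
    obtain ⟨⟨⟨h3, h4⟩, h5⟩, h6⟩ := hD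
    have hdiv : t.1 * (D / t.1) = D := by
      have : t.1 ∣ D := by
        rw [← Nat.div_add_mod D (8 * t.1), h6]
        exact Dvd.dvd.add (Dvd.intro (8 * (D / (8 * t.1))) (by ring)) (Nat.dvd_mul_right _ _)
      exact Nat.mul_div_cancel' this
    have hm : D / t.1 % 8 = t.2 := by
      have h7 : t.1 * (D / t.1 % 8) = t.1 * t.2 := by
        rw [← h6, ← Nat.mul_mod_mul_left, hdiv, mul_comm 8]
      exact Nat.eq_of_mul_eq_mul_left h0 h7
    have h8 := (disc_type t ht (D / t.1) hm).1 (by rw [hdiv]; exact h5)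
    rw [mem_filter, mem_filter, mem_Icc]
    refine ⟨⟨⟨?_, Nat.div_le_div_right h4⟩, h8.2⟩, h8.1, hm⟩
    rcases Nat.eq_zero_or_pos (D / t.1) with h9 | h9
    · rw [h9, mul_zero] at hdiv
      omega
    · exact h9
  · intro m hm
    rw [mem_filter, mem_filter, mem_Icc] at hm
    obtain ⟨⟨⟨h3, h4⟩, h5⟩, h6, h7⟩ := hm
    rw [mem_filter, mem_filter, mem_Icc]
    refine ⟨⟨⟨by omega, ?_⟩, (disc_type t ht m h7).2 ⟨h6, h5⟩⟩, ?_⟩
    · calc t.1 * m ≤ t.1 * (X / t.1) := Nat.mul_le_mul_left _ h4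
        _ ≤ X := Nat.mul_div_le X t.1
    · rw [mul_comm 8 t.1, Nat.mul_mod_mul_left, h7]
  · intro D hD
    rw [mem_filter] at hD
    have : t.1 ∣ D := by
      rw [← Nat.div_add_mod D (8 * t.1), hD.2]
      exact Dvd.dvd.add (Dvd.intro (8 * (D / (8 * t.1))) (by ring)) (Nat.dvd_mul_right _ _)
    exact Nat.mul_div_cancel' this
  · intro m _
    exact Nat.mul_div_cancel_left m h0
  · intro D hD
    rw [mem_filter] at hD
    have : t.1 ∣ D := by
      rw [← Nat.div_add_mod D (8 * t.1), hD.2]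
      exact Dvd.dvd.add (Dvd.intro (8 * (D / (8 * t.1))) (by ring)) (Nat.dvd_mul_right _ _)
    rw [Nat.mul_div_cancel' this]

/-- the law in one class, additive form -/
theorem law_type (t : ℕ × ℕ) (ht : t ∈ types) (ε : ℝ) (hε : 0 < ε) : ∃ X0 : ℕ, ∀ X : ℕ, X0 ≤ X →
    |∑ D ∈ Cl t X, (gD D - Pinf)| ≤ ε * X := by
  classical
  obtain ⟨h0, h1, h2⟩ := types_pos t ht
  obtain ⟨e, f, L, hd⟩ := gt_dig t ht
  obtain ⟨X1, hX1⟩ := dens hd (ε / 2) (by positivity)
  refine ⟨max (8 * X1) ⌈2 / ε⌉₊, fun X hX => ?_⟩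
  have hXa : 8 * X1 ≤ X := (le_max_left _ _).trans hX
  have hXb : 2 / ε ≤ X := (Nat.le_ceil _).trans (by exact_mod_cast (le_max_right _ _).trans hX)
  have hXk : X1 ≤ X / t.1 := by
    rw [Nat.le_div_iff_mul_le h0]
    nlinarith
  have h3 := hX1 (X / t.1) hXk
  rw [sum_Cl t ht X]
  have e1 : ∑ m ∈ (FF (X / t.1)).filter (fun m => 1 < t.1 * m ∧ m % 8 = t.2),
      (gD (t.1 * m) - Pinf) =
      ∑ m ∈ (FF (X / t.1)).filter (fun m => 1 < t.1 * m ∧ m % 8 = t.2), (gt t m - Pinf) := by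
    refine Finset.sum_congr rfl fun m hm => ?_
    rw [mem_filter] at hm
    rw [gD_type t ht m hm.2.2]
  rw [e1]
  set A := (FF (X / t.1)).filter (fun m => 1 < m ∧ m % 8 = t.2) with hA
  set B := (FF (X / t.1)).filter (fun m => 1 < t.1 * m ∧ m % 8 = t.2) with hB
  have hAB : A ⊆ B := by
    intro m hm
    rw [hA, mem_filter] at hm
    rw [hB, mem_filter]
    refine ⟨hm.1, ?_, hm.2.2⟩
    nlinarith [hm.2.1]
  have hBA : B \ A ⊆ {1} := by
    intro m hm
    have hm1 := (mem_sdiff.1 hm).1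
    have hm2 := (mem_sdiff.1 hm).2
    rw [hB, mem_filter] at hm1
    rw [hA, mem_filter] at hm2
    obtain ⟨h4, h5, h6⟩ := hm1
    have h7 := hm2
    have h8 : 1 ≤ m := by
      unfold FF at h4
      exact (mem_Icc.1 (mem_filter.1 h4).1).1
    rw [mem_singleton]
    by_contra hne
    exact h7 ⟨h4, by omega, h6⟩
  have h4 : ∑ m ∈ B, (gt t m - Pinf) = ∑ m ∈ A, (gt t m - Pinf) +
      ∑ m ∈ B \ A, (gt t m - Pinf) := by
    rw [add_comm, Finset.sum_sdiff hAB]
  have h5 : |∑ m ∈ B \ A, (gt t m - Pinf)| ≤ 1 := by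
    refine (Finset.abs_sum_le_sum_abs _ _).trans ?_
    refine (Finset.sum_le_sum fun m _ => abs_g_sub hd.g01 m).trans ?_
    rw [Finset.sum_const, nsmul_eq_mul, mul_one]
    have := Finset.card_le_card hBA
    rw [Finset.card_singleton] at this
    exact_mod_cast this
  rw [h4]
  have h6 : ((X / t.1 : ℕ) : ℝ) ≤ X := by exact_mod_cast Nat.div_le_self _ _
  have h7 : (1 : ℝ) ≤ ε / 2 * X := by
    rw [div_le_iff₀ hε] at hXb
    linarith
  calc |∑ m ∈ A, (gt t m - Pinf) + ∑ m ∈ B \ A, (gt t m - Pinf)|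
      ≤ |∑ m ∈ A, (gt t m - Pinf)| + |∑ m ∈ B \ A, (gt t m - Pinf)| := abs_add_le _ _
    _ ≤ ε / 2 * ((X / t.1 : ℕ) : ℝ) + 1 := add_le_add h3 h5
    _ ≤ ε / 2 * X + ε / 2 * X := by gcongr
    _ = ε * X := by ring

/-- many discriminants in each class -/
theorem card_Cl (t : ℕ × ℕ) (ht : t ∈ types) : ∃ X0 : ℕ, ∀ X : ℕ, X0 ≤ X →
    (X : ℝ) / 512 ≤ ((Cl t X).card : ℝ) := by
  classical
  obtain ⟨h0, h1, h2⟩ := types_pos t ht
  have hc : t.2 = 1 ∨ t.2 = 3 ∨ t.2 = 5 ∨ t.2 = 7 := by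
    obtain ⟨e, f, L, hd⟩ := gt_dig t ht
    exact hd.hc
  obtain ⟨X1, hX1⟩ := F_lower t.2 hc
  refine ⟨max (8 * X1) 16, fun X hX => ?_⟩
  have hXa : 8 * X1 ≤ X := (le_max_left _ _).trans hX
  have hXb : 16 ≤ X := (le_max_right _ _).trans hX
  have hXk : X1 ≤ X / t.1 := by
    rw [Nat.le_div_iff_mul_le h0]
    nlinarith
  have h3 := hX1 (X / t.1) hXk
  have h4 := sum_Cl t ht X (fun _ => 1)
  rw [Finset.sum_const, Finset.sum_const, nsmul_eq_mul, nsmul_eq_mul, mul_one, mul_one] at h4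
  rw [h4]
  have h5 : (FF (X / t.1)).filter (fun m => 1 < m ∧ m % 8 = t.2) ⊆
      (FF (X / t.1)).filter (fun m => 1 < t.1 * m ∧ m % 8 = t.2) := by
    intro m hm
    rw [mem_filter] at hm ⊢
    refine ⟨hm.1, ?_, hm.2.2⟩
    nlinarith [hm.2.1]
  have h6 : (((FF (X / t.1)).filter (fun m => 1 < m ∧ m % 8 = t.2)).card : ℝ) ≤
      (((FF (X / t.1)).filter (fun m => 1 < t.1 * m ∧ m % 8 = t.2)).card : ℝ) := by
    exact_mod_cast Finset.card_le_card h5
  refine le_trans ?_ (h3.trans h6)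
  have h7 : (X : ℝ) / 16 ≤ ((X / t.1 : ℕ) : ℝ) := by
    have h8 : X / 8 ≤ X / t.1 := Nat.div_le_div_left h1 h0
    have h9 : X ≤ 16 * (X / 8) := by omega
    have h10 : (X : ℝ) ≤ 16 * ((X / t.1 : ℕ) : ℝ) := by
      have : X ≤ 16 * (X / t.1) := h9.trans (Nat.mul_le_mul_left _ h8)
      exact_mod_cast this
    linarith
  linarith

/-- additive form implies the limit -/
theorem lim_of_add (S : ℕ → Finset ℕ) (h1 : ∀ ε : ℝ, 0 < ε → ∃ X0 : ℕ, ∀ X : ℕ, X0 ≤ X →
    |∑ D ∈ S X, (gD D - Pinf)| ≤ ε * X) (h2 : ∃ X0 : ℕ, ∀ X : ℕ, X0 ≤ X →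
    (X : ℝ) / 512 ≤ ((S X).card : ℝ)) :
    Tendsto (fun X => (∑ D ∈ S X, gD D) / ((S X).card : ℝ)) atTop (𝓝 Pinf) := by
  rw [Metric.tendsto_atTop]
  intro ε hε
  obtain ⟨X1, hX1⟩ := h1 (ε / 1024) (by positivity)
  obtain ⟨X2, hX2⟩ := h2
  refine ⟨max (max X1 X2) 1, fun X hX => ?_⟩
  have hXa : X1 ≤ X := le_trans (le_trans (le_max_left _ _) (le_max_left _ _)) hX
  have hXb : X2 ≤ X := le_trans (le_trans (le_max_right _ _) (le_max_left _ _)) hX
  have hXc : 1 ≤ X := le_trans (le_max_right _ _) hX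
  have hXr : (1 : ℝ) ≤ X := by exact_mod_cast hXc
  have h3 := hX1 X hXa
  have h4 := hX2 X hXb
  have hN : (0 : ℝ) < ((S X).card : ℝ) := by linarith
  have hfin : (∑ D ∈ S X, gD D) / ((S X).card : ℝ) - Pinf =
      (∑ D ∈ S X, (gD D - Pinf)) / ((S X).card : ℝ) := by
    rw [Finset.sum_sub_distrib, Finset.sum_const, nsmul_eq_mul]
    field_simp
  rw [Real.dist_eq, hfin, abs_div, abs_of_pos hN, div_lt_iff₀ hN]
  calc _ ≤ ε / 1024 * X := h3
    _ = ε / 2 * (X / 512) := by ring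
    _ ≤ ε / 2 * ((S X).card : ℝ) := by gcongr
    _ < ε * ((S X).card : ℝ) := by
        have : ε / 2 < ε := by linarith
        exact mul_lt_mul_of_pos_right this hN

/-- the law in each class -/
theorem law_class (t : ℕ × ℕ) (ht : t ∈ types) :
    Tendsto (fun X => (∑ D ∈ Cl t X, gD D) / ((Cl t X).card : ℝ)) atTop (𝓝 Pinf) :=
  lim_of_add (Cl t) (law_type t ht) (card_Cl t ht)

/-- the class of a discriminant -/
def ty (D : ℕ) : ℕ × ℕ :=
  if D % 8 = 0 then (8, D / 8 % 8) else if D % 4 = 0 then (4, D / 4 % 8) else (1, D % 8)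

theorem ty_mem {D : ℕ} (hD : TZB.RealDisc D) : ty D ∈ types := by
  unfold ty types
  simp only [Finset.mem_insert, Finset.mem_singleton]
  obtain ⟨h1, h2⟩ := hD
  split_ifs with h8 h4
  · have : D / 8 % 8 = 1 ∨ D / 8 % 8 = 3 ∨ D / 8 % 8 = 5 ∨ D / 8 % 8 = 7 := by
      rcases h2 with ⟨h3, h4⟩ | ⟨h3, h4, h5⟩
      · omega
      · omega
    rcases this with h | h | h | h <;> rw [h] <;> simp
  · have : D / 4 % 8 = 3 ∨ D / 4 % 8 = 7 := by
      rcases h2 with ⟨h3, h4⟩ | ⟨h3, h4, h5⟩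
      · omega
      · omega
    rcases this with h | h <;> rw [h] <;> simp
  · have : D % 8 = 1 ∨ D % 8 = 5 := by
      rcases h2 with ⟨h3, h4⟩ | ⟨h3, h4, h5⟩
      · omega
      · omega
    rcases this with h | h <;> rw [h] <;> simp

theorem ty_iff {D : ℕ} (hD : TZB.RealDisc D) (t : ℕ × ℕ) (ht : t ∈ types) :
    ty D = t ↔ D % (8 * t.1) = t.1 * t.2 := by
  have h2 := hD.2
  simp only [types, Finset.mem_insert, Finset.mem_singleton] at ht
  have hx : ∀ a b c d : ℕ, ((a, b) : ℕ × ℕ) = (c, d) ↔ a = c ∧ b = d := fun a b c d => Prod.mk.injEq a b c d ▸ Iff.rfl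
  unfold ty
  rcases ht with rfl | rfl | rfl | rfl | rfl | rfl | rfl | rfl <;>
  · simp only
    split_ifs with h8 h4 <;> rw [hx] <;>
    · rcases h2 with ⟨h3, _⟩ | ⟨h3, _, h5⟩
      · constructor <;> intro h <;> omega
      · constructor <;> intro h <;> omega

theorem sum_RDs (X : ℕ) (f : ℕ → ℝ) : ∑ D ∈ RDs X, f D = ∑ t ∈ types, ∑ D ∈ Cl t X, f D := by
  classical
  have hmem : ∀ D ∈ RDs X, ty D ∈ types := by
    intro D hD
    unfold RDs at hD
    exact ty_mem (mem_filter.1 hD).2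
  rw [← Finset.sum_fiberwise_of_maps_to hmem]
  refine Finset.sum_congr rfl fun t ht => ?_
  unfold Cl
  congr 1
  refine Finset.filter_congr fun D hD => ?_
  unfold RDs at hD
  exact ty_iff (mem_filter.1 hD).2 t ht

/-- The law: all real quadratic discriminants. -/
theorem law_all : Tendsto (fun X => (∑ D ∈ RDs X, gD D) / ((RDs X).card : ℝ)) atTop (𝓝 Pinf) := by
  classical
  refine lim_of_add RDs (fun ε hε => ?_) ?_
  · have h1 : ∀ t ∈ types, ∃ X0 : ℕ, ∀ X : ℕ, X0 ≤ X →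
        |∑ D ∈ Cl t X, (gD D - Pinf)| ≤ ε / 8 * X := fun t ht => law_type t ht _ (by positivity)
    choose! X1 hX1 using h1
    refine ⟨types.sup X1, fun X hX => ?_⟩
    rw [sum_RDs]
    refine (Finset.abs_sum_le_sum_abs _ _).trans ?_
    have h2 : ∑ t ∈ types, |∑ D ∈ Cl t X, (gD D - Pinf)| ≤ ∑ t ∈ types, ε / 8 * (X : ℝ) :=
      Finset.sum_le_sum fun t ht => hX1 t ht X ((Finset.le_sup ht).trans hX)
    refine h2.trans (le_of_eq ?_)
    rw [Finset.sum_const, nsmul_eq_mul]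
    have : types.card = 8 := by decide
    rw [this]
    push_cast
    ring
  · obtain ⟨X0, hX0⟩ := card_Cl (1, 1) (by decide)
    refine ⟨X0, fun X hX => (hX0 X hX).trans ?_⟩
    have : (Cl (1, 1) X).card ≤ (RDs X).card := Finset.card_le_card (Finset.filter_subset _ _)
    exact_mod_cast this

end Pool.Agent.TZL
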