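import Pool.Agent.TZL.Dig
import Pool.Agent.TZB.REC
import Pool.Agent.TZB.RC2

set_option autoImplicit false

/-! link between the digits of the Bernoulli sums and the coranks -/

namespace Pool.Agent.TZL

open Finset Pool.Agent.TLW

/-- the primes of `a q` -/
def pf (a q : ℕ) : Option (Ix a) → ℕ := fun o => o.elim q fun i => (i : ℕ)

section
variable {a q : ℕ}

theorem pf_P8 (ha : F1 a) (hq : P8 q) (o : Option (Ix a)) : P8 (pf a q o) := by
  rcases o with _ | i
  · exact hq
  · exact F1_P8 ha i

theorem pf_inj (hqa : ¬ q ∣ a) : Function.Injective (pf a q) := by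
  intro x y hxy
  rcases x with _ | x <;> rcases y with _ | y
  · rfl
  · exact absurd (Nat.dvd_of_mem_primeFactors y.2) (by
      have : q = (y : ℕ) := hxy
      rwa [← this])
  · exact absurd (Nat.dvd_of_mem_primeFactors x.2) (by
      have : (x : ℕ) = q := hxy
      rwa [this])
  · have : (x : ℕ) = y := hxy
    exact congrArg some (Subtype.ext this)

theorem pf_prod (ha : F1 a) : TZB.NN (pf a q) univ = a * q := by
  unfold TZB.NN
  rw [Fintype.prod_option]
  change q * ∏ i : Ix a, (i : ℕ) = a * q
  have h2 : ∏ i : Ix a, (i : ℕ) = ∏ x ∈ a.primeFactors, x :=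
    Finset.prod_coe_sort a.primeFactors fun x => x
  rw [h2, prod_pf ha, mul_comm]

theorem card_pf (ha : F1 a) (hq : P8 q) (hqa : ¬ q ∣ a) :
    (univ : Finset (Option (Ix a))).card = (a * q).primeFactors.card := by
  rw [pf_mul ha hq, Finset.card_union_of_disjoint, Finset.card_singleton, Finset.card_univ,
    Fintype.card_option, card_Ix]
  rw [Finset.disjoint_singleton_right]
  intro h; exact hqa (Nat.dvd_of_mem_primeFactors h)

theorem sum_nn_pf (ha : F1 a) (hq : P8 q) : ∑ o, nn (pf a q o) = nn (a * q) := by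
  rw [Fintype.sum_option, (nn_lam_mul a q (F1_odd ha) (P8_odd hq)).1, ← nn_a ha, add_comm]
  rfl

theorem sum_lam_pf (ha : F1 a) (hq : P8 q) : ∑ o, lam (pf a q o) = lam (a * q) := by
  rw [Fintype.sum_option, (nn_lam_mul a q (F1_odd ha) (P8_odd hq)).2, ← lam_a ha, add_comm]
  rfl

/-- symbols of `a q` -/
def Rpf (a q : ℕ) : Option (Ix a) → Option (Ix a) → ZMod 2 := fun i j => TZB.sy (pf a q i) (pf a q j)

/-- class bits of `a q` -/
def lpf (a q : ℕ) : Option (Ix a) → ZMod 2 := fun i => TZB.lam (pf a q i)

/-- the shift of the diagonal -/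
def vsh (a : ℕ) : Ix a → ZMod 2 := fun i => ∑ j ∈ univ.erase i, Ra a i j

theorem Lap_some_some (i j : Ix a) : TZB.Lap (Rpf a q) (some i) (some j) =
    MM (Ra a) (fun i => wq a q i + vsh a i) i j := by
  unfold TZB.Lap MM
  rw [Matrix.of_apply, Matrix.of_apply]
  by_cases hij : i = j
  · subst hij
    rw [if_pos rfl, if_pos rfl]
    have h1 : (univ.erase (some i) : Finset (Option (Ix a))) =
        insert none ((univ.erase i).map Function.Embedding.some) := by
      ext o
      rcases o with _ | o <;> simp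
    rw [h1, Finset.sum_insert (by simp), Finset.sum_map]
    rfl
  · rw [if_neg hij, if_neg (fun h => hij (Option.some_injective _ h))]
    rfl

/-- column sums of the Laplacian -/
theorem Lap_colsum (ha : F1 a) (hq : P8 q) (hqa : ¬ q ∣ a) (j : Option (Ix a)) :
    ∑ o, TZB.Lap (Rpf a q) o j = nn (pf a q j) * (1 + nn (a * q)) := by
  have h1 : ∑ o, TZB.Lap (Rpf a q) o j =
      ∑ o ∈ univ.erase j, (sy (pf a q j) (pf a q o) + sy (pf a q o) (pf a q j)) := by
    rw [← Finset.add_sum_erase _ _ (Finset.mem_univ j), Finset.sum_add_distrib]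
    unfold TZB.Lap
    rw [Matrix.of_apply, if_pos rfl]
    congr 1
    refine Finset.sum_congr rfl fun o ho => ?_
    rw [Matrix.of_apply, if_neg (Finset.mem_erase.1 ho).1]
    rfl
  rw [h1]
  have h2 : ∀ o ∈ univ.erase j, sy (pf a q j) (pf a q o) + sy (pf a q o) (pf a q j) =
      nn (pf a q j) * nn (pf a q o) := by
    intro o ho
    rw [sy_rec (pf_P8 ha hq j) (pf_P8 ha hq o) fun h =>
      (Finset.mem_erase.1 ho).1 (pf_inj hqa h).symm,
      ← add_assoc, CharTwo.add_self_eq_zero, zero_add]
  rw [Finset.sum_congr rfl h2, ← Finset.mul_sum]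
  have h3 := Finset.add_sum_erase univ (fun o => nn (pf a q o)) (Finset.mem_univ j)
  rw [sum_nn_pf ha hq] at h3
  have h5 : ∑ o ∈ univ.erase j, nn (pf a q o) = nn (a * q) + nn (pf a q j) := by
    rw [← h3, add_comm (nn (pf a q j)), add_assoc, CharTwo.add_self_eq_zero, add_zero]
  rw [h5, mul_add, mul_add, mul_one]
  have h6 : nn (pf a q j) * nn (pf a q j) = nn (pf a q j) := by
    unfold nn; split_ifs <;> simp
  rw [h6, add_comm]

/-- adding all rows to the row `none` -/
theorem det_rows {ι : Type*} [Fintype ι] [DecidableEq ι]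
    (N C : Matrix (Option ι) (Option ι) (ZMod 2))
    (h1 : ∀ i j, C (some i) j = N (some i) j) (h2 : ∀ j, C none j = ∑ i, N i j) :
    C.det = N.det := by
  have h3 : C = N.updateRow none (∑ k, (1 : ZMod 2) • N k) := by
    ext i j
    rcases i with _ | i
    · rw [Matrix.updateRow_self, h2, Finset.sum_apply]
      simp
    · rw [Matrix.updateRow_ne (by simp), h1]
  rw [h3, Matrix.det_updateRow_sum]
  simp

/-- the digit of level 4 -/
theorem F4_crk (ha : F1 a) (hq : P8 q) (hqa : ¬ q ∣ a) {e : ZMod 2} (he : e = 1 + nn (a * q)) :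
    TZB.F4 (Rpf a q) (lpf a q) univ = 1 ↔
      crk (CC (Ra a) (rr e 0 (sa a) (la a)) (la a) (fun i => wq a q i + vsh a i)
        (lam (a * q))) = 0 := by
  rw [crk_eq_zero_iff, TZB.F4_univ _ _ none]
  rw [← det_rows ((TZB.Lap (Rpf a q)).updateCol none (lpf a q))
    (CC (Ra a) (rr e 0 (sa a) (la a)) (la a) (fun i => wq a q i + vsh a i) (lam (a * q)))]
  · intro i j
    rcases j with _ | j
    · rw [Matrix.updateCol_self]; rfl
    · rw [Matrix.updateCol_ne (by simp), Lap_some_some]; rfl
  · intro j
    rcases j with _ | j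
    · simp only [Matrix.updateCol_self]
      exact (sum_lam_pf ha hq).symm
    · have h1 : ∀ i, ((TZB.Lap (Rpf a q)).updateCol none (lpf a q)) i (some j) =
          TZB.Lap (Rpf a q) i (some j) := fun i => Matrix.updateCol_ne (by simp)
      simp only [h1]
      rw [Lap_colsum ha hq hqa, ← he]
      show e * nn j + 0 * lam j = nn j * e
      ring

/-- the digit of level 8 -/
theorem F8_crk (ha : F1 a) (hq : P8 q) (hqa : ¬ q ∣ a) {e : ZMod 2} (he : e = 1 + nn (a * q)) :
    TZB.F8 (Rpf a q) (lpf a q) univ = 1 ↔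
      crk (CC (Ra a) (rr e 1 (sa a) (la a)) (la a) (fun i => wq a q i + (vsh a i + la a i))
        (lam (a * q))) = 0 := by
  rw [crk_eq_zero_iff, TZB.F8_univ _ _ none]
  rw [← det_rows ((TZB.Lap (Rpf a q) + Matrix.diagonal (lpf a q)).updateCol none (lpf a q))
    (CC (Ra a) (rr e 1 (sa a) (la a)) (la a) (fun i => wq a q i + (vsh a i + la a i))
      (lam (a * q)))]
  · intro i j
    rcases j with _ | j
    · rw [Matrix.updateCol_self]; rfl
    · rw [Matrix.updateCol_ne (by simp), Matrix.add_apply, Lap_some_some]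
      have e1 : CC (Ra a) (rr e 1 (sa a) (la a)) (la a)
          (fun i => wq a q i + (vsh a i + la a i)) (lam (a * q)) (some i) (some j) =
          MM (Ra a) (fun i => wq a q i + (vsh a i + la a i)) i j := rfl
      rw [e1]
      unfold MM
      rw [Matrix.of_apply, Matrix.of_apply]
      by_cases hij : i = j
      · subst hij
        rw [if_pos rfl, if_pos rfl, Matrix.diagonal_apply_eq, add_assoc]
        rfl
      · rw [if_neg hij, if_neg hij, Matrix.diagonal_apply_ne _ (by simpa using hij), add_zero]
  · intro j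
    rcases j with _ | j
    · simp only [Matrix.updateCol_self]
      exact (sum_lam_pf ha hq).symm
    · have h1 : ∀ i, ((TZB.Lap (Rpf a q) + Matrix.diagonal (lpf a q)).updateCol none (lpf a q)) i
          (some j) = TZB.Lap (Rpf a q) i (some j) + Matrix.diagonal (lpf a q) i (some j) :=
        fun i => by rw [Matrix.updateCol_ne (by simp), Matrix.add_apply]
      simp only [h1]
      rw [Finset.sum_add_distrib, Lap_colsum ha hq hqa, ← he]
      have h2 : ∑ i, Matrix.diagonal (lpf a q) i (some j) = lam j := by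
        rw [Finset.sum_eq_single_of_mem (some j) (Finset.mem_univ _)]
        · rw [Matrix.diagonal_apply_eq]; rfl
        · intro i _ hi; exact Matrix.diagonal_apply_ne _ hi
      rw [h2]
      show e * nn j + 1 * lam j = nn j * e + lam j
      ring

/-- the digit of the trivial zero case -/
theorem F5_crk (ha : F1 a) (hq : P8 q) (hqa : ¬ q ∣ a) (h7 : (a * q) % 8 = 7) :
    TZB.F5 (Rpf a q) (lpf a q) univ = 1 ↔
      crk (CC (Ra a) (rr 0 1 (sa a) (la a)) (la a) (fun i => wq a q i + vsh a i) 0) = 0 := by
  have hn : nn (a * q) = 1 := by unfold nn; rw [if_pos (by omega)]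
  have hl : lam (a * q) = 0 := by unfold lam; rw [if_neg (by omega)]
  rw [crk_eq_zero_iff, TZB.F5_univ _ _ none]
  · have h : ((TZB.Lap (Rpf a q)).updateCol none (lpf a q)).updateRow none
        (Function.update (lpf a q) none 0) =
        CC (Ra a) (rr 0 1 (sa a) (la a)) (la a) (fun i => wq a q i + vsh a i) 0 := by
      ext i j
      rcases i with _ | i
      · rw [Matrix.updateRow_self]
        rcases j with _ | j
        · rw [Function.update_self]; rfl
        · rw [Function.update_of_ne (by simp)]
          show lam j = 0 * nn j + 1 * lam j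
          ring
      · rw [Matrix.updateRow_ne (by simp)]
        rcases j with _ | j
        · rw [Matrix.updateCol_self]; rfl
        · rw [Matrix.updateCol_ne (by simp), Lap_some_some]; rfl
    rw [h]
  · intro j
    rw [Lap_colsum ha hq hqa, hn]
    have : (1 + 1 : ZMod 2) = 0 := by decide
    rw [this, mul_zero]
  · show ∑ i, lam (pf a q i) = 0
    rw [sum_lam_pf ha hq, hl]

end

end Pool.Agent.TZL
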