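import Pool.Agent.TZL.Law

set_option autoImplicit false

/-! main theorems -/

namespace Pool.Agent.TZL

open Finset Pool.Agent.TLW Filter Topology

/-- the 2-adic L-function exists, is unique, and has the generic behaviour -/
def GoodD (D : ℕ) : Prop := ∃ L, TZB.IsL2 D L ∧ (∀ L', TZB.IsL2 D L' → L' = L) ∧ Generic D L

theorem not_both {D : ℕ} {L : ℤ_[2] → ℚ_[2]} (h : Generic D L) (h' : Exceptional D L) : False := by
  rcases h with ⟨h1, h2⟩ | ⟨h1, h2⟩ <;> rcases h' with ⟨h3, h4⟩ | ⟨h3, h4⟩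
  · have e := h4 1
    rw [h2 1, pow_succ] at e
    have : (0 : ℝ) < (1 / 2) ^ om D := by positivity
    linarith
  · exact h1 h3
  · exact h3 h1
  · have e := h4 1
    rw [h2 1, norm_one, pow_succ, pow_succ, pow_succ] at e
    have : (0 : ℝ) < (1 / 2) ^ om D := by positivity
    linarith

theorem good_iff {D : ℕ} (hD : TZB.RealDisc D) : GoodD D ↔ MinD D := by
  obtain ⟨L, hL⟩ := TZB.exists_L2 D hD
  constructor
  · rintro ⟨L', hL', _, hG⟩
    rcases dichotomy hD hL' with h | h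
    · exact h.1
    · exact (not_both hG h.2).elim
  · intro hM
    rcases dichotomy hD hL with h | h
    · exact ⟨L, hL, fun L' hL' => TZB.unique_L2 D L' L hL' hL, h.2⟩
    · exact (h.1 hM).elim

open Classical in
theorem gD_eq {D : ℕ} (hD : TZB.RealDisc D) : gD D = if GoodD D then 1 else 0 := by
  unfold gD
  exact if_congr (good_iff hD).symm rfl rfl

open Classical in
/-- real quadratic discriminants up to `X` in the union `T` of classes `(k, c)`: `D = k c mod 8 k` -/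
noncomputable def Dset (T : Finset (ℕ × ℕ)) (X : ℕ) : Finset ℕ :=
  (Icc 1 X).filter fun D => TZB.RealDisc D ∧ ∃ t ∈ T, D % (8 * t.1) = t.1 * t.2

theorem sum_Dset (T : Finset (ℕ × ℕ)) (hT : T ⊆ types) (X : ℕ) (f : ℕ → ℝ) :
    ∑ D ∈ Dset T X, f D = ∑ t ∈ T, ∑ D ∈ Cl t X, f D := by
  classical
  have hmem : ∀ D ∈ Dset T X, ty D ∈ T := by
    intro D hD
    unfold Dset at hD
    obtain ⟨_, h1, t, ht, h2⟩ := mem_filter.1 hD
    rw [(ty_iff h1 t (hT ht)).2 h2]
    exact ht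
  rw [← Finset.sum_fiberwise_of_maps_to hmem]
  refine Finset.sum_congr rfl fun t ht => ?_
  congr 1
  ext D
  unfold Dset Cl RDs
  simp only [mem_filter]
  constructor
  · rintro ⟨⟨h1, h2, _⟩, h3⟩
    exact ⟨⟨h1, h2⟩, (ty_iff h2 t (hT ht)).1 h3⟩
  · rintro ⟨⟨h1, h2⟩, h3⟩
    exact ⟨⟨h1, h2, t, ht, h3⟩, (ty_iff h2 t (hT ht)).2 h3⟩

open Classical in
/-- The law for every union of classes. -/
theorem law_T (T : Finset (ℕ × ℕ)) (hT : T ⊆ types) (hne : T.Nonempty) :
    Tendsto (fun X : ℕ => (((Dset T X).filter GoodD).card : ℝ) / ((Dset T X).card : ℝ)) atTop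
      (𝓝 Pinf) := by
  have h0 : ∀ X, (((Dset T X).filter GoodD).card : ℝ) = ∑ D ∈ Dset T X, gD D := by
    intro X
    rw [Finset.card_filter]
    push_cast
    refine Finset.sum_congr rfl fun D hD => ?_
    unfold Dset at hD
    rw [gD_eq (mem_filter.1 hD).2.1]
  simp only [h0]
  refine lim_of_add (Dset T) (fun ε hε => ?_) ?_
  · have h1 : ∀ t ∈ T, ∃ X0 : ℕ, ∀ X : ℕ, X0 ≤ X →
        |∑ D ∈ Cl t X, (gD D - Pinf)| ≤ ε / 8 * X := fun t ht => law_type t (hT ht) _ (by positivity)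
    choose! X1 hX1 using h1
    refine ⟨T.sup X1, fun X hX => ?_⟩
    rw [sum_Dset T hT]
    refine (Finset.abs_sum_le_sum_abs _ _).trans ?_
    have h2 : ∑ t ∈ T, |∑ D ∈ Cl t X, (gD D - Pinf)| ≤ ∑ t ∈ T, ε / 8 * (X : ℝ) :=
      Finset.sum_le_sum fun t ht => hX1 t ht X ((Finset.le_sup ht).trans hX)
    refine h2.trans ?_
    rw [Finset.sum_const, nsmul_eq_mul]
    have h3 : T.card ≤ 8 := (Finset.card_le_card hT).trans (by decide)
    have h4 : (T.card : ℝ) ≤ 8 := by exact_mod_cast h3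
    have h5 : (0 : ℝ) ≤ X := Nat.cast_nonneg _
    calc (T.card : ℝ) * (ε / 8 * X) ≤ 8 * (ε / 8 * X) := by gcongr
      _ = ε * X := by ring
  · obtain ⟨t, ht⟩ := hne
    obtain ⟨X0, hX0⟩ := card_Cl t (hT ht)
    refine ⟨X0, fun X hX => (hX0 X hX).trans ?_⟩
    have : (Cl t X).card ≤ (Dset T X).card := by
      refine Finset.card_le_card fun D hD => ?_
      unfold Cl RDs at hD
      unfold Dset
      simp only [mem_filter] at hD ⊢
      exact ⟨hD.1.1, hD.1.2, t, ht, hD.2⟩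
    exact_mod_cast this

end Pool.Agent.TZL
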