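import Pool.Agent.TZL.PrdA
import Pool.Agent.PNTAP.Main
import Pool.Agent.PnMn.SumInv

set_option autoImplicit false

/-! counting odd primes, the size of `DD` -/

namespace Pool.Agent.TZL

open Pool.Agent.TLW

open Finset Filter Topology

private lemma pr_class_eq (r : ℕ) (hr : r = 1 ∨ r = 3 ∨ r = 5 ∨ r = 7) (x : ℕ) :
    (pr 0 x).filter (fun q => q % 8 = r) = PNTAP.primesC (q := 8) (r : ZMod 8) (x : ℝ) := by
  unfold pr PNTAP.primesC
  ext p
  simp only [Finset.mem_filter, Nat.floor_natCast, P8]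
  have h8 : ((p : ZMod 8) = (r : ZMod 8)) ↔ p % 8 = r := by
    rw [ZMod.natCast_eq_natCast_iff, Nat.ModEq]
    rcases hr with rfl | rfl | rfl | rfl <;> simp
  rw [h8]
  constructor
  · rintro ⟨⟨h1, h2, h3⟩, h4⟩
    exact ⟨h1, h2, h4⟩
  · rintro ⟨h1, h2, h4⟩
    exact ⟨⟨h1, h2, by omega⟩, h4⟩

/-- primes in a fixed class -/
theorem pr_class (r : ℕ) (hr : r = 1 ∨ r = 3 ∨ r = 5 ∨ r = 7) :
    Tendsto (fun x : ℕ => (((pr 0 x).filter (fun q => q % 8 = r)).card : ℝ) / (x / Real.log x))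
      atTop (𝓝 (1 / 4)) := by
  have hu : IsUnit ((r : ℕ) : ZMod 8) := by
    rcases hr with rfl | rfl | rfl | rfl <;> decide
  have h := (PNTAP.tendsto_primeCounting_class (q := 8) hu).comp tendsto_natCast_atTop_atTop
  have h8 : ((Nat.totient 8 : ℝ))⁻¹ = 1 / 4 := by
    have : Nat.totient 8 = 4 := by decide
    rw [this]; norm_num
  rw [h8] at h
  refine h.congr fun x => ?_
  simp only [Function.comp_apply, PNTAP.piC]
  rw [pr_class_eq r hr x, div_div_eq_mul_div]

theorem pr_count : Tendsto (fun x : ℕ => ((pr 0 x).card : ℝ) / (x / Real.log x)) atTop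
    (𝓝 1) := by
  have h := (((pr_class 1 (by norm_num)).add (pr_class 3 (by norm_num))).add
    (pr_class 5 (by norm_num))).add (pr_class 7 (by norm_num))
  have e : (1 / 4 + 1 / 4 + 1 / 4 + 1 / 4 : ℝ) = 1 := by norm_num
  rw [e] at h
  refine h.congr fun x => ?_
  rw [← add_div, ← add_div, ← add_div]
  congr 1
  have hc : (pr 0 x).card = ∑ r ∈ ({1, 3, 5, 7} : Finset ℕ),
      ((pr 0 x).filter (fun q => q % 8 = r)).card := by
    apply Finset.card_eq_sum_card_fiberwise
    intro q hq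
    have h2 : P8 q := by
      unfold pr at hq
      exact (Finset.mem_filter.1 hq).2
    have h3 := h2.2
    simp only [Finset.coe_insert, Finset.coe_singleton, Set.mem_insert_iff,
      Set.mem_singleton_iff]
    omega
  rw [hc]
  have : ({1, 3, 5, 7} : Finset ℕ) = insert 1 (insert 3 (insert 5 {7})) := rfl
  rw [this, Finset.sum_insert (by decide), Finset.sum_insert (by decide),
    Finset.sum_insert (by decide), Finset.sum_singleton]
  push_cast
  ring

/-- short intervals -/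
theorem pr_short (κ : ℝ) (h0 : 0 < κ) (h1 : κ ≤ 1) : ∃ V0 : ℕ, ∀ V y : ℕ, V0 ≤ V → V ≤ y →
    (y : ℝ) ≤ (1 + κ) * V → ((pr V y).card : ℝ) ≤ 2 * κ * (V / Real.log V) := by
  have hδ : (0:ℝ) < κ / 6 := by positivity
  have h := (Metric.tendsto_atTop.1 pr_count) (κ / 6) hδ
  obtain ⟨N, hN⟩ := h
  refine ⟨max N 3, ?_⟩
  intro V y hV hVy hy
  have hNV : N ≤ V := le_trans (le_max_left _ _) hV
  have h3V : 3 ≤ V := le_trans (le_max_right _ _) hV
  have hV1 : (1:ℝ) < V := by exact_mod_cast (by omega : 1 < V)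
  have hy1 : (1:ℝ) < y := by exact_mod_cast (by omega : 1 < y)
  have hlV : 0 < Real.log V := Real.log_pos hV1
  have hly : 0 < Real.log y := Real.log_pos hy1
  have hVy' : (V:ℝ) ≤ y := by exact_mod_cast hVy
  have hll : Real.log V ≤ Real.log y := Real.log_le_log (by linarith) hVy'
  have hA : ∀ z : ℕ, N ≤ z → (1:ℝ) < z →
      (1 - κ / 6) * (z / Real.log z) ≤ ((pr 0 z).card : ℝ) ∧
      ((pr 0 z).card : ℝ) ≤ (1 + κ / 6) * (z / Real.log z) := by
    intro z hz hz1
    have hlz : 0 < Real.log z := Real.log_pos hz1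
    have hq : 0 < (z : ℝ) / Real.log z := div_pos (by linarith) hlz
    have h2 := hN z hz
    rw [Real.dist_eq, abs_lt] at h2
    constructor
    · have h3 : 1 - κ / 6 ≤ ((pr 0 z).card : ℝ) / (z / Real.log z) := by linarith [h2.1]
      exact (le_div_iff₀ hq).1 h3
    · have h3 : ((pr 0 z).card : ℝ) / (z / Real.log z) ≤ 1 + κ / 6 := by linarith [h2.2]
      exact (div_le_iff₀ hq).1 h3
  have hcard : ((pr V y).card : ℝ) = ((pr 0 y).card : ℝ) - ((pr 0 V).card : ℝ) := by
    have hd : Disjoint (pr 0 V) (pr V y) := by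
      unfold pr
      refine Finset.disjoint_filter_filter ?_
      rw [Finset.disjoint_left]
      intro a ha hb
      rw [Finset.mem_Ioc] at ha hb
      omega
    have hU : pr 0 y = pr 0 V ∪ pr V y := by
      unfold pr
      rw [← Finset.filter_union, Finset.Ioc_union_Ioc_eq_Ioc (Nat.zero_le _) hVy]
    have hc := Finset.card_union_of_disjoint hd
    rw [← hU] at hc
    rw [hc]
    push_cast
    ring
  have hup := (hA y (le_trans hNV hVy) hy1).2
  have hlo := (hA V hNV hV1).1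
  have hyq : (y : ℝ) / Real.log y ≤ (1 + κ) * (V / Real.log V) := by
    rw [mul_div_assoc']
    exact div_le_div₀ (by positivity) hy hlV hll
  have hq : 0 < (V : ℝ) / Real.log V := div_pos (by linarith) hlV
  rw [hcard]
  have h5 : (1 + κ / 6) * (y / Real.log y) ≤ (1 + κ / 6) * ((1 + κ) * (V / Real.log V)) :=
    mul_le_mul_of_nonneg_left hyq (by positivity)
  have h6 : (1 + κ / 6) * ((1 + κ) * (V / Real.log V)) -
      (1 - κ / 6) * (V / Real.log V) ≤ 2 * κ * (V / Real.log V) := by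
    have h7 : (1 + κ / 6) * (1 + κ) - (1 - κ / 6) ≤ 2 * κ := by nlinarith
    calc (1 + κ / 6) * ((1 + κ) * (V / Real.log V)) - (1 - κ / 6) * (V / Real.log V)
        = ((1 + κ / 6) * (1 + κ) - (1 - κ / 6)) * (V / Real.log V) := by ring
      _ ≤ 2 * κ * (V / Real.log V) := mul_le_mul_of_nonneg_right h7 hq.le
  linarith

/-- upper bound for `DD` -/
theorem DD_le_log : ∃ C : ℝ, 0 < C ∧ ∀ x : ℕ, 2 ≤ x → DD x ≤ C * Real.log x := by
  obtain ⟨C0, hC0⟩ := Pool.Agent.PnMn.sumInvPrimes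
  refine ⟨Real.exp C0, Real.exp_pos _, fun x hx => ?_⟩
  have hx1 : (1 : ℝ) < x := by exact_mod_cast (by omega : 1 < x)
  have hl : 0 < Real.log x := Real.log_pos hx1
  have h1 : DD x ≤ Real.exp (∑ p ∈ pr 0 x, 1 / (p : ℝ)) := by
    unfold DD
    rw [Real.exp_sum]
    refine Finset.prod_le_prod (fun p _ => by positivity) fun p _ => ?_
    have := Real.add_one_le_exp (1 / (p : ℝ))
    linarith
  have h2 : ∑ p ∈ pr 0 x, 1 / (p : ℝ) ≤ Real.log (Real.log x) + C0 := by
    have h3 := hC0 x hx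
    refine le_trans ?_ h3
    refine Finset.sum_le_sum_of_subset_of_nonneg ?_ fun p _ _ => by positivity
    intro p hp
    rw [mem_pr] at hp
    rw [Finset.mem_filter, Finset.mem_Icc]
    exact ⟨⟨hp.2.1.pos, hp.1.2⟩, hp.2.1⟩
  calc DD x ≤ Real.exp (Real.log (Real.log x) + C0) := h1.trans (Real.exp_le_exp.2 h2)
    _ = Real.exp C0 * Real.log x := by
        rw [Real.exp_add, Real.exp_log hl, mul_comm]

end Pool.Agent.TZL
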