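import Pool.Agent.TZL.LinG
import Pool.Agent.TLW.Rei

/-!
Reindexing of the data along an equivalence of the index types.
-/

set_option autoImplicit false

namespace Pool.Agent.TZL

open Finset Pool.Agent.TLW

theorem MM_reindex {ι ι' : Type*} [Fintype ι] [DecidableEq ι] [Fintype ι']
    [DecidableEq ι'] (e : ι ≃ ι') (R : ι → ι → ZMod 2) (R' : ι' → ι' → ZMod 2)
    (hR : ∀ i j, i ≠ j → R' (e i) (e j) = R i j) (u' : ι' → ZMod 2) (i j : ι) :
    MM R' u' (e i) (e j) = MM R (fun k => u' (e k)) i j := by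
  unfold MM
  simp only [Matrix.of_apply]
  by_cases h : i = j
  · rw [if_pos (congrArg e h), if_pos h]
  · rw [if_neg fun h' => h (e.injective h'), if_neg h, hR i j h]

theorem crk_CC_reindex {ι ι' : Type*} [Fintype ι] [DecidableEq ι] [Fintype ι']
    [DecidableEq ι'] (e : ι ≃ ι') (R : ι → ι → ZMod 2) (s l : ι → ZMod 2) (R' : ι' → ι' → ZMod 2)
    (s' l' : ι' → ZMod 2) (hR : ∀ i j, i ≠ j → R' (e i) (e j) = R i j)
    (hs : ∀ i, s' (e i) = s i) (hl : ∀ i, l' (e i) = l i) (u' : ι' → ZMod 2) (L : ZMod 2) :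
    crk (CC R' s' l' u' L) = crk (CC R s l (fun k => u' (e k)) L) := by
  refine crk_reindex (Equiv.optionCongr e) _ _ fun i j => ?_
  rcases i with _ | i <;> rcases j with _ | j
  · rfl
  · exact hs j
  · exact hl i
  · exact MM_reindex e R R' hR u' i j

theorem KM_reindex {ι ι' : Type*} [Fintype ι] [DecidableEq ι] [Fintype ι'] [DecidableEq ι']
    (e : ι ≃ ι') (R : ι → ι → ZMod 2) (R' : ι' → ι' → ZMod 2)
    (hR : ∀ i j, i ≠ j → R' (e i) (e j) = R i j) : KM R' = KM R := by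
  unfold KM
  rw [Fintype.card_congr e]
  congr 1
  rw [← sum_vec_reindex e fun u => (kerN (MM R u) : ℝ)]
  refine Finset.sum_congr rfl fun u' _ => ?_
  rw [kerN_eq, kerN_eq, crk_reindex e _ _ (MM_reindex e R R' hR u')]

theorem GLv_reindex {ι ι' : Type*} [Fintype ι] [DecidableEq ι] [Fintype ι'] [DecidableEq ι']
    (J : ℕ) (e : ι ≃ ι') (R : ι → ι → ZMod 2) (s l : ι → ZMod 2) (R' : ι' → ι' → ZMod 2)
    (s' l' : ι' → ZMod 2) (hR : ∀ i j, i ≠ j → R' (e i) (e j) = R i j)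
    (hs : ∀ i, s' (e i) = s i) (hl : ∀ i, l' (e i) = l i) (L : ZMod 2) :
    GLv J R' s' l' L = GLv J R s l L := by
  unfold GLv
  rw [Fintype.card_congr e]
  congr 1
  rw [← sum_vec_reindex e fun u => hJ J (crk (CC R s l u L))]
  refine Finset.sum_congr rfl fun u' _ => ?_
  rw [crk_CC_reindex e R s l R' s' l' hR hs hl]

end Pool.Agent.TZL
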