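import Pool.Agent.TZL.GdE
import Pool.Agent.TZB.ONE

set_option autoImplicit false

/-! one discriminant: the dichotomy for the absolute value of the 2-adic L-function -/

namespace Pool.Agent.TZL

open Finset Pool.Agent.TLW

/-- number of odd prime factors -/
def om (D : ℕ) : ℕ := (D.primeFactors.erase 2).card

theorem om_odd {m : ℕ} (hm : m % 2 = 1) : om m = m.primeFactors.card := by
  unfold om
  rw [Finset.erase_eq_of_notMem]
  intro h
  have := Nat.dvd_of_mem_primeFactors h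
  omega

theorem om_pow (j m : ℕ) (hm : m % 2 = 1) : om (2 ^ j * m) = m.primeFactors.card := by
  rw [← om_odd hm]
  unfold om
  have h0 : m ≠ 0 := by omega
  rw [Nat.primeFactors_mul (by positivity) h0]
  congr 1
  ext p
  simp only [Finset.mem_erase, Finset.mem_union]
  constructor
  · rintro ⟨h1, h2 | h2⟩
    · exfalso
      have h3 := Nat.prime_of_mem_primeFactors h2
      have h4 := h3.dvd_of_dvd_pow (Nat.dvd_of_mem_primeFactors h2)
      exact h1 ((Nat.prime_dvd_prime_iff_eq h3 Nat.prime_two).1 h4)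
    · exact ⟨h1, h2⟩
  · rintro ⟨h1, h2⟩
    exact ⟨h1, Or.inr h2⟩

theorem L_at {D n : ℕ} (hD : TZB.RealDisc D) (hn : 2 ≤ n) {L : ℤ_[2] → ℚ_[2]} (hL : TZB.IsL2 D L) :
    L (1 - n) = ((-2 * TZB.XD n D : ℚ) : ℚ_[2]) := by
  obtain ⟨r, hr1, hr2⟩ := hL.2 n hn
  have hr : r = -2 * TZB.XD n D := by
    have h1 : (r : ℂ) = ((-2 * TZB.XD n D : ℚ) : ℂ) := hr1.trans (TZB.LV_val D n hD hn)
    exact_mod_cast h1
  rw [hr2, hr]

theorem norm_L_at {D n : ℕ} (hD : TZB.RealDisc D) (hn : 2 ≤ n) {L : ℤ_[2] → ℚ_[2]}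
    (hL : TZB.IsL2 D L) : ‖L (1 - n)‖ = 1 / 2 * ‖((TZB.XD n D : ℚ) : ℚ_[2])‖ := by
  rw [L_at hD hn hL]
  push_cast
  rw [norm_mul, norm_neg, norm_two]

/-- residue zero gives a smaller absolute value -/
theorem Rd_zero_le {x : ℚ} (h : TZB.Rd x 0) : ‖(x : ℚ_[2])‖ ≤ 1 / 2 := by
  obtain ⟨z, hz, h0⟩ := h
  have h1 : z ∈ RingHom.ker (PadicInt.toZMod (p := 2)) := h0
  rw [PadicInt.ker_toZMod, PadicInt.maximalIdeal_eq_span_p, Ideal.mem_span_singleton] at h1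
  obtain ⟨y, rfl⟩ := h1
  rw [← hz, ← PadicInt.norm_def, norm_mul, PadicInt.norm_p]
  have := PadicInt.norm_le_one y
  push_cast
  linarith

section
variable {m : ℕ}

theorem F1_pf_prod (hm : F1 m) : TZB.NN (fun i : Ix m => (i : ℕ)) univ = m := by
  unfold TZB.NN
  have h2 : ∏ i : Ix m, (i : ℕ) = ∏ x ∈ m.primeFactors, x :=
    Finset.prod_coe_sort m.primeFactors fun x => x
  rw [h2, prod_pf hm]

theorem card_univ_Ix (m : ℕ) : (univ : Finset (Ix m)).card = m.primeFactors.card := by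
  rw [Finset.card_univ, card_Ix]

/-- dichotomy at level 4 -/
theorem dich4 (hm : F1 m) (h1 : 1 < m) :
    Min 4 m ∨ ∀ n : ℕ, 2 ≤ n → ‖((TZB.XX n 4 m : ℚ) : ℚ_[2])‖ ≤
      (1 / 2 : ℝ) ^ m.primeFactors.card := by
  have hne : (univ : Finset (Ix m)).Nonempty := by
    obtain ⟨p, hp⟩ : m.primeFactors.Nonempty := Nat.nonempty_primeFactors.2 h1
    exact ⟨⟨p, hp⟩, Finset.mem_univ _⟩
  have hc : 1 ≤ m.primeFactors.card := by
    rw [← card_univ_Ix]; exact Finset.card_pos.2 hne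
  have key := fun (n : ℕ) (hn : 2 ≤ n) => TZB.main4 n (by omega) (fun i : Ix m => (i : ℕ))
    (fun i => F1_P8 hm i) Subtype.val_injective univ hne
  rw [F1_pf_prod hm, card_univ_Ix] at key
  have h3 : ∀ n, ‖((TZB.XX n 4 m / 2 ^ (m.primeFactors.card - 1) : ℚ) : ℚ_[2])‖ =
      ‖((TZB.XX n 4 m : ℚ) : ℚ_[2])‖ / (1 / 2 : ℝ) ^ (m.primeFactors.card - 1) := by
    intro n
    push_cast
    rw [norm_div, norm_pow, norm_two]
  obtain ⟨t, ht⟩ : ∃ t, m.primeFactors.card = t + 1 := ⟨_, (Nat.sub_add_cancel hc).symm⟩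
  rcases TRL.zmod2_cases (TZB.F4 (fun i j : Ix m => TZB.sy (i : ℕ) (j : ℕ))
    (fun i : Ix m => TZB.lam (i : ℕ)) univ) with h | h
  · right
    intro n hn
    have h4 := key n hn
    rw [h] at h4
    have h5 := Rd_zero_le h4
    rw [h3, div_le_iff₀ (by positivity)] at h5
    refine h5.trans (le_of_eq ?_)
    rw [ht, Nat.add_sub_cancel, pow_succ]; ring
  · left
    intro n hn
    have h4 := key n hn
    rw [h] at h4
    have h5 := h4.norm_one
    rw [h3, div_eq_iff (by positivity), one_mul] at h5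
    rw [h5, ht, Nat.add_sub_cancel, pow_succ]; ring

/-- dichotomy at level 8 -/
theorem dich8 (hm : F1 m) :
    Min 8 m ∨ ∀ n : ℕ, 2 ≤ n → ‖((TZB.XX n 8 m : ℚ) : ℚ_[2])‖ ≤
      (1 / 2 : ℝ) ^ m.primeFactors.card := by
  have key := fun (n : ℕ) (hn : 2 ≤ n) => TZB.main8 n (by omega) (fun i : Ix m => (i : ℕ))
    (fun i => F1_P8 hm i) Subtype.val_injective univ
  rw [F1_pf_prod hm, card_univ_Ix] at key
  have h3 : ∀ n, ‖((2 * TZB.XX n 8 m / 2 ^ m.primeFactors.card : ℚ) : ℚ_[2])‖ =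
      1 / 2 * ‖((TZB.XX n 8 m : ℚ) : ℚ_[2])‖ / (1 / 2 : ℝ) ^ m.primeFactors.card := by
    intro n
    push_cast
    rw [norm_div, norm_mul, norm_pow, norm_two]
  rcases TRL.zmod2_cases (TZB.F8 (fun i j : Ix m => TZB.sy (i : ℕ) (j : ℕ))
    (fun i : Ix m => TZB.lam (i : ℕ)) univ) with h | h
  · right
    intro n hn
    have h4 := key n hn
    rw [h] at h4
    have h5 := Rd_zero_le h4
    rw [h3, div_le_iff₀ (by positivity)] at h5
    linarith
  · left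
    intro n hn
    have h4 := key n hn
    rw [h] at h4
    have h5 := h4.norm_one
    rw [h3, div_eq_iff (by positivity), one_mul] at h5
    linarith

/-- dichotomy in the presence of the trivial zero -/
theorem dichZ (hm : F1 m) (h7 : m % 8 = 7) :
    MinZ m ∨ ∀ n : ℕ, 2 ≤ n → ‖((TZB.XX n 4 m : ℚ) : ℚ_[2])‖ ≤
      ‖(n : ℚ_[2]) - 1‖ * (1 / 2 : ℝ) ^ (m.primeFactors.card + 1) := by
  have hne : (univ : Finset (Ix m)).Nonempty := by
    obtain ⟨p, hp⟩ : m.primeFactors.Nonempty := Nat.nonempty_primeFactors.2 (by omega)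
    exact ⟨⟨p, hp⟩, Finset.mem_univ _⟩
  have key := fun (n : ℕ) (hn : 2 ≤ n) => TZB.main5 n hn (fun i : Ix m => (i : ℕ))
    (fun i => F1_P8 hm i) Subtype.val_injective univ hne
  rw [F1_pf_prod hm, card_univ_Ix] at key
  have h3 : ∀ n : ℕ, 2 ≤ n → 0 < ‖(n : ℚ_[2]) - 1‖ ∧
      ‖((4 * ((TZB.XX n 4 m - TZB.XX 1 4 m) / (4 * ((n : ℚ) - 1))) /
        2 ^ m.primeFactors.card : ℚ) : ℚ_[2])‖ =
        ‖((TZB.XX n 4 m : ℚ) : ℚ_[2])‖ / (‖(n : ℚ_[2]) - 1‖ *
          (1 / 2 : ℝ) ^ m.primeFactors.card) := by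
    intro n hn
    have hn1 : ((n : ℚ) - 1) ≠ 0 := by
      have : (2 : ℚ) ≤ n := by exact_mod_cast hn
      intro h0; linarith
    have hn2 : ‖(n : ℚ_[2]) - 1‖ ≠ 0 := by
      rw [norm_ne_zero_iff]
      have : (((n : ℚ) - 1 : ℚ) : ℚ_[2]) ≠ 0 := by exact_mod_cast hn1
      push_cast at this
      exact this
    refine ⟨lt_of_le_of_ne (norm_nonneg _) (Ne.symm hn2), ?_⟩
    have e1 : 4 * ((TZB.XX n 4 m - TZB.XX 1 4 m) / (4 * ((n : ℚ) - 1))) /
        2 ^ m.primeFactors.card =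
        TZB.XX n 4 m / (((n : ℚ) - 1) * 2 ^ m.primeFactors.card) := by
      rw [TZB.XX_one_zero _ h7, sub_zero]
      field_simp
    rw [e1]
    push_cast
    rw [norm_div, norm_mul, norm_pow, norm_two]
  rcases TRL.zmod2_cases (TZB.F5 (fun i j : Ix m => TZB.sy (i : ℕ) (j : ℕ))
    (fun i : Ix m => TZB.lam (i : ℕ)) univ) with h | h
  · right
    intro n hn
    have h4 := key n hn
    rw [h] at h4
    have h5 := Rd_zero_le h4
    obtain ⟨hp, h6⟩ := h3 n hn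
    rw [h6, div_le_iff₀ (by positivity)] at h5
    refine h5.trans (le_of_eq ?_)
    rw [pow_succ]; ring
  · left
    intro n hn
    have h4 := key n hn
    rw [h] at h4
    have h5 := h4.norm_one
    obtain ⟨hp, h6⟩ := h3 n hn
    rw [h6, div_eq_iff (by positivity), one_mul] at h5
    exact h5

end

/-! ### the 2-adic L-function -/

/-- the generic behaviour: the smallest valuation allowed by genus theory, at every point `s` -/
def Generic (D : ℕ) (L : ℤ_[2] → ℚ_[2]) : Prop :=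
  (D % 32 ≠ 28 ∧ ∀ s, ‖L s‖ = (1 / 2 : ℝ) ^ om D) ∨
    (D % 32 = 28 ∧ ∀ s, ‖L s‖ = ‖s‖ * (1 / 2 : ℝ) ^ (om D + 1))

/-- the exceptional behaviour: the valuation is larger at every point `s` -/
def Exceptional (D : ℕ) (L : ℤ_[2] → ℚ_[2]) : Prop :=
  (D % 32 ≠ 28 ∧ ∀ s, ‖L s‖ ≤ (1 / 2 : ℝ) ^ (om D + 1)) ∨
    (D % 32 = 28 ∧ ∀ s, ‖L s‖ ≤ ‖s‖ * (1 / 2 : ℝ) ^ (om D + 2))

/-- the digit condition of a discriminant -/
def MinD (D : ℕ) : Prop :=
  if D % 8 = 0 then Min 8 (D / 8) else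
    if D % 32 = 28 then MinZ (D / 4) else if D % 4 = 0 then Min 4 (D / 4) else Min 4 D

theorem norm_one_sub (n : ℕ) : ‖(1 - (n : ℤ_[2]) : ℤ_[2])‖ = ‖(n : ℚ_[2]) - 1‖ := by
  rw [norm_sub_rev, PadicInt.norm_def]
  push_cast
  rfl

/-- all cases of discriminants -/
theorem disc_cases {D : ℕ} (hD : TZB.RealDisc D) :
    (D % 8 = 0 ∧ D % 32 ≠ 28 ∧ F1 (D / 8) ∧ D = 2 ^ 3 * (D / 8) ∧
      (∀ n, TZB.XD n D = TZB.XX n 8 (D / 8))) ∨
    (D % 8 ≠ 0 ∧ D % 32 = 28 ∧ F1 (D / 4) ∧ D = 2 ^ 2 * (D / 4) ∧ D / 4 % 8 = 7 ∧ 1 < D / 4 ∧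
      (∀ n, TZB.XD n D = TZB.XX n 4 (D / 4))) ∨
    (D % 8 ≠ 0 ∧ D % 32 ≠ 28 ∧ D % 4 = 0 ∧ F1 (D / 4) ∧ D = 2 ^ 2 * (D / 4) ∧ 1 < D / 4 ∧
      (∀ n, TZB.XD n D = TZB.XX n 4 (D / 4))) ∨
    (D % 8 ≠ 0 ∧ D % 32 ≠ 28 ∧ D % 4 ≠ 0 ∧ F1 D ∧ (∀ n, TZB.XD n D = TZB.XX n 4 D)) := by
  have hF : ∀ m : ℕ, m % 2 = 1 → Squarefree m → F1 m := by
    intro m hm hs
    refine ⟨hs, fun p hp => ?_⟩
    have h1 := Nat.dvd_of_mem_primeFactors hp
    rcases (Nat.prime_of_mem_primeFactors hp).eq_two_or_odd with h | h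
    · rw [h] at h1; omega
    · exact h
  obtain ⟨h1, h2⟩ := hD
  rcases h2 with ⟨h2, h3⟩ | ⟨h2, h3, h4⟩
  · right; right; right
    refine ⟨by omega, by omega, by omega, hF D (by omega) h3, fun n => ?_⟩
    unfold TZB.XD
    rw [if_neg (by omega), if_neg (by omega)]
  · by_cases h8 : D % 8 = 0
    · left
      have h5 : D / 4 = 2 * (D / 8) := by omega
      refine ⟨h8, by omega, hF _ (by omega) ?_, by omega, fun n => ?_⟩
      · rw [h5] at h3
        exact h3.squarefree_of_dvd (Nat.dvd_mul_left _ _)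
      · unfold TZB.XD
        rw [if_pos h8]
    · by_cases h28 : D % 32 = 28
      · right; left
        refine ⟨h8, h28, hF _ (by omega) h3, by omega, by omega, by omega, fun n => ?_⟩
        unfold TZB.XD
        rw [if_neg h8, if_pos h2]
      · right; right; left
        refine ⟨h8, h28, h2, hF _ (by omega) h3, by omega, by omega, fun n => ?_⟩
        unfold TZB.XD
        rw [if_neg h8, if_pos h2]

theorem om_cases {D k m : ℕ} (h : D = 2 ^ k * m) (hm : F1 m) : om D = m.primeFactors.card := by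
  rw [h]; exact om_pow k m (F1_odd hm)

/-- The dichotomy. -/
theorem dichotomy {D : ℕ} (hD : TZB.RealDisc D) {L : ℤ_[2] → ℚ_[2]} (hL : TZB.IsL2 D L) :
    (MinD D ∧ Generic D L) ∨ (¬ MinD D ∧ Exceptional D L) := by
  have hcont := hL.1
  -- regular case
  have reg : ∀ (c m : ℕ), D % 32 ≠ 28 → om D = m.primeFactors.card →
      (∀ n, TZB.XD n D = TZB.XX n c m) → (MinD D ↔ Min c m) →
      (Min c m ∨ ∀ n : ℕ, 2 ≤ n → ‖((TZB.XX n c m : ℚ) : ℚ_[2])‖ ≤
        (1 / 2 : ℝ) ^ m.primeFactors.card) →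
      (MinD D ∧ Generic D L) ∨ (¬ MinD D ∧ Exceptional D L) := by
    intro c m h28 hom hX hmin hd
    by_cases hM : Min c m
    · left
      refine ⟨hmin.2 hM, Or.inl ⟨h28, fun s => ?_⟩⟩
      refine TZB.closed_all {s | ‖L s‖ = (1 / 2 : ℝ) ^ om D}
        (isClosed_eq hcont.norm continuous_const) (fun n hn => ?_) s
      show ‖L (1 - n)‖ = _
      rw [norm_L_at hD hn hL, hX, hM n hn, hom]
      ring
    · right
      refine ⟨fun h => hM (hmin.1 h), Or.inl ⟨h28, fun s => ?_⟩⟩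
      refine TZB.closed_all {s | ‖L s‖ ≤ (1 / 2 : ℝ) ^ (om D + 1)}
        (isClosed_le hcont.norm continuous_const) (fun n hn => ?_) s
      show ‖L (1 - n)‖ ≤ _
      rw [norm_L_at hD hn hL, hX, hom, pow_succ]
      have := (hd.resolve_left hM) n hn
      linarith
  rcases disc_cases hD with ⟨h8, h28, hF, hDe, hX⟩ | ⟨h8, h28, hF, hDe, h7, h1, hX⟩ |
    ⟨h8, h28, h4, hF, hDe, h1, hX⟩ | ⟨h8, h28, h4, hF, hX⟩
  · refine reg 8 (D / 8) h28 (om_cases hDe hF) hX ?_ (dich8 hF)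
    unfold MinD; rw [if_pos h8]
  · have hmin : MinD D ↔ MinZ (D / 4) := by
      unfold MinD; rw [if_neg h8, if_pos h28]
    have hom := om_cases hDe hF
    by_cases hM : MinZ (D / 4)
    · left
      refine ⟨hmin.2 hM, Or.inr ⟨h28, fun s => ?_⟩⟩
      refine TZB.closed_all {s | ‖L s‖ = ‖s‖ * (1 / 2 : ℝ) ^ (om D + 1)}
        (isClosed_eq hcont.norm (continuous_norm.mul continuous_const)) (fun n hn => ?_) s
      show ‖L (1 - n)‖ = ‖(1 - (n : ℤ_[2]) : ℤ_[2])‖ * _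
      rw [norm_L_at hD hn hL, hX, hM n hn, hom, norm_one_sub, pow_succ]
      ring
    · right
      refine ⟨fun h => hM (hmin.1 h), Or.inr ⟨h28, fun s => ?_⟩⟩
      refine TZB.closed_all {s | ‖L s‖ ≤ ‖s‖ * (1 / 2 : ℝ) ^ (om D + 2)}
        (isClosed_le hcont.norm (continuous_norm.mul continuous_const)) (fun n hn => ?_) s
      show ‖L (1 - n)‖ ≤ ‖(1 - (n : ℤ_[2]) : ℤ_[2])‖ * _
      rw [norm_L_at hD hn hL, hX, hom, norm_one_sub, pow_succ]
      have := ((dichZ hF h7).resolve_left hM) n hn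
      linarith
  · refine reg 4 (D / 4) h28 (om_cases hDe hF) hX ?_ (dich4 hF h1)
    unfold MinD; rw [if_neg h8, if_neg h28, if_pos h4]
  · refine reg 4 D h28 (om_odd (F1_odd hF)) hX ?_ (dich4 hF hD.1)
    unfold MinD; rw [if_neg h8, if_neg h28, if_neg h4]

end Pool.Agent.TZL
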